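import Pool.Agent.Work.MP_f68f16_an.Hall.Stmts2

/-!
# Item AN: the outer annulus is in the domain
-/

set_option autoImplicit false

open MeasureTheory Metric Set Filter Topology

namespace MPf68f16.Hall.AN

open MPf68f16 MPf68f16.Hall

theorem ann_pre (ρ : ℝ) : IsPreconnected {z : ℂ | ρ < ‖z‖ ∧ ‖z‖ < 1} := by
  rcases lt_or_ge ρ 0 with h | h
  · have e : {z : ℂ | ρ < ‖z‖ ∧ ‖z‖ < 1} = ball (0 : ℂ) 1 := by
      ext z
      rw [mem_ball_zero_iff]
      exact ⟨fun hz => hz.2, fun hz => ⟨h.trans_le (norm_nonneg z), hz⟩⟩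
    rw [e]
    exact (convex_ball (0 : ℂ) 1).isPreconnected
  · have e : {z : ℂ | ρ < ‖z‖ ∧ ‖z‖ < 1} =
        (fun p : ℝ × ℝ => pt p.1 p.2) '' (Ioo ρ 1 ×ˢ (univ : Set ℝ)) := by
      ext z
      constructor
      · rintro ⟨h1, h2⟩
        refine ⟨(‖z‖, Complex.arg z), ⟨⟨h1, h2⟩, mem_univ _⟩, ?_⟩
        show pt ‖z‖ (Complex.arg z) = z
        unfold pt
        exact Complex.norm_mul_exp_arg_mul_I z
      · rintro ⟨p, ⟨⟨h1, h2⟩, -⟩, rfl⟩
        have h3 : ‖pt p.1 p.2‖ = p.1 := norm_pt p.2 (h.trans h1.le)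
        exact ⟨by show ρ < ‖pt p.1 p.2‖; rw [h3]; exact h1,
          by show ‖pt p.1 p.2‖ < 1; rw [h3]; exact h2⟩
    rw [e]
    exact (isPreconnected_Ioo.prod isPreconnected_univ).image _ continuous_pt.continuousOn

theorem prf : H_AN := by
  intro D ρ hD hρ hI z hz1 hz2
  have hsub : {z : ℂ | ρ < ‖z‖ ∧ ‖z‖ < 1} ⊆ D := by
    refine (ann_pre ρ).subset_of_closure_inter_subset hD.isOpen ?_ ?_
    · have h1 : (1 : ℂ) ∈ closure D :=
        frontier_subset_closure (hD.sphere_subset (by simp))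
      have hV : IsOpen {w : ℂ | ρ < ‖w‖} := isOpen_lt continuous_const continuous_norm
      have h1V : (1 : ℂ) ∈ {w : ℂ | ρ < ‖w‖} := by
        show ρ < ‖(1 : ℂ)‖
        rw [norm_one]
        exact hρ
      obtain ⟨w, hw1, hw2⟩ := mem_closure_iff.1 h1 _ hV h1V
      exact ⟨w, ⟨hw1, mem_ball_zero_iff.1 (hD.subset hw2)⟩, hw2⟩
    · rintro w ⟨hw1, hw2, hw3⟩
      by_contra hw
      have h2 : w ∈ frontier D := by
        rw [hD.isOpen.frontier_eq]
        exact ⟨hw1, hw⟩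
      exact absurd (hI w h2 hw3) (not_le.2 hw2)
  exact hsub ⟨hz1, hz2⟩

end MPf68f16.Hall.AN
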