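import Pool.Agent.Work.MP_f68f16_an.Hall.Stmts2

/-!
# Hall's lemma with the sharp constant, item DL: the dilated lower function
-/

set_option autoImplicit false

open MeasureTheory Metric Set Filter Topology

namespace MPf68f16.Hall.DL

open MPf68f16 MPf68f16.Hall

theorem tend (D : Set ℂ) (s : ℝ) (z : ℂ) :
    Tendsto (fun x : ℂ => ((s⁻¹ : ℝ) : ℂ) * x) (𝓝[dil D s] z) (𝓝[D] (((s⁻¹ : ℝ) : ℂ) * z)) := by
  refine tendsto_nhdsWithin_iff.2 ⟨?_, ?_⟩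
  · have hc : Continuous (fun x : ℂ => ((s⁻¹ : ℝ) : ℂ) * x) := continuous_const.mul continuous_id
    exact (hc.tendsto z).mono_left nhdsWithin_le_nhds
  · exact eventually_nhdsWithin_of_forall fun x hx => hx.2

theorem ball_sub (D : Set ℂ) (s : ℝ) (hs : 0 < s) (z : ℂ) (r : ℝ)
    (h : closedBall z r ⊆ dil D s) : closedBall (((s⁻¹ : ℝ) : ℂ) * z) (s⁻¹ * r) ⊆ D := by
  intro y hy
  have hs' : ((s : ℝ) : ℂ) ≠ 0 := by exact_mod_cast hs.ne'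
  have e1 : ((s⁻¹ : ℝ) : ℂ) * (((s : ℝ) : ℂ) * y) = y := by
    push_cast
    field_simp
  have e2 : (s : ℂ) * y - z = ((s : ℝ) : ℂ) * (y - ((s⁻¹ : ℝ) : ℂ) * z) := by
    push_cast
    field_simp
  have h1 : ((s : ℝ) : ℂ) * y ∈ closedBall z r := by
    rw [mem_closedBall, dist_eq_norm] at hy ⊢
    rw [e2, norm_mul, Complex.norm_real, Real.norm_of_nonneg hs.le]
    calc s * ‖y - ((s⁻¹ : ℝ) : ℂ) * z‖ ≤ s * (s⁻¹ * r) := mul_le_mul_of_nonneg_left hy hs.le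
      _ = r := by
          rw [← mul_assoc, mul_inv_cancel₀ hs.ne', one_mul]
  have h2 := (h h1).2
  rwa [e1] at h2

theorem avg (u : ℂ → ℝ) (s κ : ℝ) (z : ℂ) (r : ℝ) :
    Real.circleAverage (fun x => u (((s⁻¹ : ℝ) : ℂ) * x) / (1 - κ)) z r =
      Real.circleAverage u (((s⁻¹ : ℝ) : ℂ) * z) (s⁻¹ * r) / (1 - κ) := by
  unfold Real.circleAverage
  rw [intervalIntegral.integral_div]
  have e : (fun θ : ℝ => u (((s⁻¹ : ℝ) : ℂ) * circleMap z r θ)) =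
      fun θ : ℝ => u (circleMap (((s⁻¹ : ℝ) : ℂ) * z) (s⁻¹ * r) θ) := by
    funext θ
    congr 1
    unfold circleMap
    push_cast
    ring
  rw [e, smul_eq_mul, smul_eq_mul]
  ring

theorem prf (h1 : H_AN) (h2 : H_DS) : H_DL := by
  intro D ρ s κ u hD hρ hs hsρ hin hκ hκ1 hu hle
  have hs0 : 0 < s := by linarith
  have hk : 0 < 1 - κ := by linarith
  have hinv : 0 < s⁻¹ := inv_pos.2 hs0
  have hinv1 : s⁻¹ < 1 := inv_lt_one_of_one_lt₀ hs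
  have hρs : ρ < s⁻¹ := by
    have h3 : s⁻¹ * (s * ρ) < s⁻¹ * 1 := mul_lt_mul_of_pos_left hsρ hinv
    rwa [← mul_assoc, inv_mul_cancel₀ hs0.ne', one_mul, mul_one] at h3
  have hnorm : ∀ z : ℂ, ‖((s⁻¹ : ℝ) : ℂ) * z‖ = s⁻¹ * ‖z‖ := by
    intro z
    rw [norm_mul, Complex.norm_real, Real.norm_of_nonneg hinv.le]
  obtain ⟨hd, hfr⟩ := h2 D ρ s hD hρ hs hsρ hin
  refine ⟨?_, ?_, ?_, ?_, ?_⟩
  · intro z hz
    exact div_nonneg (hu.nonneg _ hz.2) hk.le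
  · intro z hz y hy
    have hy1 : u (((s⁻¹ : ℝ) : ℂ) * z) < y * (1 - κ) := (div_lt_iff₀ hk).1 hy
    filter_upwards [(tend D s z).eventually (hu.usc _ hz.2 _ hy1)] with x hx
    exact (div_lt_iff₀ hk).2 hx
  · intro z r hr hzr
    rw [avg]
    have h3 := hu.submean _ _ (mul_pos hinv hr) (ball_sub D s hs0 z r hzr)
    exact div_le_div_of_nonneg_right h3 hk.le
  · intro ζ hζ hn ε hε
    have h3 : ((s⁻¹ : ℝ) : ℂ) * ζ ∈ D := by
      refine h1 D ρ hD (hρs.trans hinv1) hin _ ?_ ?_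
      · rw [hnorm, hn, mul_one]
        exact hρs
      · rw [hnorm, hn, mul_one]
        exact hinv1
    have h4 : u (((s⁻¹ : ℝ) : ℂ) * ζ) ≤ 1 - κ := hle _ (by rw [hnorm, hn, mul_one])
    have h5 : u (((s⁻¹ : ℝ) : ℂ) * ζ) < (1 + ε) * (1 - κ) := by nlinarith
    filter_upwards [(tend D s ζ).eventually (hu.usc _ h3 _ h5)] with x hx
    exact (div_lt_iff₀ hk).2 hx
  · intro ζ hζ hn ε hε
    have h3 : ((s⁻¹ : ℝ) : ℂ) * ζ ∈ frontier D := (hfr ζ hn).1 hζ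
    have h4 : ‖((s⁻¹ : ℝ) : ℂ) * ζ‖ < 1 := by
      rw [hnorm]
      nlinarith [norm_nonneg ζ]
    filter_upwards [(tend D s ζ).eventually (hu.inner _ h3 h4 (ε * (1 - κ)) (mul_pos hε hk))]
      with x hx
    exact (div_lt_iff₀ hk).2 hx

end MPf68f16.Hall.DL
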