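import Pool.Agent.Work.MP_f68f16_an.Hall.Stmts2

/-!
Item DS (helper59): the dilated domain.
-/

set_option autoImplicit false

open MeasureTheory Metric Set Filter Topology

namespace MPf68f16.Hall.DS

open MPf68f16 MPf68f16.Hall

/-- The radial retraction to the closed disc of radius `r`. -/
noncomputable def ret (r : ℝ) (w : ℂ) : ℂ := ((r / max ‖w‖ r : ℝ) : ℂ) * w

theorem continuous_ret {r : ℝ} (hr : 0 < r) : Continuous (ret r) := by
  have h1 : Continuous fun w : ℂ => max ‖w‖ r := continuous_norm.max continuous_const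
  have h2 : ∀ w : ℂ, max ‖w‖ r ≠ 0 := fun w => (lt_of_lt_of_le hr (le_max_right _ _)).ne'
  have h3 : Continuous fun w : ℂ => r / max ‖w‖ r := continuous_const.div h1 h2
  exact (Complex.continuous_ofReal.comp h3).mul continuous_id

theorem ret_of_le {r : ℝ} (hr : 0 < r) {w : ℂ} (h : ‖w‖ ≤ r) : ret r w = w := by
  unfold ret
  rw [max_eq_right h, div_self hr.ne', Complex.ofReal_one, one_mul]

theorem norm_ret_of_ge {r : ℝ} (hr : 0 < r) {w : ℂ} (h : r ≤ ‖w‖) : ‖ret r w‖ = r := by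
  have h0 : 0 < ‖w‖ := lt_of_lt_of_le hr h
  unfold ret
  rw [max_eq_left h, norm_mul, Complex.norm_real, Real.norm_of_nonneg (div_nonneg hr.le h0.le),
    div_mul_cancel₀ _ h0.ne']

theorem norm_ret_le {r : ℝ} (hr : 0 < r) (w : ℂ) : ‖ret r w‖ ≤ r := by
  rcases le_total ‖w‖ r with h | h
  · rw [ret_of_le hr h]
    exact h
  · exact (norm_ret_of_ge hr h).le

theorem ret_mem (h1 : H_AN) {D : Set ℂ} {ρ r : ℝ} (hD : Dom D) (hI : Inn D ρ) (hr : 0 < r)
    (hρ : ρ < r) (hr1 : r < 1) {w : ℂ} (hw : w ∈ D) : ret r w ∈ D := by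
  rcases le_or_gt ‖w‖ r with h | h
  · rw [ret_of_le hr h]
    exact hw
  · have h2 := norm_ret_of_ge hr h.le
    exact h1 D ρ hD (hρ.trans hr1) hI _ (by rw [h2]; exact hρ) (by rw [h2]; exact hr1)

theorem dil_eq (D : Set ℂ) (s : ℝ) :
    dil D s = ((fun z : ℂ => ((s⁻¹ : ℝ) : ℂ) * z) ⁻¹' D) ∩ ball (0 : ℂ) 1 := by
  ext z
  simp only [dil, mem_setOf_eq, mem_inter_iff, mem_preimage, mem_ball_zero_iff]
  exact and_comm

theorem isOpen_dil {D : Set ℂ} (hD : IsOpen D) (s : ℝ) : IsOpen (dil D s) := by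
  rw [dil_eq]
  exact (hD.preimage (continuous_const.mul continuous_id)).inter isOpen_ball

theorem preconn (h1 : H_AN) {D : Set ℂ} {ρ s : ℝ} (hD : Dom D) (hρ : 0 ≤ ρ) (hs : 1 < s)
    (hsρ : s * ρ < 1) (hI : Inn D ρ) : IsPreconnected (dil D s) := by
  have hs0 : 0 < s := lt_trans one_pos hs
  have hsc : ((s : ℝ) : ℂ) ≠ 0 := by
    exact_mod_cast hs0.ne'
  have hinv : s⁻¹ < 1 := inv_lt_one_of_one_lt₀ hs
  have hρs : ρ < s⁻¹ := by
    rw [← one_div, lt_div_iff₀ hs0]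
    linarith
  have hU : dil D s = ⋃ r : Ioo ρ s⁻¹, (fun w : ℂ => ((s : ℝ) : ℂ) * ret r w) '' D := by
    ext z
    rw [mem_iUnion]
    constructor
    · rintro ⟨hz1, hz2⟩
      have h2 : ‖((s⁻¹ : ℝ) : ℂ) * z‖ < s⁻¹ := by
        rw [norm_mul, Complex.norm_real, Real.norm_of_nonneg (inv_pos.mpr hs0).le]
        have : s⁻¹ * ‖z‖ < s⁻¹ * 1 := mul_lt_mul_of_pos_left hz1 (inv_pos.mpr hs0)
        linarith
      obtain ⟨r, hr1, hr2⟩ := exists_between (max_lt hρs h2)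
      have hr0 : 0 < r := lt_of_le_of_lt hρ (lt_of_le_of_lt (le_max_left _ _) hr1)
      refine ⟨⟨r, lt_of_le_of_lt (le_max_left _ _) hr1, hr2⟩, ((s⁻¹ : ℝ) : ℂ) * z, hz2, ?_⟩
      change ((s : ℝ) : ℂ) * ret r (((s⁻¹ : ℝ) : ℂ) * z) = z
      rw [ret_of_le hr0 (lt_of_le_of_lt (le_max_right _ _) hr1).le, ← mul_assoc,
        ← Complex.ofReal_mul, mul_inv_cancel₀ hs0.ne', Complex.ofReal_one, one_mul]
    · rintro ⟨⟨r, hr1, hr2⟩, w, hw, rfl⟩
      have hr0 : 0 < r := lt_of_le_of_lt hρ hr1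
      refine ⟨?_, ?_⟩
      · change ‖((s : ℝ) : ℂ) * ret r w‖ < 1
        rw [norm_mul, Complex.norm_real, Real.norm_of_nonneg hs0.le]
        have h2 : s * ‖ret r w‖ ≤ s * r := mul_le_mul_of_nonneg_left (norm_ret_le hr0 w) hs0.le
        have h3 : s * r < s * s⁻¹ := mul_lt_mul_of_pos_left hr2 hs0
        rw [mul_inv_cancel₀ hs0.ne'] at h3
        linarith
      · change ((s⁻¹ : ℝ) : ℂ) * (((s : ℝ) : ℂ) * ret r w) ∈ D
        rw [← mul_assoc, ← Complex.ofReal_mul, inv_mul_cancel₀ hs0.ne', Complex.ofReal_one, one_mul]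
        exact ret_mem h1 hD hI hr0 hr1 (hr2.trans hinv) hw
  rw [hU]
  refine isPreconnected_iUnion ⟨0, ?_⟩ ?_
  · rw [mem_iInter]
    intro r
    refine ⟨0, hD.zero_mem, ?_⟩
    change ((s : ℝ) : ℂ) * ret r 0 = 0
    unfold ret
    rw [mul_zero, mul_zero]
  · rintro ⟨r, hr1, hr2⟩
    have hr0 : 0 < r := lt_of_le_of_lt hρ hr1
    exact hD.isPreconnected.image _ (continuous_const.mul (continuous_ret hr0)).continuousOn

theorem prf (h1 : H_AN) : H_DS := by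
  intro D ρ s hD hρ hs hsρ hI
  have hs0 : 0 < s := lt_trans one_pos hs
  have hsc : ((s⁻¹ : ℝ) : ℂ) ≠ 0 := by
    exact_mod_cast (inv_pos.mpr hs0).ne'
  refine ⟨⟨isOpen_dil hD.isOpen s, preconn h1 hD hρ hs hsρ hI, ?_, ?_, ?_⟩, ?_⟩
  · refine ⟨by simp, ?_⟩
    rw [mul_zero]
    exact hD.zero_mem
  · intro z hz
    exact mem_ball_zero_iff.mpr hz.1
  · intro z hz
    have hz1 : ‖z‖ = 1 := mem_sphere_zero_iff_norm.mp hz
    rw [frontier, (isOpen_dil hD.isOpen s).interior_eq]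
    refine ⟨?_, fun h => absurd h.1 (by rw [hz1]; exact lt_irrefl 1)⟩
    have h2 : Tendsto (fun t : ℝ => ((t : ℝ) : ℂ) * z) (𝓝[<] 1) (𝓝 z) := by
      have h3 : Continuous fun t : ℝ => ((t : ℝ) : ℂ) * z :=
        Complex.continuous_ofReal.mul continuous_const
      have h4 := h3.tendsto 1
      rw [Complex.ofReal_one, one_mul] at h4
      exact h4.mono_left nhdsWithin_le_nhds
    refine mem_closure_of_tendsto h2 ?_
    have h5 : ∀ᶠ t : ℝ in 𝓝[<] 1, s * ρ < t := by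
      exact (eventually_gt_nhds hsρ).filter_mono nhdsWithin_le_nhds
    filter_upwards [h5, self_mem_nhdsWithin] with t ht1 ht2
    have ht2' : t < 1 := ht2
    have ht0 : 0 < t := lt_of_le_of_lt (mul_nonneg hs0.le hρ) ht1
    have hn : ‖((t : ℝ) : ℂ) * z‖ = t := by
      rw [norm_mul, Complex.norm_real, Real.norm_of_nonneg ht0.le, hz1, mul_one]
    have hn2 : ‖((s⁻¹ : ℝ) : ℂ) * (((t : ℝ) : ℂ) * z)‖ = s⁻¹ * t := by
      rw [norm_mul, hn, Complex.norm_real, Real.norm_of_nonneg (inv_pos.mpr hs0).le]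
    refine ⟨by rw [hn]; exact ht2', h1 D ρ hD ?_ hI _ ?_ ?_⟩
    · nlinarith
    · rw [hn2, inv_mul_eq_div, lt_div_iff₀ hs0]
      linarith
    · rw [hn2, inv_mul_eq_div, div_lt_one hs0]
      linarith
  · intro ζ hζ
    have hb : ζ ∈ ball (0 : ℂ) 1 := mem_ball_zero_iff.mpr hζ
    have h2 := frontier_inter_open_inter (s := (fun z : ℂ => ((s⁻¹ : ℝ) : ℂ) * z) ⁻¹' D)
      (isOpen_ball (x := (0 : ℂ)) (ε := 1))
    rw [← dil_eq] at h2
    have h3 : frontier ((fun z : ℂ => ((s⁻¹ : ℝ) : ℂ) * z) ⁻¹' D) =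
        (fun z : ℂ => ((s⁻¹ : ℝ) : ℂ) * z) ⁻¹' frontier D := by
      exact ((Homeomorph.mulLeft₀ _ hsc).preimage_frontier D).symm
    rw [h3] at h2
    constructor
    · intro h
      have : ζ ∈ frontier (dil D s) ∩ ball (0 : ℂ) 1 := ⟨h, hb⟩
      rw [h2] at this
      exact this.1
    · intro h
      have : ζ ∈ (fun z : ℂ => ((s⁻¹ : ℝ) : ℂ) * z) ⁻¹' frontier D ∩ ball (0 : ℂ) 1 := ⟨h, hb⟩
      rw [← h2] at this
      exact this.1

end MPf68f16.Hall.DS
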