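import Pool.Agent.Work.MP_f68f16_an.Hall.Stmts2

/-!
# Hall's lemma with the sharp constant: item NA (the supremum is not attained)
-/

set_option autoImplicit false

open MeasureTheory Metric Set Filter Topology

namespace MPf68f16.Hall.NA

open MPf68f16 MPf68f16.Hall

theorem zero_lower (D : Set ℂ) : IsLower D (fun _ => 0) where
  nonneg := fun _ _ => le_rfl
  usc := continuousOn_const.upperSemicontinuousOn
  submean := fun z r _ _ => by rw [Real.circleAverage_const]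
  outer := fun _ _ _ ε hε => Eventually.of_forall fun _ => by linarith
  inner := fun _ _ _ ε hε => Eventually.of_forall fun _ => hε

/-- The basic properties of the constant. -/
theorem cst_props (hU : S_UPPER) (hL : S_LOWER) :
    0 < cst ∧ ∀ D, Admissible D → omega D ≤ cst := by
  obtain ⟨D0, hD0, hD0'⟩ := hL
  have hb : BddAbove {t : ℝ | ∃ D : Set ℂ, Admissible D ∧ omega D = t} :=
    ⟨0.094, by rintro t ⟨D, hD, rfl⟩; exact hU D hD⟩
  have h1 : ∀ D, Admissible D → omega D ≤ cst := fun D hD => le_csSup hb ⟨D, hD, rfl⟩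
  refine ⟨?_, h1⟩
  have := h1 D0 hD0
  linarith

theorem lower_le_one (h1 : S_MAX) (h2 : S_CI) (D : Set ℂ) (hD : Admissible D) (w : ℂ → ℝ)
    (hw : IsLower D w) : w 0 ≤ 1 := by
  have h := h1 D (fun z => w z - 1) hD.isOpen hD.subset ?_ ⟨1, fun z hz => ?_⟩ ?_ ?_ 0 hD.zero_mem
  · linarith
  · have := hw.usc
    exact this.add continuousOn_const.upperSemicontinuousOn
  · have := hw.nonneg z hz
    linarith
  · intro z r hr hzr
    have hci := h2 D w hw.usc hw.nonneg z r hr hzr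
    rw [Real.circleAverage_fun_sub hci (circleIntegrable_const 1 z r), Real.circleAverage_const]
    have := hw.submean z r hr hzr
    linarith
  · intro ζ hζ ε hε
    have hn : ‖ζ‖ ≤ 1 := by
      have h5 : ζ ∈ closure (ball (0 : ℂ) 1) := closure_mono hD.subset (frontier_subset_closure hζ)
      have h6 := closure_ball_subset_closedBall h5
      simpa using h6
    rcases lt_or_eq_of_le hn with h7 | h7
    · filter_upwards [hw.inner ζ hζ h7 ε hε] with z hz
      linarith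
    · filter_upwards [hw.outer ζ hζ h7 ε hε] with z hz
      linarith

theorem prf (h1 : S_UPPER) (h2 : S_LOWER) (h3 : S_MAX) (h4 : S_CI) (h5 : H_AN) (h6 : H_U1)
    (h7 : H_DS) (h8 : H_DL) : H_NA := by
  intro D ρ hD hρ hI
  obtain ⟨hc0, hle⟩ := cst_props h1 h2
  have hdom := Dom.of_admissible hD
  obtain ⟨ρ0, hρ0⟩ : ∃ ρ0, ρ0 = max ρ 0 := ⟨_, rfl⟩
  have hr0 : 0 ≤ ρ0 := by
    rw [hρ0]
    exact le_max_right _ _
  have hr1 : ρ0 < 1 := by
    rw [hρ0]
    exact max_lt hρ one_pos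
  have hI0 : Inn D ρ0 := by
    intro ζ hζ hζ1
    rw [hρ0]
    exact (hI ζ hζ hζ1).trans (le_max_left _ _)
  have hAN := h5 D ρ0 hdom hr1 hI0
  obtain ⟨s, hs⟩ : ∃ s, s = 2 / (1 + ρ0) := ⟨_, rfl⟩
  have hp : 0 < 1 + ρ0 := by linarith
  have hs1 : 1 < s := by
    rw [hs, lt_div_iff₀ hp]
    linarith
  have hs0 : 0 < s := by linarith
  have hsρ : s * ρ0 < 1 := by
    rw [hs, div_mul_eq_mul_div, div_lt_one hp]
    linarith
  have hsi : s⁻¹ = (1 + ρ0) / 2 := by
    rw [hs, inv_div]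
  have hsi1 : ρ0 < s⁻¹ := by
    rw [hsi]
    linarith
  have hsi2 : s⁻¹ < 1 := by
    rw [hsi]
    linarith
  obtain ⟨κ, hκ0, hκ1, hκ⟩ := h6 D ρ0 s⁻¹ hD hr0 hsi1 hsi2 hI0 (by
    intro z hz
    exact hAN z (by rw [hz]; exact hsi1) (by rw [hz]; exact hsi2))
  obtain ⟨hdd, hfr⟩ := h7 D ρ0 s hdom hr0 hs1 hsρ hI0
  have hadm : Admissible (dil D s) := by
    refine ⟨hdd.isOpen, hdd.isPreconnected, hdd.zero_mem, hdd.subset, hdd.sphere_subset, ?_⟩
    intro θ
    obtain ⟨t, ht0, ht1, htf⟩ := hD.meets θ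
    have htn : ‖(t : ℂ) * Complex.exp (θ * Complex.I)‖ = t := norm_pt θ ht0
    have htρ : t ≤ ρ0 := by
      have := hI0 _ htf (by rw [htn]; exact ht1)
      rwa [htn] at this
    have hst : s * t < 1 := lt_of_le_of_lt (mul_le_mul_of_nonneg_left htρ hs0.le) hsρ
    have hst0 : 0 ≤ s * t := mul_nonneg hs0.le ht0
    refine ⟨s * t, hst0, hst, ?_⟩
    have hn : ‖((s * t : ℝ) : ℂ) * Complex.exp (θ * Complex.I)‖ = s * t := norm_pt θ hst0
    rw [hfr _ (by rw [hn]; exact hst)]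
    have hsc : (s : ℂ) ≠ 0 := by exact_mod_cast hs0.ne'
    have he : ((s⁻¹ : ℝ) : ℂ) * (((s * t : ℝ) : ℂ) * Complex.exp (θ * Complex.I)) =
        (t : ℂ) * Complex.exp (θ * Complex.I) := by
      push_cast
      field_simp
    rw [he]
    exact htf
  have hk : 0 < 1 - κ := by linarith
  have key : ∀ u : ℂ → ℝ, IsLower D u → u 0 ≤ (1 - κ) * cst := by
    intro u hu
    have hl := h8 D ρ0 s κ u hdom hr0 hs1 hsρ hI0 hκ0 hκ1 hu (fun z hz => hκ u hu z hz)
    have h9 : u 0 / (1 - κ) ≤ omega (dil D s) := by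
      refine le_csSup ⟨1, ?_⟩ ⟨_, hl, ?_⟩
      · rintro t ⟨w, hw, rfl⟩
        exact lower_le_one h3 h4 _ hadm w hw
      · show u (((s⁻¹ : ℝ) : ℂ) * 0) / (1 - κ) = u 0 / (1 - κ)
        rw [mul_zero]
    have h10 := h9.trans (hle _ hadm)
    rw [div_le_iff₀ hk] at h10
    linarith
  have h11 : omega D ≤ (1 - κ) * cst := by
    refine csSup_le ⟨_, _, zero_lower D, rfl⟩ ?_
    rintro t ⟨u, hu, rfl⟩
    exact key u hu
  have h12 : 0 < κ * cst := mul_pos hκ0 hc0
  linarith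

end MPf68f16.Hall.NA
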