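import Pool.Agent.Work.MP_f68f16_an.Hall.Stmts2

/-!
# Item U1: lower functions are uniformly smaller than one on a circle
-/

set_option autoImplicit false

open MeasureTheory Metric Set Filter Topology

namespace MPf68f16.Hall.U1

open MPf68f16 MPf68f16.Hall

theorem K0_ge : (1 : ℝ) ≤ K0 := by unfold K0; norm_num

/-- The comparison with the potential, at any point of `D`. -/
theorem upper_at (h1 : S_POT1) (h2 : S_POT2) (h3 : S_POT3) (h4 : S_POT4) (hCI : S_CI)
    (hMAX : S_MAX) {H : ℝ → ℝ} (hH : Maj H K0) {D : Set ℂ} (hD : Admissible D) {r : ℝ → ℝ}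
    (hr : Sel D r) {ρ : ℝ} (hρ : ρ < 1) {u : ℂ → ℝ} (hu : IsLower D u) :
    ∀ z ∈ D, u z ≤ 1 - pot r ρ z / K0 := by
  have hK := K0_ge
  have hK' : (0 : ℝ) < K0 := by linarith
  have hpc : ContinuousOn (pot r ρ) D := h1 D r ρ hD hr hρ
  have hpk : ∀ z ∈ D, 0 ≤ pot r ρ z ∧ pot r ρ z ≤ K0 := fun z hz =>
    h4 H K0 hH hK r hr.meas hr.pos hr.lt_one ρ z (by simpa using hD.subset hz)
  intro z₀ hz₀
  have hw := hMAX D (fun z => u z + (pot r ρ z / K0 - 1)) hD.isOpen hD.subset ?_ ?_ ?_ ?_ z₀ hz₀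
  · linarith
  · refine hu.usc.add ?_
    exact ((hpc.div_const K0).sub continuousOn_const).upperSemicontinuousOn
  · refine ⟨1, fun z hz => ?_⟩
    have h := hu.nonneg z hz
    have h' : 0 ≤ pot r ρ z / K0 := div_nonneg (hpk z hz).1 hK'.le
    linarith
  · intro z s hs hzs
    have hci : CircleIntegrable u z s := hCI D u hu.usc hu.nonneg z s hs hzs
    have hsph : sphere z |s| ⊆ D := by
      rw [abs_of_pos hs]
      exact sphere_subset_closedBall.trans hzs
    have hc1 : ContinuousOn (fun z => pot r ρ z / K0 - 1) (sphere z |s|) :=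
      ((hpc.div_const K0).sub continuousOn_const).mono hsph
    have hci2 : CircleIntegrable (fun z => pot r ρ z / K0 - 1) z s := hc1.circleIntegrable'
    have hci3 : CircleIntegrable (pot r ρ) z s := (hpc.mono hsph).circleIntegrable'
    have e1 : Real.circleAverage (fun z => u z + (pot r ρ z / K0 - 1)) z s =
        Real.circleAverage u z s + Real.circleAverage (fun z => pot r ρ z / K0 - 1) z s :=
      Real.circleAverage_fun_add hci hci2
    have e2 : Real.circleAverage (fun z => pot r ρ z / K0 - 1) z s = pot r ρ z / K0 - 1 := by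
      have e3 : (fun z => pot r ρ z / K0 - 1) = fun z => K0⁻¹ • pot r ρ z - 1 := by
        funext z
        rw [smul_eq_mul, div_eq_inv_mul]
      have hci4 : CircleIntegrable (fun z => K0⁻¹ • pot r ρ z) z s := hci3.const_smul
      rw [e3, Real.circleAverage_fun_sub hci4 (circleIntegrable_const _ _ _),
        Real.circleAverage_fun_smul, Real.circleAverage_const, h2 D r ρ hD hr hρ z s hs hzs,
        smul_eq_mul, div_eq_inv_mul]
    rw [e1, e2]
    have := hu.submean z s hs hzs
    linarith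
  · intro ζ hζ ε hε
    have hζ1 : ‖ζ‖ ≤ 1 := by
      have : ζ ∈ closedBall (0 : ℂ) 1 := by
        have h := frontier_subset_closure hζ
        have h' := closure_mono hD.subset h
        exact closure_ball_subset_closedBall h'
      simpa using this
    rcases hζ1.lt_or_eq with hlt | heq
    · filter_upwards [hu.inner ζ hζ hlt ε hε, self_mem_nhdsWithin] with z hz hzD
      have h' : pot r ρ z / K0 ≤ 1 := (div_le_one hK').2 (hpk z hzD).2
      linarith
    · obtain ⟨s, hs, hs'⟩ := h3 r hr.meas hr.pos hr.lt_one ρ (ε / 2) hρ (by linarith)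
      have hev : ∀ᶠ z in 𝓝[D] ζ, s < ‖z‖ := by
        refine (eventually_nhdsWithin_of_eventually_nhds ?_)
        exact (continuous_norm.tendsto ζ).eventually (lt_mem_nhds (by rw [heq]; exact hs))
      filter_upwards [hu.outer ζ hζ heq (ε / 2) (by linarith), self_mem_nhdsWithin, hev] with z hz
        hzD hzs
      have hz1 : ‖z‖ < 1 := by simpa using hD.subset hzD
      have h' := hs' z hzs hz1
      have h'' : pot r ρ z / K0 ≤ pot r ρ z := div_le_self (hpk z hzD).1 hK
      linarith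

/-- The Green function is positive. -/
theorem gD_pos {z a : ℂ} (hz : ‖z‖ < 1) (ha : ‖a‖ < 1) (hne : z ≠ a) : 0 < gD z a := by
  unfold gD
  have h0 : 0 < ‖z - a‖ := norm_pos_iff.2 (sub_ne_zero.2 hne)
  have h1 : Complex.normSq (1 - (starRingEnd ℂ) a * z) - Complex.normSq (z - a) =
      (1 - Complex.normSq z) * (1 - Complex.normSq a) := by
    simp only [Complex.normSq_apply, Complex.sub_re, Complex.sub_im, Complex.one_re,
      Complex.one_im, Complex.mul_re, Complex.mul_im, Complex.conj_re, Complex.conj_im]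
    ring
  have h2 : Complex.normSq z < 1 := by
    rw [Complex.normSq_eq_norm_sq]
    nlinarith [norm_nonneg z]
  have h3 : Complex.normSq a < 1 := by
    rw [Complex.normSq_eq_norm_sq]
    nlinarith [norm_nonneg a]
  have h4 : Complex.normSq (z - a) < Complex.normSq (1 - (starRingEnd ℂ) a * z) := by
    have : 0 < (1 - Complex.normSq z) * (1 - Complex.normSq a) :=
      mul_pos (by linarith) (by linarith)
    linarith
  rw [Complex.normSq_eq_norm_sq, Complex.normSq_eq_norm_sq] at h4
  have h5 : ‖z - a‖ < ‖1 - (starRingEnd ℂ) a * z‖ := lt_of_pow_lt_pow_left₀ 2 (norm_nonneg _) h4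
  exact Real.log_pos ((one_lt_div h0).2 h5)

/-- The potential is positive. -/
theorem pot_pos (hPER : S_PER) {H : ℝ → ℝ} (hH : Maj H K0) {D : Set ℂ} (hD : Admissible D)
    {r : ℝ → ℝ} (hr : Sel D r) {ρ : ℝ} (hle : ∀ θ, r θ ≤ ρ) : ∀ z ∈ D, 0 < pot r ρ z := by
  intro z hz
  have hz1 : ‖z‖ < 1 := by simpa using hD.subset hz
  have hne : ∀ θ, z ≠ pt (r θ) θ := by
    intro θ h
    have h1 := hr.mem θ
    rw [← h, hD.isOpen.frontier_eq] at h1
    exact h1.2 hz
  have hg : ∀ θ, 0 < gD z (pt (r θ) θ) := fun θ =>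
    gD_pos hz1 (by rw [norm_pt θ (hr.pos θ).le]; exact hr.lt_one θ) (hne θ)
  have hl : ∀ θ, 0 < Real.log (1 / r θ) := fun θ =>
    Real.log_pos ((one_lt_div (hr.pos θ)).2 (hr.lt_one θ))
  have hf : ∀ θ, 0 < gD z (pt (r θ) θ) / Real.log (1 / r θ) := fun θ => div_pos (hg θ) (hl θ)
  have hpt : Measurable fun θ => pt (r θ) θ := by
    have := continuous_pt.measurable.comp (hr.meas.prodMk measurable_id)
    exact this
  have hgm : Measurable fun θ => gD z (pt (r θ) θ) := by
    have hc : Measurable fun a : ℂ => gD z a := by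
      unfold gD
      refine Real.measurable_log.comp (Measurable.div ?_ ?_)
      · exact (measurable_const.sub
          (Complex.continuous_conj.measurable.mul_const z)).norm
      · exact (measurable_const.sub measurable_id).norm
    exact hc.comp hpt
  have hm : Measurable fun θ => gD z (pt (r θ) θ) / Real.log (1 / r θ) :=
    hgm.div (Real.measurable_log.comp (measurable_const.div hr.meas))
  have hint : IntegrableOn (fun θ => gD z (pt (r θ) θ) / Real.log (1 / r θ))
      (Ioc 0 (2 * Real.pi)) := by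
    refine ⟨hm.aestronglyMeasurable, ?_⟩
    rw [hasFiniteIntegral_iff_ofReal (Filter.Eventually.of_forall fun θ => (hf θ).le)]
    exact (hPER H K0 hH K0_ge z (by simpa using hz1) r hr.meas hr.pos hr.lt_one).trans_lt
      ENNReal.ofReal_lt_top
  have hpos : 0 < ∫ θ in Ioc 0 (2 * Real.pi), gD z (pt (r θ) θ) / Real.log (1 / r θ) := by
    rw [setIntegral_pos_iff_support_of_nonneg_ae (Filter.Eventually.of_forall fun θ => (hf θ).le)
      hint]
    have hs : Function.support (fun θ => gD z (pt (r θ) θ) / Real.log (1 / r θ)) ∩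
        Ioc 0 (2 * Real.pi) = Ioc 0 (2 * Real.pi) := by
      refine inter_eq_right.2 fun θ _ => ?_
      exact (hf θ).ne'
    rw [hs, Real.volume_Ioc, ENNReal.ofReal_pos]
    linarith [Real.two_pi_pos]
  have heq : pot r ρ z = (2 * Real.pi)⁻¹ *
      ∫ θ in Ioc 0 (2 * Real.pi), gD z (pt (r θ) θ) / Real.log (1 / r θ) := by
    unfold pot
    congr 1
    refine integral_congr_ae (Filter.Eventually.of_forall fun θ => ?_)
    exact if_pos (hle θ)
  rw [heq]
  exact mul_pos (inv_pos.2 Real.two_pi_pos) hpos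

theorem prf (h1 : S_N6) (h2 : S_HIT) (_h3 : S_POT0) (h4 : S_POT1) (h5 : S_POT2) (h6 : S_POT3)
    (h7 : S_POT4) (h8 : S_PER) (h9 : S_CI) (h10 : S_MAX) : H_U1 := by
  intro D ρ r1 hD hρ0 hρr hr1 hInn hcirc
  obtain ⟨H, hH⟩ := h1
  obtain ⟨r, hr⟩ := h2 D hD
  have hK' : (0 : ℝ) < K0 := by linarith [K0_ge]
  have hρ1 : ρ < 1 := hρr.trans hr1
  have hle : ∀ θ, r θ ≤ ρ := by
    intro θ
    have h := hInn _ (hr.mem θ) (by rw [norm_pt θ (hr.pos θ).le]; exact hr.lt_one θ)
    rwa [norm_pt θ (hr.pos θ).le] at h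
  have hsub : sphere (0 : ℂ) r1 ⊆ D := fun z hz => hcirc z (by simpa using hz)
  have hne : (sphere (0 : ℂ) r1).Nonempty := by
    refine ⟨(r1 : ℂ), ?_⟩
    rw [mem_sphere_zero_iff_norm, Complex.norm_real, Real.norm_of_nonneg (by linarith)]
  obtain ⟨z₀, hz₀, hmin⟩ := (isCompact_sphere (0 : ℂ) r1).exists_isMinOn hne
    ((h4 D r ρ hD hr hρ1).mono hsub)
  have hκ0 : 0 < pot r ρ z₀ := pot_pos h8 hH hD hr hle z₀ (hsub hz₀)
  refine ⟨min (pot r ρ z₀ / K0) (1 / 2), lt_min (div_pos hκ0 hK') (by norm_num),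
    (min_le_right _ _).trans_lt (by norm_num), fun u hu z hz => ?_⟩
  have hzD : z ∈ D := hcirc z hz
  have e1 := upper_at h4 h5 h6 h7 h9 h10 hH hD hr hρ1 hu z hzD
  have e2 : pot r ρ z₀ ≤ pot r ρ z := hmin (by simpa using hz)
  have e3 : pot r ρ z₀ / K0 ≤ pot r ρ z / K0 := by gcongr
  have e4 := min_le_left (pot r ρ z₀ / K0) (1 / 2)
  linarith

end MPf68f16.Hall.U1
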