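import Pool.Agent.Work.MP_f68f16_an.Hall.All
import Pool.Agent.Work.MP_f68f16_an.Hall.I_AN
import Pool.Agent.Work.MP_f68f16_an.Hall.I_U1
import Pool.Agent.Work.MP_f68f16_an.Hall.I_DS
import Pool.Agent.Work.MP_f68f16_an.Hall.I_DL
import Pool.Agent.Work.MP_f68f16_an.Hall.I_NA

/-! # Hall's lemma with the sharp constant: assembly, part 2 -/

set_option autoImplicit false

open MeasureTheory Metric Set Filter Topology

namespace MPf68f16.Hall

theorem all_U1 : H_U1 :=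
  let per : S_PER := prf_PER prf_P1 prf_POT0
  U1.prf (prf_N6 prf_N1 prf_N3 prf_N4 (prf_N5 prf_N2)) prf_HIT prf_POT0 prf_POT1 prf_POT2 prf_POT3
    (prf_POT4 per prf_POT0) per prf_CI prf_MAX

theorem all_DS : H_DS := DS.prf AN.prf

theorem all_NA : H_NA :=
  NA.prf upper lower prf_MAX prf_CI AN.prf all_U1 all_DS (DL.prf AN.prf all_DS)

theorem isLUB_cst : IsLUB {t : ℝ | ∃ D : Set ℂ, Admissible D ∧ omega D = t} cst := by
  obtain ⟨D0, hD0, -⟩ := lower
  exact isLUB_csSup ⟨_, D0, hD0, rfl⟩ ⟨0.094, by rintro t ⟨D, hD, rfl⟩; exact upper D hD⟩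

end MPf68f16.Hall
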