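import Pool.Agent.Work.MP_f68f16_an.Hall.Stmts

set_option autoImplicit false

open MeasureTheory Metric Set Filter Topology

namespace MPf68f16.Hall.AP

open MPf68f16 MPf68f16.Hall

/-- the property of a set of directions which is proved by compactness -/
def Q (w : ℂ → ℝ) (s : ℝ) (A : Set ℝ) : Prop :=
  ∃ δ₀ : ℝ, 0 < δ₀ ∧ δ₀ < 1 ∧ ∀ δ : ℝ, 0 < δ → δ ≤ δ₀ → ∀ θ ∈ A, ∃ t : ℝ, 0 < t ∧ t < 1 ∧ mol w δ (pt t θ) ≤ s

theorem local_Q (h3 : H_MV) {w : ℂ → ℝ} (hw : Sub w) {s t₀ θ₀ : ℝ} (h0 : 0 < t₀) (h1 : t₀ < 1)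
    (h : w (pt t₀ θ₀) < s) : ∃ η : ℝ, 0 < η ∧ Q w s (ball θ₀ η) := by
  have hmem : pt t₀ θ₀ ∈ ball (0 : ℂ) 1 := pt_mem h0.le h1
  have hev : ∀ᶠ x in 𝓝 (pt t₀ θ₀), w x < s := by
    have h4 := hw.usc _ hmem s h
    rwa [isOpen_ball.nhdsWithin_eq hmem] at h4
  obtain ⟨ρ, hρ, hball⟩ := Metric.eventually_nhds_iff_ball.1 hev
  have hc : Continuous (fun θ : ℝ => pt t₀ θ) := continuous_pt.comp (continuous_const.prodMk continuous_id)
  obtain ⟨η, hη, hη2⟩ := Metric.continuous_iff.1 hc θ₀ (ρ / 2) (by linarith)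
  refine ⟨η, hη, min (1 / 2) (ρ / 4), lt_min (by norm_num) (by linarith),
    lt_of_le_of_lt (min_le_left _ _) (by norm_num), ?_⟩
  intro δ hδ hδ2 θ hθ
  have hd1 : δ ≤ 1 / 2 := hδ2.trans (min_le_left _ _)
  have hd2 : δ ≤ ρ / 4 := hδ2.trans (min_le_right _ _)
  refine ⟨t₀, h0, h1, ?_⟩
  refine (h3 w δ hw hδ (by linarith)).2.2 (pt t₀ θ) s ?_
  intro x hx
  refine (hball x ?_).le
  have hθ2 := hη2 θ hθ
  rw [mem_ball, dist_eq_norm] at hx ⊢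
  rw [dist_eq_norm] at hθ2
  have hn : ‖pt t₀ θ‖ = t₀ := norm_pt θ h0.le
  have h5 : x - pt t₀ θ₀ = (x - ((1 - δ : ℝ) : ℂ) * pt t₀ θ) + (-((δ : ℝ) : ℂ) * pt t₀ θ) +
      (pt t₀ θ - pt t₀ θ₀) := by
    push_cast
    ring
  have h6 : ‖-((δ : ℝ) : ℂ) * pt t₀ θ‖ ≤ δ := by
    rw [norm_mul, norm_neg, Complex.norm_real, Real.norm_of_nonneg hδ.le, hn]
    nlinarith
  rw [h5]
  refine lt_of_le_of_lt (norm_add₃_le) ?_
  linarith

theorem prf (h1 : H_MC) (h2 : H_MM) (h3 : H_MV) (h4 : H_N3) : H_AP := by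
  intro w K ε hw hK hε hneg
  have hQ : Q w (ε / 2) K := by
    refine hK.induction_on (p := Q w (ε / 2)) ?_ ?_ ?_ ?_
    · exact ⟨1 / 2, by norm_num, by norm_num, fun δ _ _ θ hθ => absurd hθ (Set.notMem_empty θ)⟩
    · rintro s t hst ⟨δ₀, a1, a2, a3⟩
      exact ⟨δ₀, a1, a2, fun δ d1 d2 θ hθ => a3 δ d1 d2 θ (hst hθ)⟩
    · rintro s t ⟨δ₀, a1, a2, a3⟩ ⟨δ₁, b1, b2, b3⟩
      refine ⟨min δ₀ δ₁, lt_min a1 b1, lt_of_le_of_lt (min_le_left _ _) a2, ?_⟩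
      rintro δ d1 d2 θ (hθ | hθ)
      · exact a3 δ d1 (d2.trans (min_le_left _ _)) θ hθ
      · exact b3 δ d1 (d2.trans (min_le_right _ _)) θ hθ
    · intro θ hθ
      obtain ⟨t, t0, t1, ht⟩ := hneg θ hθ
      obtain ⟨η, hη, hq⟩ := local_Q h3 hw t0 t1 ht
      exact ⟨ball θ η, mem_nhdsWithin_of_mem_nhds (ball_mem_nhds θ hη), hq⟩
  obtain ⟨δ, hδ0, hδ1, hδ⟩ := hQ
  have hcont : Continuous (mol w δ) := h1 w δ hw.meas
    (fun z => abs_le.2 ⟨by linarith [hw.nonneg z], hw.le_one z⟩) hδ0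
  have hsm : SMV (mol w δ) := h2 w δ hw hδ0 hδ1
  obtain ⟨hm0, hm1, -⟩ := h3 w δ hw hδ0 hδ1
  refine ⟨fun z => mol w δ z - 3 * ε / 4, ?_, ?_, ?_, ?_⟩
  · apply h4
    · exact (hcont.sub continuous_const).continuousOn
    · intro z r hr hsub
      have hci : CircleIntegrable (mol w δ) z r := hcont.continuousOn.circleIntegrable hr.le
      have hcc : CircleIntegrable (fun _ : ℂ => 3 * ε / 4) z r := circleIntegrable_const _ _ _
      rw [Real.circleAverage_fun_sub hci hcc, Real.circleAverage_const]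
      have := hsm z r hr hsub
      linarith
  · intro z _
    have := (hm1 z).2
    show mol w δ z - 3 * ε / 4 ≤ 1
    linarith
  · intro θ hθ
    obtain ⟨t, t0, t1, ht⟩ := hδ δ hδ0 le_rfl θ hθ
    refine ⟨t, t0, t1, ?_⟩
    show mol w δ (pt t θ) - 3 * ε / 4 < 0
    linarith
  · show w 0 - ε ≤ mol w δ 0 - 3 * ε / 4
    linarith

end MPf68f16.Hall.AP
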