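import Pool.Agent.Work.MP_f68f16_an.Hall.Stmts

/-! MP_f68f16_an, Hall's lemma with the sharp constant, item AR: one arc (helper62). -/

set_option autoImplicit false

open MeasureTheory Metric Set Filter Topology

namespace MPf68f16.Hall.AR

open MPf68f16 MPf68f16.Hall

theorem norm_psi (A : ℝ) (n : ℕ) (z : ℂ) : ‖psi A n z‖ = Real.exp (-(n * hA A z)) := by
  unfold psi hA
  rw [Complex.norm_exp]
  congr 1
  rw [neg_mul, Complex.neg_re, ← Complex.ofReal_natCast, Complex.re_ofReal_mul]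

theorem exp_le {x y s : ℝ} (hs : 0 < s) (h : Real.log (1 / s) ≤ x) (hxy : x ≤ y) :
    Real.exp (-y) ≤ s := by
  rw [← Real.le_log_iff_exp_le hs]
  rw [one_div, Real.log_inv] at h
  linarith

theorem ge_nat (c x : ℝ) (hc : 0 < c) : ∃ N : ℕ, ∀ n : ℕ, N ≤ n → x ≤ n * c := by
  obtain ⟨N, hN⟩ := exists_nat_ge (x / c)
  refine ⟨N, fun n hn => ?_⟩
  have h1 : (N : ℝ) ≤ n := by exact_mod_cast hn
  rw [div_le_iff₀ hc] at hN
  nlinarith

theorem cA_tan (x : ℝ) (hx : Real.cos x ≠ 0) : cA (Real.tan x) = Real.cos (2 * x) := by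
  unfold cA
  have h1 : Real.sin x ^ 2 = 1 - Real.cos x ^ 2 := by
    have := Real.sin_sq_add_cos_sq x
    linarith
  have h2 : Real.tan x ^ 2 = (1 - Real.cos x ^ 2) / Real.cos x ^ 2 := by
    rw [Real.tan_eq_sin_div_cos, div_pow, h1]
  have h3 : Real.cos x ^ 2 ≠ 0 := pow_ne_zero _ hx
  have h4 : 1 + Real.tan x ^ 2 = 1 / Real.cos x ^ 2 := by
    rw [h2]
    field_simp
    ring
  have h5 : 1 - Real.tan x ^ 2 = (2 * Real.cos x ^ 2 - 1) / Real.cos x ^ 2 := by
    rw [h2]
    field_simp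
    ring
  rw [h4, h5, Real.cos_two_mul]
  field_simp

theorem kap_pt (α t θ : ℝ) :
    Complex.exp (-((α : ℂ) - Real.pi) * Complex.I) * pt t θ = pt t (θ - α + Real.pi) := by
  unfold pt
  rw [← mul_assoc, mul_comm (Complex.exp _) (t : ℂ), mul_assoc, ← Complex.exp_add]
  congr 2
  push_cast
  ring

theorem norm_kap (α : ℝ) : ‖Complex.exp (-((α : ℂ) - Real.pi) * Complex.I)‖ = 1 := by
  have h : (-((α : ℂ) - Real.pi) * Complex.I) = ((-(α - Real.pi) : ℝ) : ℂ) * Complex.I := by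
    push_cast
    ring
  rw [h, Complex.norm_exp_ofReal_mul_I]

theorem prf (h1 : S_Q1) (h2 : S_FINE) (h3 : S_NADD) (h4 : S_NCOMP) (h5 : S_NRE) : H_AR := by
  intro q u α β ε hq hu hu1 hβ0 hβπ hε
  have h0ball : (0 : ℂ) ∈ ball (0 : ℂ) 1 := mem_ball_self one_pos
  have hpi := Real.pi_pos
  set B : ℝ := 1 - q 0 with hB
  have hB0 : 0 ≤ B := by
    have := hq.le_one 0 h0ball
    linarith
  have hB1 : 0 < B + 1 := by linarith
  -- the larger angle
  obtain ⟨β', hβ1, hβ2, hβ3⟩ : ∃ β' : ℝ, β < β' ∧ β' < Real.pi ∧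
      B * ((β' - β) / Real.pi) ≤ ε / 4 := by
    refine ⟨β + min ((Real.pi - β) / 2) (ε * Real.pi / (4 * (B + 1))), ?_, ?_, ?_⟩
    · have : 0 < min ((Real.pi - β) / 2) (ε * Real.pi / (4 * (B + 1))) :=
        lt_min (by linarith) (by positivity)
      linarith
    · have := min_le_left ((Real.pi - β) / 2) (ε * Real.pi / (4 * (B + 1)))
      linarith
    · have h6 := min_le_right ((Real.pi - β) / 2) (ε * Real.pi / (4 * (B + 1)))
      have h7 : β + min ((Real.pi - β) / 2) (ε * Real.pi / (4 * (B + 1))) - β ≤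
          ε * Real.pi / (4 * (B + 1)) := by linarith
      have h8 : (β + min ((Real.pi - β) / 2) (ε * Real.pi / (4 * (B + 1))) - β) / Real.pi ≤
          ε / (4 * (B + 1)) := by
        rw [div_le_iff₀ hpi]
        refine h7.trans (le_of_eq ?_)
        ring
      calc B * ((β + min ((Real.pi - β) / 2) (ε * Real.pi / (4 * (B + 1))) - β) / Real.pi)
          ≤ B * (ε / (4 * (B + 1))) := mul_le_mul_of_nonneg_left h8 hB0
        _ ≤ (B + 1) * (ε / (4 * (B + 1))) := by
            apply mul_le_mul_of_nonneg_right (by linarith) (by positivity)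
        _ = ε / 4 := by
            field_simp
  set x : ℝ := (Real.pi - β') / 2 with hx
  have hx0 : 0 < x := by linarith
  have hxp : x < Real.pi / 2 := by linarith
  have hcx : 0 < Real.cos x := Real.cos_pos_of_mem_Ioo ⟨by linarith, hxp⟩
  set A : ℝ := Real.tan x with hA'
  have hA0 : 0 < A := Real.tan_pos_of_pos_of_lt_pi_div_two hx0 hxp
  have harc : Real.arctan A = x := Real.arctan_tan (by linarith) hxp
  have hcA : cA A = -Real.cos β' := by
    rw [hA', cA_tan x hcx.ne']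
    have h6 : 2 * x = Real.pi - β' := by rw [hx]; ring
    rw [h6, Real.cos_pi_sub]
  obtain ⟨d, hd0, hd⟩ : ∃ d : ℝ, 0 < d ∧ cA A - d = -Real.cos β := by
    refine ⟨Real.cos β - Real.cos β', ?_, ?_⟩
    · have := Real.cos_lt_cos_of_nonneg_of_le_pi hβ0.le hβ2.le hβ1
      linarith
    · rw [hcA]
      ring
  obtain ⟨-, hFd, hh, hh0⟩ := h1 A hA0
  have hval0 : hA A 0 = 1 - β' / Real.pi := by
    rw [hh0, harc, hx]
    field_simp
  set κ : ℂ := Complex.exp (-((α : ℂ) - Real.pi) * Complex.I) with hκ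
  have hκn : ‖κ‖ = 1 := norm_kap α
  have hκm : MapsTo (fun z => κ * z) (ball (0 : ℂ) 1) (ball 0 1) := by
    intro z hz
    rw [mem_ball_zero_iff] at hz ⊢
    show ‖κ * z‖ < 1
    rw [norm_mul, hκn, one_mul]
    exact hz
  -- the radius of continuity
  obtain ⟨s, hs0, -, hs⟩ : ∃ s : ℝ, 0 < s ∧ s < 1 ∧ ∀ w : ℂ, ‖w‖ ≤ s → |q w - q 0| ≤ ε / 4 := by
    have hc : ContinuousAt q 0 := hq.nice.1.continuousAt (isOpen_ball.mem_nhds h0ball)
    obtain ⟨δ, hδ, hδ'⟩ := Metric.continuousAt_iff.1 hc (ε / 4) (by positivity)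
    refine ⟨min (δ / 2) (1 / 2), lt_min (by positivity) (by norm_num),
      (min_le_right _ _).trans_lt (by norm_num), fun w hw => ?_⟩
    have h6 : dist w 0 < δ := by
      rw [dist_zero_right]
      exact (hw.trans (min_le_left _ _)).trans_lt (by linarith)
    have := hδ' h6
    rw [Real.dist_eq] at this
    exact this.le
  set δ' : ℝ := ε / (4 * (B + 1)) with hδ'
  have hδ0 : 0 < δ' := by positivity
  have hBδ : B * δ' ≤ ε / 4 := by
    calc B * δ' ≤ (B + 1) * δ' := mul_le_mul_of_nonneg_right (by linarith) hδ0.le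
      _ = ε / 4 := by
          rw [hδ']
          field_simp
  obtain ⟨N1, hN1⟩ := ge_nat δ' (Real.log (1 / s)) hδ0
  obtain ⟨N2, hN2⟩ := ge_nat (hA A 0) (Real.log (1 / s)) (hh 0 h0ball).1
  obtain ⟨N3, hN3⟩ := h2 A d hA0 hd0 q hq.nice.1 hq.neg B hB0
  set n := max 1 (max N1 (max N2 N3)) with hn
  have hn1 : 1 ≤ n := le_max_left _ _
  have hnN1 : N1 ≤ n := (le_max_left _ _).trans (le_max_right _ _)
  have hnN2 : N2 ≤ n := ((le_max_left _ _).trans (le_max_right _ _)).trans (le_max_right _ _)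
  have hnN3 : N3 ≤ n := ((le_max_right _ _).trans (le_max_right _ _)).trans (le_max_right _ _)
  have hn0 : (0 : ℝ) < n := by exact_mod_cast hn1
  have hpsi : MapsTo (psi A n) (ball 0 1) (ball 0 1) := by
    intro z hz
    rw [mem_ball_zero_iff, norm_psi, Real.exp_lt_one_iff]
    have := mul_pos hn0 (hh z hz).1
    linarith
  have hpsid : DifferentiableOn ℂ (psi A n) (ball 0 1) := by
    unfold psi
    exact (hFd.const_mul _).cexp
  have hκd : DifferentiableOn ℂ (fun z => κ * z) (ball 0 1) :=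
    (differentiableOn_id).const_mul κ
  have hpk : DifferentiableOn ℂ (fun z => psi A n (κ * z)) (ball 0 1) :=
    hpsid.comp hκd hκm
  have hpkm : MapsTo (fun z => psi A n (κ * z)) (ball 0 1) (ball 0 1) :=
    hpsi.comp hκm
  have hfd : DifferentiableOn ℂ (fun z => (B : ℂ) * FA A (κ * z) - ((1 + ε / 4 : ℝ) : ℂ))
      (ball 0 1) := ((hFd.comp hκd hκm).const_mul _).sub_const _
  set v : ℂ → ℝ := fun z => 1 * (1 * u z + 1 * q (psi A n (κ * z))) +
    1 * ((B : ℂ) * FA A (κ * z) - ((1 + ε / 4 : ℝ) : ℂ)).re with hv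
  have hvn : Nice v := h3 _ _
    (h3 _ _ hu (h4 q (fun z => psi A n (κ * z)) hq.nice hpk hpkm) 1 1 zero_le_one zero_le_one)
    (h5 _ hfd) 1 1 zero_le_one zero_le_one
  have hve : ∀ z, v z = u z + q (psi A n (κ * z)) - q 0 - B * (1 - hA A (κ * z)) - ε / 4 := by
    intro z
    simp only [hv, hA]
    rw [Complex.sub_re, Complex.re_ofReal_mul, Complex.ofReal_re, hB]
    ring
  refine ⟨v, hvn, ?_, ?_, ?_⟩
  · intro z hz
    have hz' := hκm hz
    have hh' := hh _ hz'
    rw [hve]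
    show u z + q (psi A n (κ * z)) - q 0 - B * (1 - hA A (κ * z)) - ε / 4 ≤ u z
    have e1 : 0 ≤ B * (1 - hA A (κ * z)) := mul_nonneg hB0 (by linarith [hh'.2])
    rcases le_total δ' (hA A (κ * z)) with hc | hc
    · have e2 : ‖psi A n (κ * z)‖ ≤ s := by
        rw [norm_psi]
        exact exp_le hs0 (hN1 n hnN1) (mul_le_mul_of_nonneg_left hc hn0.le)
      have e3 := (abs_le.1 (hs _ e2)).2
      linarith
    · have e2 := hq.le_one _ (hpsi hz')
      have e3 : B * hA A (κ * z) ≤ ε / 4 := (mul_le_mul_of_nonneg_left hc hB0).trans hBδ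
      have e4 : q (psi A n (κ * z)) ≤ 1 := e2
      have e5 : B * (1 - hA A (κ * z)) = B - B * hA A (κ * z) := by ring
      rw [e5]
      linarith
  · intro θ hθ
    have hθ' : |θ - α| ≤ β := hθ
    have hcos : Real.cos (θ - α + Real.pi) ≤ cA A - d := by
      rw [hd, Real.cos_add_pi]
      have e1 : Real.cos β ≤ Real.cos |θ - α| :=
        Real.cos_le_cos_of_nonneg_of_le_pi (abs_nonneg _) hβπ.le hθ'
      rw [Real.cos_abs] at e1
      linarith
    obtain ⟨r, hr0, hr1, hr⟩ := hN3 n hnN3 _ hcos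
    refine ⟨r, hr0, hr1, ?_⟩
    rw [hve, hκ, kap_pt]
    have e1 := hu1 _ (pt_mem (θ := θ) hr0.le hr1)
    have e5 : B * (1 - hA A (pt r (θ - α + Real.pi))) =
        B - B * hA A (pt r (θ - α + Real.pi)) := by ring
    rw [e5]
    linarith
  · rw [hve, mul_zero, hval0]
    have e1 : ‖psi A n 0‖ ≤ s := by
      rw [norm_psi]
      exact exp_le hs0 (hN2 n hnN2) le_rfl
    have e2 := (abs_le.1 (hs _ e1)).1
    have e3 : B * (1 - (1 - β' / Real.pi)) = B * (β / Real.pi) + B * ((β' - β) / Real.pi) := by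
      ring
    rw [e3]
    linarith

end MPf68f16.Hall.AR
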