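import Pool.Agent.Work.MP_f68f16_an.Hall.Stmts

/-!
# Hall's lemma, item CP: competitors from admissible domains
-/

set_option autoImplicit false

open MeasureTheory Metric Set Filter Topology

namespace MPf68f16.Hall.CP

open MPf68f16 MPf68f16.Hall

theorem prf (h1 : H_EX) (h2 : H_AP) : H_CP := by
  intro D u ε hD hu hε
  obtain ⟨w, hw, hw0, hwf⟩ := h1 D u (Dom.of_admissible hD) hu
  have key : ∀ θ : ℝ, ∃ t : ℝ, 0 < t ∧ t < 1 ∧ w (pt t θ) < ε / 2 := by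
    intro θ
    obtain ⟨t, ht0, ht1, ht⟩ := hD.meets θ
    refine ⟨t, lt_of_le_of_ne ht0 ?_, ht1, ?_⟩
    · rintro rfl
      rw [Complex.ofReal_zero, zero_mul, hD.isOpen.frontier_eq] at ht
      exact ht.2 hD.zero_mem
    · rw [show pt t θ = (t : ℂ) * Complex.exp (θ * Complex.I) from rfl, hwf _ ht]
      linarith
  obtain ⟨q, hq1, hq2, hq3, hq4⟩ :=
    h2 w (Icc 0 (2 * Real.pi)) ε hw isCompact_Icc hε (fun θ _ => key θ)
  refine ⟨q, ⟨hq1, hq2, fun θ => ?_⟩, by rw [← hw0]; exact hq4⟩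
  obtain ⟨k, hk⟩ := exists_shift θ
  obtain ⟨t, ht0, ht1, ht⟩ := hq3 _ hk
  exact ⟨t, ht0, ht1, by rwa [pt_per] at ht⟩

end MPf68f16.Hall.CP
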