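import Pool.Agent.Work.MP_f68f16_an.Hall.Stmts

/-! MP_f68f16_an, Hall, item DK (helper15): choice of finitely many arcs. -/

set_option autoImplicit false

open MeasureTheory Metric Set Filter Topology

namespace MPf68f16.Hall.DK

open MPf68f16 MPf68f16.Hall

/-- pairwise different points in finitely many intervals -/
theorem exists_inj_choice (m : ℕ) (t e : Fin m → ℝ) (he : ∀ i, 0 < e i) :
    ∃ r : Fin m → ℝ, Function.Injective r ∧ ∀ i, |r i - t i| ≤ e i := by
  have h1 : ∀ i : Fin m, ∀ᶠ η : ℝ in 𝓝[>] 0, η * ((i : ℕ) + 1) < e i := by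
    intro i
    have h2 : Tendsto (fun η : ℝ => η * ((i : ℕ) + 1)) (𝓝[>] 0) (𝓝 (0 * ((i : ℕ) + 1))) :=
      ((continuous_id.mul continuous_const).tendsto 0).mono_left nhdsWithin_le_nhds
    rw [zero_mul] at h2
    exact h2.eventually (gt_mem_nhds (he i))
  have h2 : ∀ b : ℝ, ∀ᶠ η : ℝ in 𝓝[>] 0, η ≠ b := by
    intro b
    by_cases hb : b = 0
    · subst hb
      filter_upwards [self_mem_nhdsWithin] with η hη
      exact (ne_of_gt hη)
    · exact (tendsto_id.mono_left nhdsWithin_le_nhds).eventually_ne (Ne.symm hb)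
  have h3 : ∀ᶠ η : ℝ in 𝓝[>] 0, (∀ i : Fin m, η * ((i : ℕ) + 1) < e i) ∧
      (∀ i j : Fin m, η ≠ (t i - t j) / ((j : ℕ) - (i : ℕ))) ∧ 0 < η := by
    refine (eventually_all.2 h1).and (Eventually.and ?_ self_mem_nhdsWithin)
    exact eventually_all.2 fun i => eventually_all.2 fun j => h2 _
  obtain ⟨η, hη1, hη2, hη0⟩ := h3.exists
  refine ⟨fun i => t i + η * ((i : ℕ) + 1), fun i j hij => ?_, fun i => ?_⟩
  · by_contra hne
    have h4 : ((j : ℕ) : ℝ) - (i : ℕ) ≠ 0 := by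
      rw [sub_ne_zero]
      intro h
      exact hne (Fin.ext (by exact_mod_cast h.symm))
    refine hη2 i j ?_
    rw [eq_div_iff h4]
    simp only at hij
    linarith
  · rw [add_sub_cancel_left, abs_of_nonneg (by positivity)]
    exact (hη1 i).le

theorem prf : H_DK := by
  intro u K hu hK hneg
  have hW : IsOpen ({p : ℝ × ℝ | 0 < p.1 ∧ p.1 < 1} ∩
      (fun p : ℝ × ℝ => u (pt p.1 p.2)) ⁻¹' Iio 0) := by
    refine ContinuousOn.isOpen_inter_preimage ?_ ?_ isOpen_Iio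
    · exact hu.comp continuous_pt.continuousOn fun p hp => pt_mem hp.1.le hp.2
    · exact (isOpen_lt continuous_const continuous_fst).inter
        (isOpen_lt continuous_fst continuous_const)
  have hloc : ∀ θ : ℝ, ∃ t e : ℝ, 0 < e ∧ e ≤ 1 ∧ (θ ∈ K → ∀ t' θ' : ℝ, |t' - t| ≤ e →
      |θ' - θ| ≤ e → 0 < t' ∧ t' < 1 ∧ u (pt t' θ') < 0) := by
    intro θ
    by_cases hθ : θ ∈ K
    · obtain ⟨t, h0, h1, h2⟩ := hneg θ hθ
      obtain ⟨ε, hε, hsub⟩ := Metric.isOpen_iff.1 hW (t, θ) ⟨⟨h0, h1⟩, h2⟩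
      refine ⟨t, min (ε / 2) 1, by positivity, min_le_right _ _, fun _ t' θ' ht' hθ' => ?_⟩
      have h3 : (t', θ') ∈ ball (t, θ) ε := by
        rw [mem_ball, Prod.dist_eq, max_lt_iff, Real.dist_eq, Real.dist_eq]
        have := min_le_left (ε / 2) 1
        exact ⟨by linarith, by linarith⟩
      obtain ⟨h4, h5⟩ := hsub h3
      exact ⟨h4.1, h4.2, h5⟩
    · exact ⟨0, 1, one_pos, le_rfl, fun h => absurd h hθ⟩
  choose t e he0 he1 hte using hloc
  obtain ⟨s, hsK, hs⟩ := hK.elim_nhds_subcover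
    (fun θ => Ioo (θ - e θ) (θ + e θ))
    (fun θ _ => Ioo_mem_nhds (by linarith [he0 θ]) (by linarith [he0 θ]))
  obtain ⟨r, hr1, hr2⟩ := exists_inj_choice s.card (fun i => t (s.equivFin.symm i))
    (fun i => e (s.equivFin.symm i)) (fun i => he0 _)
  have hmem : ∀ i, ((s.equivFin.symm i : s) : ℝ) ∈ K := fun i => hsK _ (s.equivFin.symm i).2
  refine ⟨s.card, r, fun i => s.equivFin.symm i, fun i => e (s.equivFin.symm i), hr1, ?_, ?_,
    fun i => he0 _, fun i => he1 _, fun i θ hθ => ?_, fun θ hθ => ?_⟩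
  · exact fun i => (hte _ (hmem i) (r i) _ (hr2 i) (by rw [sub_self, abs_zero]; exact (he0 _).le)).1
  · exact fun i =>
      (hte _ (hmem i) (r i) _ (hr2 i) (by rw [sub_self, abs_zero]; exact (he0 _).le)).2.1
  · exact (hte _ (hmem i) (r i) θ (hr2 i) hθ).2.2
  · obtain ⟨x, hx, hx2⟩ := mem_iUnion₂.1 (hs hθ)
    refine ⟨s.equivFin ⟨x, hx⟩, ?_⟩
    simp only [Equiv.symm_apply_apply]
    rw [abs_le]
    constructor
    · have := hx2.1
      linarith
    · have := hx2.2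
      linarith

end MPf68f16.Hall.DK
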