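import Pool.Agent.Work.MP_f68f16_an.Hall.Stmts

/-!
# Item DM: the domain of a competitor (after `prf_DOM` in `Bd/B05.lean`)
-/

set_option autoImplicit false

open MeasureTheory Metric Set Filter Topology

namespace MPf68f16.Hall.DM

open MPf68f16 MPf68f16.Hall

theorem lower_le_one (h1 : S_MAX) (h2 : S_CI) (D : Set ℂ) (hD : Dom D) (w : ℂ → ℝ)
    (hw : IsLower D w) : w 0 ≤ 1 := by
  have h := h1 D (fun z => w z - 1) hD.isOpen hD.subset ?_ ⟨1, fun z hz => ?_⟩ ?_ ?_ 0 hD.zero_mem
  · linarith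
  · have := hw.usc
    exact this.add continuousOn_const.upperSemicontinuousOn
  · have := hw.nonneg z hz
    linarith
  · intro z r hr hzr
    have hci := h2 D w hw.usc hw.nonneg z r hr hzr
    rw [Real.circleAverage_fun_sub hci (circleIntegrable_const 1 z r), Real.circleAverage_const]
    have := hw.submean z r hr hzr
    linarith
  · intro ζ hζ ε hε
    have hn : ‖ζ‖ ≤ 1 := by
      have h5 : ζ ∈ closure (ball (0 : ℂ) 1) := closure_mono hD.subset (frontier_subset_closure hζ)
      have h6 := closure_ball_subset_closedBall h5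
      simpa using h6
    rcases lt_or_eq_of_le hn with h7 | h7
    · filter_upwards [hw.inner ζ hζ h7 ε hε] with z hz
      linarith
    · filter_upwards [hw.outer ζ hζ h7 ε hε] with z hz
      linarith

theorem prf (h1 : S_MAX) (h2 : S_CI) (h3 : S_D1) (h4 : H_DK) : H_DM := by
  intro u K hK hu hle hK0 hu0
  obtain ⟨m, r, α, δ, hinj, hr0, hr1, hδ0, hδ1, hneg, hcov⟩ := h4 u K hu.1 hK hK0
  obtain ⟨hE1, hE2, hE3⟩ := h3 m r α δ hinj hr0 hr1 hδ0 hδ1
  set E : Set ℂ := {z | ∃ i θ, |θ - α i| ≤ δ i ∧ z = pt (r i) θ} with hE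
  have hEneg : ∀ z ∈ E, u z < 0 := by
    rintro z ⟨i, θ, h, rfl⟩
    exact hneg i θ h
  have hadm : Dom (ball (0 : ℂ) 1 \ E) := by
    refine ⟨isOpen_ball.sdiff hE1, hE2, ⟨mem_ball_self one_pos, ?_⟩, sdiff_subset, ?_⟩
    · intro h0
      exact absurd (hEneg 0 h0) (not_lt.2 hu0.le)
    · rw [hE3]
      exact subset_union_left
  refine ⟨ball (0 : ℂ) 1 \ E, hadm, ⟨m, r, α, δ, hinj, hr0, hr1, hδ0, hδ1, rfl⟩, ?_, ?_⟩
  · intro θ hθ
    obtain ⟨i, hik⟩ := hcov θ hθ
    refine ⟨r i, (hr0 i).le, hr1 i, ?_⟩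
    rw [hE3]
    exact Or.inr ⟨i, θ, hik, rfl⟩
  unfold omega
  refine le_csSup ⟨1, ?_⟩ ⟨fun z => max (u z) 0, ?_, max_eq_left hu0.le⟩
  · rintro t ⟨w, hw, rfl⟩
    exact lower_le_one h1 h2 _ hadm w hw
  · have hvc : ContinuousOn (fun z => max (u z) 0) (ball 0 1) :=
      hu.1.sup continuousOn_const
    refine ⟨fun z _ => le_max_right _ _, (hvc.mono sdiff_subset).upperSemicontinuousOn, ?_, ?_, ?_⟩
    · intro z s hs hzs
      have hzs' : closedBall z s ⊆ ball 0 1 := hzs.trans sdiff_subset
      have hu1 := hu.2 id differentiableOn_id (fun z hz => hz) z s hs hzs'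
      have hci : CircleIntegrable (fun w => u (id w)) z s :=
        (hu.1.mono (sphere_subset_closedBall.trans hzs')).circleIntegrable hs.le
      have hci2 : CircleIntegrable (fun z => max (u z) 0) z s :=
        (hvc.mono (sphere_subset_closedBall.trans hzs')).circleIntegrable hs.le
      refine max_le (hu1.trans ?_) ?_
      · exact Real.circleAverage_mono hci hci2 fun x _ => le_max_left _ _
      · exact Real.circleAverage_nonneg_of_nonneg fun x _ => le_max_right _ _
    · intro ζ _ _ ε hε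
      filter_upwards [self_mem_nhdsWithin] with z hz
      have h5 := hle z hz.1
      have h6 : max (u z) 0 ≤ 1 := max_le h5 zero_le_one
      linarith
    · intro ζ hζ hζ1 ε hε
      rw [hE3] at hζ
      rcases hζ with h5 | h5
      · rw [mem_sphere_zero_iff_norm] at h5
        linarith
      · have h6 : u ζ < 0 := hEneg ζ h5
        have h7 : ContinuousAt u ζ :=
          hu.1.continuousAt (isOpen_ball.mem_nhds (by simpa using hζ1))
        have h8 : ∀ᶠ z in 𝓝 ζ, u z < 0 := h7.eventually_lt continuousAt_const h6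
        filter_upwards [mem_nhdsWithin_of_mem_nhds h8] with z hz
        rw [max_eq_right (le_of_lt hz)]
        exact hε

end MPf68f16.Hall.DM
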