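import Pool.Agent.Work.MP_f68f16_an.Hall.Stmts

/-!
# Hall's lemma with the sharp constant, item EX: extension by `0` (helper17)
-/

set_option autoImplicit false

open MeasureTheory Metric Set Filter Topology

namespace MPf68f16.Hall.EX

open MPf68f16 MPf68f16.Hall

/-- functions of the lower class are at most `1` (as `IDOM.lower_le_one`) -/
theorem lower_le_one (h1 : S_MAX) (h2 : S_CI) (D : Set ℂ) (hD : Dom D) (w : ℂ → ℝ)
    (hw : IsLower D w) (z₀ : ℂ) (hz₀ : z₀ ∈ D) : w z₀ ≤ 1 := by
  have h := h1 D (fun z => w z - 1) hD.isOpen hD.subset ?_ ⟨1, fun z hz => ?_⟩ ?_ ?_ z₀ hz₀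
  · linarith
  · have := hw.usc
    exact this.add continuousOn_const.upperSemicontinuousOn
  · have := hw.nonneg z hz
    linarith
  · intro z r hr hzr
    have hci := h2 D w hw.usc hw.nonneg z r hr hzr
    rw [Real.circleAverage_fun_sub hci (circleIntegrable_const 1 z r), Real.circleAverage_const]
    have := hw.submean z r hr hzr
    linarith
  · intro ζ hζ ε hε
    have hn : ‖ζ‖ ≤ 1 := by
      have h5 : ζ ∈ closure (ball (0 : ℂ) 1) := closure_mono hD.subset (frontier_subset_closure hζ)
      have h6 := closure_ball_subset_closedBall h5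
      simpa using h6
    rcases lt_or_eq_of_le hn with h7 | h7
    · filter_upwards [hw.inner ζ hζ h7 ε hε] with z hz
      linarith
    · filter_upwards [hw.outer ζ hζ h7 ε hε] with z hz
      linarith

/-- bounded measurable functions are integrable on circles -/
theorem ci_of_bdd {w : ℂ → ℝ} (hm : Measurable w) (h0 : ∀ z, 0 ≤ w z) (h1 : ∀ z, w z ≤ 1) (y : ℂ)
    (r : ℝ) : CircleIntegrable w y r := by
  unfold CircleIntegrable
  refine IntervalIntegrable.mono_fun' (g := fun _ => (1 : ℝ)) intervalIntegrable_const ?_ ?_
  · exact (hm.comp (continuous_circleMap y r).measurable).aestronglyMeasurable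
  · refine Eventually.of_forall fun θ => ?_
    dsimp only
    rw [Real.norm_of_nonneg (h0 _)]
    exact h1 _

theorem prf (h1 : S_MAX) (h2 : S_CI) (h3 : H_GL) : H_EX := by
  intro D u hD hu
  have hle := lower_le_one h1 h2 D hD u hu
  set w : ℂ → ℝ := D.indicator u with hw
  have hin : ∀ z ∈ D, w z = u z := fun z hz => Set.indicator_of_mem hz u
  have hout : ∀ z ∉ D, w z = 0 := fun z hz => Set.indicator_of_notMem hz u
  have hw0 : ∀ z, 0 ≤ w z := by
    intro z
    by_cases hz : z ∈ D
    · rw [hin z hz]; exact hu.nonneg z hz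
    · rw [hout z hz]
  have hw1 : ∀ z, w z ≤ 1 := by
    intro z
    by_cases hz : z ∈ D
    · rw [hin z hz]; exact hle z hz
    · rw [hout z hz]; exact zero_le_one
  have hmeas : Measurable w := by
    refine measurable_of_Iio fun a => ?_
    rcases le_or_gt a 0 with ha | ha
    · have h4 : w ⁻¹' Iio a = ∅ := by
        rw [Set.eq_empty_iff_forall_notMem]
        intro z hz
        have h5 : w z < a := hz
        have := hw0 z
        linarith
      rw [h4]
      exact MeasurableSet.empty
    · obtain ⟨O, hO, hOD⟩ := upperSemicontinuousOn_iff_preimage_Iio.1 hu.usc a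
      have h4 : w ⁻¹' Iio a = (D ∩ O) ∪ Dᶜ := by
        rw [← hOD]
        ext z
        by_cases hz : z ∈ D
        · simp only [Set.mem_preimage, Set.mem_Iio, Set.mem_union, Set.mem_inter_iff,
            Set.mem_compl_iff, hz, hin z hz, true_and, not_true_eq_false, or_false]
        · simp only [Set.mem_preimage, Set.mem_Iio, Set.mem_union, Set.mem_inter_iff,
            Set.mem_compl_iff, hz, hout z hz, false_and, not_false_eq_true, or_true, ha]
      rw [h4]
      exact (hD.isOpen.inter hO).measurableSet.union hD.isOpen.measurableSet.compl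
  have husc : UpperSemicontinuousOn w (ball 0 1) := by
    intro x hx a ha
    refine Filter.Eventually.filter_mono nhdsWithin_le_nhds ?_
    by_cases hxD : x ∈ D
    · rw [hin x hxD] at ha
      have h4 := hu.usc x hxD a ha
      rw [hD.isOpen.nhdsWithin_eq hxD] at h4
      filter_upwards [h4, hD.isOpen.mem_nhds hxD] with y hy hyD
      rw [hin y hyD]
      exact hy
    · rw [hout x hxD] at ha
      have h4 : ∀ᶠ z in 𝓝[D] x, u z < a := by
        by_cases hcl : x ∈ closure D
        · have hfr : x ∈ frontier D := by
            rw [hD.isOpen.frontier_eq]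
            exact ⟨hcl, hxD⟩
          exact hu.inner x hfr (by simpa using hx) a ha
        · rw [notMem_closure_iff_nhdsWithin_eq_bot.1 hcl]
          exact Filter.eventually_bot
      rw [eventually_nhdsWithin_iff] at h4
      filter_upwards [h4] with y hy
      by_cases hyD : y ∈ D
      · rw [hin y hyD]
        exact hy hyD
      · rw [hout y hyD]
        exact ha
  refine ⟨w, ⟨hmeas, hw0, hw1, husc, ?_⟩, hin 0 hD.zero_mem, ?_⟩
  · intro z r hr hzr
    have h4 := norm_add_lt hr hzr
    have hsub : ball z (1 - ‖z‖) ⊆ ball (0 : ℂ) 1 := by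
      intro y hy
      rw [mem_ball, dist_eq_norm] at hy
      rw [mem_ball_zero_iff]
      have h5 : ‖y‖ ≤ ‖y - z‖ + ‖z‖ := by
        have := norm_add_le (y - z) z
        rwa [sub_add_cancel] at this
      linarith
    refine h3 z r (1 - ‖z‖) 1 w hr (by linarith) hmeas (husc.mono hsub) ?_ ?_
    · intro y _
      rw [abs_of_nonneg (hw0 y)]
      exact hw1 y
    · intro y _
      by_cases hyD : y ∈ D
      · obtain ⟨r₀, hr₀, hball⟩ := Metric.isOpen_iff.1 hD.isOpen y hyD
        refine ⟨r₀, hr₀, fun s hs hsr => ⟨ci_of_bdd hmeas hw0 hw1 y s, ?_⟩⟩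
        have hcb : closedBall y s ⊆ D := (closedBall_subset_ball hsr).trans hball
        have h5 := hu.submean y s hs hcb
        have h6 : Real.circleAverage w y s = Real.circleAverage u y s := by
          refine Real.circleAverage_congr_sphere ?_
          intro x hx
          rw [abs_of_pos hs] at hx
          exact hin x (hcb (sphere_subset_closedBall hx))
        rw [hin y hyD, h6]
        exact h5
      · refine ⟨1, one_pos, fun s _ _ => ⟨ci_of_bdd hmeas hw0 hw1 y s, ?_⟩⟩
        rw [hout y hyD]
        exact Real.circleAverage_nonneg_of_nonneg fun x _ => hw0 x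
  · intro z hz
    rw [hD.isOpen.frontier_eq] at hz
    exact hout z hz.2

end MPf68f16.Hall.EX
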