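import Pool.Agent.Work.MP_f68f16_an.Hall.Stmts

/-!
# Hall's lemma with the sharp constant: item F1 (the upper bound)
-/

set_option autoImplicit false

open MeasureTheory Metric Set Filter Topology

namespace MPf68f16.Hall.F1

open MPf68f16 MPf68f16.Hall

theorem zero_lower (D : Set ℂ) : IsLower D (fun _ => 0) where
  nonneg := fun _ _ => le_rfl
  usc := continuousOn_const.upperSemicontinuousOn
  submean := fun z r _ _ => by rw [Real.circleAverage_const]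
  outer := fun _ _ _ ε hε => Eventually.of_forall fun _ => by linarith
  inner := fun _ _ _ ε hε => Eventually.of_forall fun _ => hε

/-- The basic properties of the constant. -/
theorem cst_props (hU : S_UPPER) (hL : S_LOWER) :
    0 < cst ∧ cst < 1 ∧ (∀ D, Admissible D → omega D ≤ cst) ∧
    ∀ ε : ℝ, 0 < ε → ∃ D u, Admissible D ∧ IsLower D u ∧ cst - ε < u 0 := by
  obtain ⟨D0, hD0, hD0'⟩ := hL
  have hb : BddAbove {t : ℝ | ∃ D : Set ℂ, Admissible D ∧ omega D = t} :=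
    ⟨0.094, by rintro t ⟨D, hD, rfl⟩; exact hU D hD⟩
  have hne : {t : ℝ | ∃ D : Set ℂ, Admissible D ∧ omega D = t}.Nonempty := ⟨_, D0, hD0, rfl⟩
  have h1 : ∀ D, Admissible D → omega D ≤ cst := fun D hD => le_csSup hb ⟨D, hD, rfl⟩
  refine ⟨?_, ?_, h1, ?_⟩
  · have := h1 D0 hD0
    linarith
  · have : cst ≤ 0.094 := csSup_le hne (by rintro t ⟨D, hD, rfl⟩; exact hU D hD)
    linarith
  · intro ε hε
    have h2 : cst - ε < sSup {t : ℝ | ∃ D : Set ℂ, Admissible D ∧ omega D = t} := by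
      change cst - ε < cst
      linarith
    obtain ⟨t, ⟨D, hD, rfl⟩, ht⟩ := exists_lt_of_lt_csSup hne h2
    have h3 : cst - ε < sSup {t | ∃ u, IsLower D u ∧ u 0 = t} := ht
    have hne' : {t | ∃ u, IsLower D u ∧ u 0 = t}.Nonempty := ⟨_, _, zero_lower D, rfl⟩
    obtain ⟨t, ⟨u, hu, rfl⟩, ht⟩ := exists_lt_of_lt_csSup hne' h3
    exact ⟨D, u, hD, hu, ht⟩

/-- The open set of directions in which `u` becomes negative. -/
theorem isOpen_neg {u : ℂ → ℝ} (hu : ContinuousOn u (ball 0 1)) :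
    IsOpen {θ : ℝ | ∃ t : ℝ, 0 < t ∧ t < 1 ∧ u (pt t θ) < 0} := by
  have hW : IsOpen ({p : ℝ × ℝ | 0 < p.1 ∧ p.1 < 1} ∩
      (fun p : ℝ × ℝ => u (pt p.1 p.2)) ⁻¹' Iio 0) := by
    refine ContinuousOn.isOpen_inter_preimage ?_ ?_ isOpen_Iio
    · exact hu.comp continuous_pt.continuousOn fun p hp => pt_mem hp.1.le hp.2
    · exact (isOpen_lt continuous_const continuous_fst).inter
        (isOpen_lt continuous_fst continuous_const)
  have h := isOpenMap_snd _ hW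
  convert h using 1
  ext θ
  constructor
  · rintro ⟨t, h0, h1, h2⟩
    exact ⟨(t, θ), ⟨⟨h0, h1⟩, h2⟩, rfl⟩
  · rintro ⟨⟨t, θ'⟩, ⟨⟨h0, h1⟩, h2⟩, rfl⟩
    exact ⟨t, h0, h1, h2⟩

theorem prf (hU : S_UPPER) (hL : S_LOWER) (hDOM : S_DOM) (hEX : H_EX) (hAP : H_AP) (hCP : H_CP)
    (hIT : H_IT) (hGR : H_GR) (hSH : H_SH) : H_F1 := by
  intro D hD
  obtain ⟨hc0, hc1, hle, hex⟩ := cst_props hU hL
  set c := cst with hc
  set μ := volume.real (shadow D ∩ Icc 0 (2 * Real.pi)) with hμ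
  have hpi := Real.two_pi_pos
  have hμ0 : 0 ≤ μ := measureReal_nonneg
  have hμ1 : μ ≤ 2 * Real.pi := by
    have h1 : μ ≤ volume.real (Icc 0 (2 * Real.pi)) :=
      measureReal_mono inter_subset_right measure_Icc_lt_top.ne
    rwa [Real.volume_real_Icc_of_le hpi.le, sub_zero] at h1
  by_contra hcon
  push Not at hcon
  set x := 1 - μ / (2 * Real.pi) with hx
  have hx0 : 0 ≤ x := by
    rw [hx, sub_nonneg, div_le_one hpi]
    exact hμ1
  have hx1 : x ≤ 1 := by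
    rw [hx]
    have : 0 ≤ μ / (2 * Real.pi) := by positivity
    linarith
  have hkey : 1 - (1 - c) * (μ / (2 * Real.pi)) = c + (1 - c) * x := by
    rw [hx]; ring
  rw [hkey] at hcon
  obtain ⟨ε, hε0, hε1, hε2⟩ : ∃ ε : ℝ, 0 < ε ∧ ε ≤ 1 ∧ c + (1 - c) * x + 10 * ε < omega D := by
    refine ⟨min 1 ((omega D - (c + (1 - c) * x)) / 20), ?_, min_le_left _ _, ?_⟩
    · have : 0 < omega D - (c + (1 - c) * x) := by linarith
      positivity
    · have := min_le_right 1 ((omega D - (c + (1 - c) * x)) / 20)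
      linarith
  obtain ⟨t, ⟨u, hu, rfl⟩, hut⟩ := exists_lt_of_lt_csSup (⟨_, _, zero_lower D, rfl⟩ :
    {t | ∃ u, IsLower D u ∧ u 0 = t}.Nonempty) hε2
  obtain ⟨w, hw, hw0, hwf⟩ := hEX D u hD hu
  obtain ⟨K, hK, hKI, hKS, hKμ⟩ := hSH D (2 * Real.pi * ε) hD (by positivity)
  have h0f : (0 : ℂ) ∉ frontier D := by
    rw [hD.isOpen.frontier_eq]
    exact fun h => h.2 hD.zero_mem
  obtain ⟨u1, hu1, hu1le, hu1K, hu10⟩ := hAP w K ε hw hK hε0 (by
    intro θ hθ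
    obtain ⟨t, ht0, ht1, htf⟩ := hKS hθ
    refine ⟨t, ?_, ht1, ?_⟩
    · rcases ht0.lt_or_eq with h | h
      · exact h
      · exfalso
        rw [← h] at htf
        have : pt 0 θ = 0 := by unfold pt; simp
        rw [this] at htf
        exact h0f htf
    · rw [hwf _ htf]
      linarith)
  obtain ⟨D1, u2, hD1, hu2, hu20⟩ := hex ε hε0
  obtain ⟨q, hq, hq0⟩ := hCP D1 u2 ε hD1 hu2 hε0
  obtain ⟨m, α, β, hβ, hcov, hsum⟩ := hGR {θ : ℝ | ∃ t : ℝ, 0 < t ∧ t < 1 ∧ u1 (pt t θ) < 0} K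
    (isOpen_neg hu1.1) hK (fun θ hθ => hu1K θ hθ) hKI
  obtain ⟨v, hv, hvu, hvn, hv0⟩ := hIT q u1 m α β ε hq hu1 hu1le hβ hε0
  have hvA : InA v := by
    refine ⟨hv, fun z hz => (hvu z hz).trans (hu1le z hz), fun θ => ?_⟩
    obtain ⟨k, hk⟩ := exists_shift θ
    rcases hcov _ hk with h | h
    · obtain ⟨t, h0, h1, h2⟩ := h
      refine ⟨t, h0, h1, ?_⟩
      have h3 := hvu _ (pt_mem (θ := θ + 2 * Real.pi * k) h0.le h1)
      rw [pt_per] at h3 h2
      linarith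
    · obtain ⟨i, hi⟩ := h
      obtain ⟨t, h0, h1, h2⟩ := hvn i (θ + 2 * Real.pi * k) hi
      rw [pt_per] at h2
      exact ⟨t, h0, h1, h2⟩
  have hq1 : q 0 ≤ 1 := hq.le_one 0 (mem_ball_self one_pos)
  have hS : ∑ i, β i / Real.pi = (∑ i, 2 * β i) / (2 * Real.pi) := by
    rw [Finset.sum_div]
    refine Finset.sum_congr rfl fun i _ => ?_
    have := Real.pi_pos
    field_simp
  have hS0 : 0 ≤ ∑ i, β i / Real.pi :=
    Finset.sum_nonneg fun i _ => div_nonneg (hβ i).1.le Real.pi_pos.le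
  have hS1 : ∑ i, β i / Real.pi ≤ x + ε := by
    rw [hS, div_le_iff₀ hpi]
    have h1 : (x + ε) * (2 * Real.pi) = 2 * Real.pi - μ + 2 * Real.pi * ε := by
      rw [hx]
      field_simp
    rw [h1]
    linarith
  have h1 : (1 - q 0) * ∑ i, β i / Real.pi ≤ (1 - c + 2 * ε) * (x + ε) :=
    mul_le_mul (by linarith) hS1 hS0 (by linarith)
  have h2 : (1 - c + 2 * ε) * (x + ε) ≤ (1 - c) * x + 5 * ε := by
    have h3 : (1 - c) * ε ≤ ε := by nlinarith
    have h4 : ε * x ≤ ε := by nlinarith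
    have h5 : ε * ε ≤ ε := by nlinarith
    nlinarith
  have h3 : c < v 0 := by linarith
  obtain ⟨D', hD', hvD'⟩ := hDOM v hvA (hc0.trans h3)
  have := hle D' hD'
  linarith

end MPf68f16.Hall.F1
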