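import Pool.Agent.Work.MP_f68f16_an.Hall.Stmts

/-!
# Hall's lemma with the sharp constant: item G2, arcs which cover a compact set
-/

set_option autoImplicit false

open MeasureTheory Metric Set Filter Topology

namespace MPf68f16.Hall.G2

open MPf68f16 MPf68f16.Hall

/-- An open set which is not much larger than a compact set. -/
theorem outer {K : Set ℝ} {ε : ℝ} (hK : IsCompact K) (hε : 0 < ε) :
    ∃ V : Set ℝ, K ⊆ V ∧ IsOpen V ∧ volume V ≠ ⊤ ∧ volume.real V ≤ volume.real K + ε := by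
  have hKf : volume K ≠ ⊤ := hK.measure_ne_top
  obtain ⟨V, hKV, hV, hlt⟩ := K.exists_isOpen_lt_add hKf
    (ENNReal.ofReal_pos.2 hε).ne'
  have hVf : volume V ≠ ⊤ := ne_top_of_lt hlt
  refine ⟨V, hKV, hV, hVf, ?_⟩
  have h1 : (volume V).toReal ≤ (volume K + ENNReal.ofReal ε).toReal :=
    ENNReal.toReal_mono (ENNReal.add_ne_top.2 ⟨hKf, ENNReal.ofReal_ne_top⟩) hlt.le
  rw [ENNReal.toReal_add hKf ENNReal.ofReal_ne_top, ENNReal.toReal_ofReal hε.le] at h1
  exact h1

theorem prf (h1 : H_GR) : H_G2 := by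
  intro K ε hK hKI hε
  obtain ⟨V, hKV, hV, hVf, hVK⟩ := outer hK hε
  have hπ : (0 : ℝ) ≤ 2 * Real.pi := by positivity
  have hK' : IsCompact (Icc 0 (2 * Real.pi) ∩ Vᶜ) :=
    isCompact_Icc.inter_right hV.isClosed_compl
  obtain ⟨m, α, β, hβ, hcov, hsum⟩ := h1 Kᶜ (Icc 0 (2 * Real.pi) ∩ Vᶜ) hK.isClosed.isOpen_compl
    hK' (fun x hx hxK => hx.2 (hKV hxK)) inter_subset_left
  refine ⟨m, α, β, hβ, fun θ hθ => ?_, ?_⟩
  · rcases hcov θ (hKI hθ) with h | h
    · exact absurd hθ h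
    · exact h
  · have h2 : 2 * Real.pi ≤ volume.real (Icc 0 (2 * Real.pi) ∩ Vᶜ) + volume.real V := by
      have h3 : volume.real (Icc (0 : ℝ) (2 * Real.pi)) ≤
          volume.real ((Icc 0 (2 * Real.pi) ∩ Vᶜ) ∪ V) := by
        refine measureReal_mono ?_ ?_
        · intro x hx
          by_cases hxV : x ∈ V
          · exact Or.inr hxV
          · exact Or.inl ⟨hx, hxV⟩
        · exact (measure_union_lt_top hK'.measure_lt_top (lt_top_iff_ne_top.2 hVf)).ne
      rw [Real.volume_real_Icc_of_le hπ, sub_zero] at h3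
      exact h3.trans (measureReal_union_le _ _)
    linarith

end MPf68f16.Hall.G2
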