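import Pool.Agent.Work.MP_f68f16_an.Hall.Stmts

/-! Hall's lemma, item GL (helper19): from small circles to all circles. -/

set_option autoImplicit false

open MeasureTheory Metric Set Filter Topology

namespace MPf68f16.Hall.GL

open MPf68f16 MPf68f16.Hall

theorem cont_re (p : Polynomial ℂ) : Continuous (fun y : ℂ => (p.eval y).re) :=
  Complex.continuous_re.comp p.continuous

theorem mv_poly (p : Polynomial ℂ) (z : ℂ) (r : ℝ) :
    Real.circleAverage (fun y => (p.eval y).re) z r = (p.eval z).re := by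
  have h1 : CircleIntegrable (fun y => p.eval y) z r :=
    p.continuous.continuousOn.circleIntegrable'
  have h2 := Complex.reCLM.circleAverage_comp_comm h1
  have h3 : Real.circleAverage (fun y => p.eval y) z r = p.eval z :=
    DiffContOnCl.circleAverage (p.differentiable.diffContOnCl)
  rw [h3] at h2
  exact h2

/-- the Lipschitz majorants -/
noncomputable def F (w : ℂ → ℝ) (z : ℂ) (r : ℝ) (n : ℕ) (x : ℂ) : ℝ :=
  ⨆ y : sphere z r, (w y - n * ‖x - y‖)

variable {w : ℂ → ℝ} {z : ℂ} {r M : ℝ}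

theorem bdd (hM : ∀ y ∈ sphere z r, |w y| ≤ M) (n : ℕ) (x : ℂ) :
    BddAbove (range fun y : sphere z r => (w y - n * ‖x - y‖)) := by
  refine ⟨M, ?_⟩
  rintro _ ⟨y, rfl⟩
  have h1 := (abs_le.1 (hM y y.2)).2
  have h2 : 0 ≤ (n : ℝ) * ‖x - y‖ := by positivity
  simp only
  linarith

theorem ne (hr : 0 < r) : Nonempty (sphere z r) :=
  (NormedSpace.sphere_nonempty.2 hr.le).to_subtype

theorem F_le (hr : 0 < r) (hM : ∀ y ∈ sphere z r, |w y| ≤ M) (n : ℕ) (x : ℂ) : F w z r n x ≤ M := by
  have := ne (z := z) hr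
  refine ciSup_le fun y => ?_
  have h1 := (abs_le.1 (hM y y.2)).2
  have h2 : 0 ≤ (n : ℝ) * ‖x - y‖ := by positivity
  linarith

theorem le_F (hM : ∀ y ∈ sphere z r, |w y| ≤ M) (n : ℕ) {x : ℂ} (hx : x ∈ sphere z r) :
    w x ≤ F w z r n x := by
  have h := le_ciSup (bdd hM n x) ⟨x, hx⟩
  simp only [sub_self, norm_zero, mul_zero, sub_zero] at h
  exact h

theorem F_lip (hr : 0 < r) (hM : ∀ y ∈ sphere z r, |w y| ≤ M) (n : ℕ) (x x' : ℂ) :
    F w z r n x ≤ F w z r n x' + n * ‖x - x'‖ := by
  have := ne (z := z) hr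
  refine ciSup_le fun y => ?_
  have h1 := le_ciSup (bdd hM n x') y
  have h2 : ‖x' - y‖ ≤ ‖x - y‖ + ‖x - x'‖ := by
    have := norm_sub_le (x - y : ℂ) (x - x')
    have h3 : (x - y : ℂ) - (x - x') = x' - y := by ring
    rwa [h3] at this
  have h3 : (n : ℝ) * ‖x' - y‖ ≤ n * ‖x - y‖ + n * ‖x - x'‖ := by
    rw [← mul_add]
    exact mul_le_mul_of_nonneg_left h2 (Nat.cast_nonneg n)
  unfold F
  linarith

theorem F_cont (hr : 0 < r) (hM : ∀ y ∈ sphere z r, |w y| ≤ M) (n : ℕ) :
    Continuous (F w z r n) := by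
  refine (LipschitzWith.of_dist_le_mul (K := (n : NNReal)) fun x x' => ?_).continuous
  rw [Real.dist_eq, dist_eq_norm, abs_le]
  have h1 := F_lip hr hM n x x'
  have h2 := F_lip hr hM n x' x
  rw [norm_sub_rev x' x] at h2
  simp only [NNReal.coe_natCast]
  constructor <;> linarith

theorem F_tendsto (hr : 0 < r) (hM : ∀ y ∈ sphere z r, |w y| ≤ M)
    {x : ℂ} (hx : x ∈ sphere z r)
    (husc : ∀ c, w x < c → ∀ᶠ y in 𝓝[sphere z r] x, w y < c) :
    Tendsto (fun n => F w z r n x) atTop (𝓝 (w x)) := by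
  have := ne (z := z) hr
  rw [Metric.tendsto_atTop]
  intro ε hε
  obtain ⟨ρ, hρ, hball⟩ := Metric.mem_nhdsWithin_iff.1 (husc (w x + ε / 2) (by linarith))
  obtain ⟨N, hN⟩ := exists_nat_gt (2 * M / ρ)
  refine ⟨N, fun n hn => ?_⟩
  have h1 := le_F hM n hx
  have h2 : F w z r n x ≤ w x + ε / 2 := by
    refine ciSup_le fun y => ?_
    by_cases hy : ‖x - y‖ < ρ
    · have h3 : (y : ℂ) ∈ ball x ρ ∩ sphere z r := by
        refine ⟨?_, y.2⟩
        rw [mem_ball, dist_eq_norm, norm_sub_rev]
        exact hy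
      have h4 : w y < w x + ε / 2 := hball h3
      have h5 : 0 ≤ (n : ℝ) * ‖x - y‖ := by positivity
      linarith
    · push Not at hy
      have h3 := (abs_le.1 (hM y y.2)).2
      have h4 := (abs_le.1 (hM x hx)).1
      have h5 : 2 * M ≤ N * ρ := by
        rw [div_lt_iff₀ hρ] at hN
        exact hN.le
      have h6 : (N : ℝ) * ρ ≤ n * ‖x - y‖ := by
        have : (N : ℝ) ≤ n := by exact_mod_cast hn
        exact mul_le_mul this hy hρ.le (Nat.cast_nonneg n)
      linarith
  rw [Real.dist_eq, abs_lt]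
  constructor <;> linarith

/-- comparison with one polynomial -/
theorem comp (hMX : H_MX) {z : ℂ} {r R : ℝ} {w : ℂ → ℝ} (hr : 0 < r) (hrR : r < R)
    (husc : UpperSemicontinuousOn w (ball z R)) (hl : LSM (ball z R) w) (p : Polynomial ℂ)
    (hp : ∀ y ∈ sphere z r, w y ≤ (p.eval y).re) : w z ≤ (p.eval z).re := by
  have h := hMX (ball z r) (fun y => w y - (p.eval y).re) isOpen_ball isBounded_ball ?_ ?_ ?_ z
    (mem_ball_self hr)
  · simpa using h
  · have h1 : UpperSemicontinuousOn w (ball z r) := husc.mono (ball_subset_ball hrR.le)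
    have h2 : UpperSemicontinuousOn (fun y : ℂ => -(p.eval y).re) (ball z r) :=
      (cont_re p).neg.continuousOn.upperSemicontinuousOn
    have h3 := h1.add h2
    simpa [sub_eq_add_neg] using h3
  · intro y hy
    obtain ⟨r₀, h0, h1⟩ := hl y (ball_subset_ball hrR.le hy)
    refine ⟨r₀, h0, fun ρ hρ hρr => ?_⟩
    obtain ⟨h2, h3⟩ := h1 ρ hρ hρr
    have h4 : CircleIntegrable (fun y : ℂ => (p.eval y).re) y ρ :=
      (cont_re p).continuousOn.circleIntegrable'
    refine ⟨h2.sub h4, ?_⟩
    rw [Real.circleAverage_fun_sub h2 h4, mv_poly]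
    simp only
    linarith
  · intro ζ hζ ε hε
    rw [frontier_ball z hr.ne'] at hζ
    have hζR : ζ ∈ ball z R := sphere_subset_ball hrR hζ
    have h1 : ∀ᶠ y in 𝓝[ball z r] ζ, w y < w ζ + ε / 2 :=
      nhdsWithin_mono _ (ball_subset_ball hrR.le) (husc ζ hζR _ (by linarith))
    have h2 : ∀ᶠ y in 𝓝[ball z r] ζ, (p.eval ζ).re - ε / 2 < (p.eval y).re := by
      have h3 : ∀ᶠ y in 𝓝 ζ, (p.eval ζ).re - ε / 2 < (p.eval y).re :=
        (cont_re p).continuousAt.eventually (lt_mem_nhds (by linarith))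
      exact nhdsWithin_le_nhds h3
    filter_upwards [h1, h2] with y hy1 hy2
    have h3 := hp ζ hζ
    linarith

theorem prf (hMX : H_MX) (hPT : H_PT) : H_GL := by
  intro z r R M w hr hrR hmeas husc hMb hl
  have hsub : sphere z r ⊆ ball z R := sphere_subset_ball hrR
  have hM : ∀ y ∈ sphere z r, |w y| ≤ M := fun y hy => hMb y (hsub hy)
  have hcw : Measurable fun θ : ℝ => w (circleMap z r θ) :=
    hmeas.comp (continuous_circleMap z r).measurable
  have hmem : ∀ θ : ℝ, circleMap z r θ ∈ sphere z r := fun θ => circleMap_mem_sphere z hr.le θ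
  have hstep : ∀ n : ℕ, w z ≤ Real.circleAverage (F w z r n) z r + 1 / ((n : ℝ) + 1) := by
    intro n
    have hpos : 0 < 1 / ((n : ℝ) + 1) := by positivity
    obtain ⟨p, hp⟩ := hPT z r (F w z r n) hr (F_cont hr hM n).continuousOn _ hpos
    have h1 := comp hMX hr hrR husc hl p fun y hy => (le_F hM n hy).trans (hp y hy).1
    rw [← mv_poly p z r] at h1
    refine h1.trans ?_
    have h2 : CircleIntegrable (fun y : ℂ => (p.eval y).re) z r :=
      (cont_re p).continuousOn.circleIntegrable'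
    have h3 : CircleIntegrable (F w z r n) z r := (F_cont hr hM n).continuousOn.circleIntegrable'
    have h4 : CircleIntegrable (fun _ : ℂ => 1 / ((n : ℝ) + 1)) z r := circleIntegrable_const _ z r
    have h5 := Real.circleAverage_mono h2 (h3.add h4) (fun y hy => ?_)
    · rw [Real.circleAverage_add h3 h4, Real.circleAverage_const] at h5
      exact h5
    · rw [abs_of_pos hr] at hy
      exact (hp y hy).2
  have hlim : Tendsto (fun n => Real.circleAverage (F w z r n) z r) atTop
      (𝓝 (Real.circleAverage w z r)) := by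
    unfold Real.circleAverage
    refine Tendsto.const_smul ?_ _
    refine intervalIntegral.tendsto_integral_filter_of_dominated_convergence (fun _ => M)
      (Eventually.of_forall fun n => ?_) (Eventually.of_forall fun n => ae_of_all _ fun θ _ => ?_)
      intervalIntegrable_const (ae_of_all _ fun θ _ => ?_)
    · exact ((F_cont hr hM n).comp (continuous_circleMap z r)).aestronglyMeasurable
    · rw [Real.norm_eq_abs, abs_le]
      have h1 := F_le hr hM n (circleMap z r θ)
      have h2 := le_F hM n (hmem θ)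
      have h3 := (abs_le.1 (hM _ (hmem θ))).1
      constructor <;> linarith
    · refine F_tendsto hr hM (hmem θ) fun c hc => ?_
      exact nhdsWithin_mono _ hsub (husc _ (hsub (hmem θ)) c hc)
  have hlim2 : Tendsto (fun n : ℕ => Real.circleAverage (F w z r n) z r + 1 / ((n : ℝ) + 1)) atTop
      (𝓝 (Real.circleAverage w z r + 0)) :=
    hlim.add tendsto_one_div_add_atTop_nhds_zero_nat
  rw [add_zero] at hlim2
  exact ge_of_tendsto' hlim2 hstep

end MPf68f16.Hall.GL
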