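import Pool.Agent.Work.MP_f68f16_an.Hall.Stmts

/-!
# Item GR: grid arcs
-/

set_option autoImplicit false

open MeasureTheory Metric Set Filter Topology

namespace MPf68f16.Hall.GR

open MPf68f16 MPf68f16.Hall

/-- the cell with number `j` -/
def cell (h : ℝ) (j : ℕ) : Set ℝ := Ioc (h * j) (h * (j + 1))

theorem cell_disj {h : ℝ} (hh : 0 < h) {i j : ℕ} (hij : i ≠ j) : Disjoint (cell h i) (cell h j) := by
  have key : ∀ i j : ℕ, i < j → Disjoint (cell h i) (cell h j) := by
    intro i j hij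
    rw [Set.disjoint_left]
    rintro x ⟨_, h2⟩ ⟨h3, _⟩
    have h4 : (i : ℝ) + 1 ≤ j := by exact_mod_cast hij
    have h5 := mul_le_mul_of_nonneg_left h4 hh.le
    linarith
  rcases lt_or_gt_of_ne hij with h1 | h1
  · exact key i j h1
  · exact (key j i h1).symm

theorem cell_vol {h : ℝ} (hh : 0 < h) (j : ℕ) : volume.real (cell h j) = h := by
  unfold cell
  rw [Real.volume_real_Ioc_of_le (by nlinarith)]
  ring

theorem prf : H_GR := by
  classical
  intro G K hG hK hKG hKI
  have hpi : 0 < 2 * Real.pi := by positivity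
  have hF : IsCompact (Icc 0 (2 * Real.pi) \ G) := isCompact_Icc.diff hG
  have hdis : Disjoint (Icc 0 (2 * Real.pi) \ G) K := by
    rw [Set.disjoint_left]
    intro x hx hxK
    exact hx.2 (hKG hxK)
  obtain ⟨η, hη, hth⟩ := hdis.exists_thickenings hF hK.isClosed
  have hfar : ∀ x ∈ Icc 0 (2 * Real.pi) \ G, ∀ y ∈ K, η ≤ |x - y| := by
    intro x hx y hy
    by_contra hc
    rw [not_le] at hc
    have h1 : y ∈ thickening η (Icc 0 (2 * Real.pi) \ G) :=
      mem_thickening_iff.2 ⟨x, hx, by rw [dist_comm, Real.dist_eq]; exact hc⟩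
    have h2 : y ∈ thickening η K := self_subset_thickening hη K hy
    exact Set.disjoint_left.1 hth h1 h2
  obtain ⟨N, hN2, hNη⟩ : ∃ N : ℕ, 2 ≤ N ∧ 2 * Real.pi / N < η := by
    obtain ⟨n, hn⟩ := exists_nat_gt (2 * Real.pi / η)
    refine ⟨max 2 n, le_max_left _ _, ?_⟩
    have h1 : (n : ℝ) ≤ ((max 2 n : ℕ) : ℝ) := by exact_mod_cast le_max_right 2 n
    have h2 : (0 : ℝ) < ((max 2 n : ℕ) : ℝ) := by
      exact_mod_cast lt_of_lt_of_le (by norm_num : 0 < 2) (le_max_left 2 n)
    rw [div_lt_iff₀ h2, mul_comm]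
    rw [div_lt_iff₀ hη] at hn
    nlinarith
  have hN0 : (0 : ℝ) < N := by exact_mod_cast lt_of_lt_of_le (by norm_num : 0 < 2) hN2
  obtain ⟨h, hh⟩ : ∃ h : ℝ, h = 2 * Real.pi / N := ⟨_, rfl⟩
  have hh0 : 0 < h := by rw [hh]; positivity
  have hhN : h * N = 2 * Real.pi := by rw [hh]; field_simp
  rw [← hh] at hNη
  obtain ⟨J, hJ⟩ : ∃ J : Finset ℕ, J = (Finset.range N).filter
      (fun j : ℕ => ∃ x ∈ Icc 0 (2 * Real.pi) \ G, h * j ≤ x ∧ x ≤ h * (j + 1)) := ⟨_, rfl⟩
  -- cover
  have hcov : ∀ θ ∈ Icc 0 (2 * Real.pi), ∃ j < N, h * j ≤ θ ∧ θ ≤ h * (j + 1) := by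
    rintro θ ⟨h1, h2⟩
    rcases h2.eq_or_lt with h3 | h3
    · refine ⟨N - 1, by omega, ?_, ?_⟩
      · have h4 : ((N - 1 : ℕ) : ℝ) ≤ N := by exact_mod_cast Nat.sub_le N 1
        rw [h3, ← hhN]
        exact mul_le_mul_of_nonneg_left h4 hh0.le
      · have h4 : ((N - 1 : ℕ) : ℝ) + 1 = N := by
          have : (N - 1) + 1 = N := by omega
          exact_mod_cast this
        rw [h4, hhN, h3]
    · have h4 : 0 ≤ θ / h := div_nonneg h1 hh0.le
      refine ⟨⌊θ / h⌋₊, ?_, ?_, ?_⟩
      · rw [Nat.floor_lt h4, div_lt_iff₀ hh0, mul_comm, hhN]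
        exact h3
      · have h5 := Nat.floor_le h4
        rw [le_div_iff₀ hh0] at h5
        linarith
      · have h5 := (Nat.lt_floor_add_one (θ / h)).le
        rw [div_le_iff₀ hh0] at h5
        linarith
  -- the union of the cells
  have hU : ∀ j ∈ J, cell h j ⊆ Icc 0 (2 * Real.pi) \ K := by
    intro j hj y hy
    rw [hJ, Finset.mem_filter, Finset.mem_range] at hj
    obtain ⟨hjN, x, hx, hx1, hx2⟩ := hj
    have hj1 : (j : ℝ) + 1 ≤ N := by exact_mod_cast hjN
    have hj0 : (0 : ℝ) ≤ j := Nat.cast_nonneg j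
    refine ⟨⟨?_, ?_⟩, ?_⟩
    · have := mul_nonneg hh0.le hj0
      exact this.trans hy.1.le
    · rw [← hhN]
      exact hy.2.trans (mul_le_mul_of_nonneg_left hj1 hh0.le)
    · intro hyK
      have h1 := hfar x hx y hyK
      have h2 : |x - y| ≤ h := by
        rw [abs_le]
        constructor
        · have := hy.2; linarith
        · have := hy.1; linarith
      linarith
  have hvol : (J.card : ℝ) * h + volume.real K ≤ 2 * Real.pi := by
    have e1 : volume.real (⋃ j ∈ J, cell h j) = (J.card : ℝ) * h := by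
      have hd : (↑J : Set ℕ).PairwiseDisjoint (cell h) := fun i _ j _ hij => cell_disj hh0 hij
      have hm : ∀ b ∈ J, MeasurableSet (cell h b) := fun b _ => measurableSet_Ioc
      have hfn : ∀ b ∈ J, volume (cell h b) ≠ ⊤ := by
        intro b _
        unfold cell
        exact measure_Ioc_lt_top.ne
      rw [measureReal_biUnion_finset hd hm hfn]
      rw [Finset.sum_congr rfl (fun j _ => cell_vol hh0 j), Finset.sum_const, nsmul_eq_mul]
    have hsub : (⋃ j ∈ J, cell h j) ⊆ Icc 0 (2 * Real.pi) \ K := by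
      intro y hy
      simp only [Set.mem_iUnion] at hy
      obtain ⟨j, hj, hy⟩ := hy
      exact hU j hj hy
    have hdis' : Disjoint (⋃ j ∈ J, cell h j) K := by
      rw [Set.disjoint_left]
      intro y hy
      exact (hsub hy).2
    have hfin : volume (⋃ j ∈ J, cell h j) ≠ ⊤ := by
      refine (lt_of_le_of_lt (measure_mono (hsub.trans Set.diff_subset)) ?_).ne
      exact measure_Icc_lt_top
    have e2 := measureReal_union hdis' hK.isClosed.measurableSet hfin hK.measure_lt_top.ne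
    have e3 : volume.real ((⋃ j ∈ J, cell h j) ∪ K) ≤ volume.real (Icc 0 (2 * Real.pi)) := by
      refine measureReal_mono ?_ measure_Icc_lt_top.ne
      exact Set.union_subset (hsub.trans Set.diff_subset) hKI
    rw [Real.volume_real_Icc_of_le hpi.le, sub_zero] at e3
    rw [← e1]
    linarith
  refine ⟨J.card, fun i => h * ((J.equivFin.symm i : ℕ) : ℝ) + h / 2, fun _ => h / 2, ?_, ?_, ?_⟩
  · intro _
    refine ⟨by linarith, ?_⟩
    have h1 : h * 2 ≤ h * N := mul_le_mul_of_nonneg_left (by exact_mod_cast hN2) hh0.le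
    rw [hhN] at h1
    have := Real.pi_pos
    linarith
  · intro θ hθ
    by_cases hθG : θ ∈ G
    · exact Or.inl hθG
    · right
      obtain ⟨j, hjN, h1, h2⟩ := hcov θ hθ
      have hjJ : j ∈ J := by
        rw [hJ, Finset.mem_filter, Finset.mem_range]
        exact ⟨hjN, θ, ⟨hθ, hθG⟩, h1, h2⟩
      refine ⟨J.equivFin ⟨j, hjJ⟩, ?_⟩
      beta_reduce
      rw [Equiv.symm_apply_apply, abs_le]
      constructor <;> linarith
  · rw [Finset.sum_const, Finset.card_univ, Fintype.card_fin, nsmul_eq_mul]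
    linarith

end MPf68f16.Hall.GR
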