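import Pool.Agent.Work.MP_f68f16_an.Hall.Stmts

set_option autoImplicit false

open MeasureTheory Metric Set Filter Topology

namespace MPf68f16.Hall.IT

open MPf68f16 MPf68f16.Hall

theorem prf (h1 : H_AR) : H_IT := by
  intro q u m
  induction m with
  | zero =>
    intro α β ε hq hu _ _ hε
    refine ⟨u, hu, fun z _ => le_rfl, fun i => i.elim0, ?_⟩
    rw [Finset.univ_eq_empty, Finset.sum_empty, mul_zero, sub_zero]
    linarith
  | succ m ih =>
    intro α β ε hq hu hu1 hβ hε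
    obtain ⟨v, hv, hvu, hvn, hv0⟩ := ih (fun i => α i.castSucc) (fun i => β i.castSucc) (ε / 2)
      hq hu hu1 (fun i => hβ i.castSucc) (by linarith)
    obtain ⟨w, hw, hwv, hwn, hw0⟩ := h1 q v (α (Fin.last m)) (β (Fin.last m)) (ε / 2) hq hv
      (fun z hz => (hvu z hz).trans (hu1 z hz)) (hβ _).1 (hβ _).2 (by linarith)
    refine ⟨w, hw, fun z hz => (hwv z hz).trans (hvu z hz), fun i => ?_, ?_⟩
    · refine Fin.lastCases hwn (fun i => ?_) i
      intro θ hθ
      obtain ⟨t, ht0, ht1, ht⟩ := hvn i θ hθ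
      exact ⟨t, ht0, ht1, lt_of_le_of_lt (hwv _ (pt_mem ht0.le ht1)) ht⟩
    · rw [Fin.sum_univ_castSucc, mul_add]
      linarith

end MPf68f16.Hall.IT
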