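import Pool.Agent.Work.MP_f68f16_an.Hall.Stmts

/-!
# Hall's lemma, item MC: the mollification is continuous
-/

set_option autoImplicit false

open MeasureTheory Metric Set Filter Topology

namespace MPf68f16.Hall.MC

open MPf68f16 MPf68f16.Hall

theorem shift (w : ℂ → ℝ) (δ : ℝ) (s : ℂ) :
    ∫ y in ball (0 : ℂ) δ, w (s + y) = ∫ x, (ball s δ).indicator w x := by
  rw [← integral_indicator measurableSet_ball, ← integral_add_left_eq_self ((ball s δ).indicator w) s]
  congr 1
  funext y
  have h : s + y ∈ ball s δ ↔ y ∈ ball (0 : ℂ) δ := by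
    rw [mem_ball, mem_ball_zero_iff, dist_eq_norm, add_sub_cancel_left]
  by_cases hy : y ∈ ball (0 : ℂ) δ
  · rw [indicator_of_mem hy, indicator_of_mem (h.2 hy)]
  · rw [indicator_of_notMem hy, indicator_of_notMem (fun h' => hy (h.1 h'))]

theorem cont (w : ℂ → ℝ) (δ : ℝ) (hw : Measurable w) (hb : ∀ z, |w z| ≤ 1) (hδ : 0 < δ) :
    Continuous fun s : ℂ => ∫ x, (ball s δ).indicator w x := by
  rw [continuous_iff_continuousAt]
  intro s₀
  refine MeasureTheory.continuousAt_of_dominated
    (bound := (ball s₀ (δ + 1)).indicator fun _ => (1 : ℝ)) ?_ ?_ ?_ ?_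
  · exact Eventually.of_forall fun s => (hw.indicator measurableSet_ball).aestronglyMeasurable
  · filter_upwards [ball_mem_nhds s₀ one_pos] with s hs
    refine Eventually.of_forall fun x => ?_
    by_cases hx : x ∈ ball s δ
    · have hx' : x ∈ ball s₀ (δ + 1) := by
        rw [mem_ball] at hx hs ⊢
        exact (dist_triangle x s s₀).trans_lt (add_lt_add hx hs)
      rw [indicator_of_mem hx, indicator_of_mem hx', Real.norm_eq_abs]
      exact hb x
    · rw [indicator_of_notMem hx, norm_zero]
      exact indicator_nonneg (fun _ _ => zero_le_one) x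
  · rw [integrable_indicator_iff measurableSet_ball]
    exact integrableOn_const measure_ball_lt_top.ne
  · have h0 : ∀ᵐ x : ℂ, x ∉ sphere s₀ δ := by
      rw [ae_iff]
      simp only [not_not]
      exact Measure.addHaar_sphere_of_ne_zero volume s₀ hδ.ne'
    filter_upwards [h0] with x hx
    rw [mem_sphere] at hx
    rcases lt_or_gt_of_ne hx with h | h
    · have h1 : ∀ᶠ s in 𝓝 s₀, dist x s < δ :=
        (continuous_const.dist continuous_id).continuousAt.eventually_lt continuousAt_const h
      have h2 : (fun s : ℂ => (ball s δ).indicator w x) =ᶠ[𝓝 s₀] fun _ => w x := by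
        filter_upwards [h1] with s hs
        exact indicator_of_mem (mem_ball.2 hs) w
      exact (continuousAt_const (y := w x)).congr h2.symm
    · have h1 : ∀ᶠ s in 𝓝 s₀, δ < dist x s :=
        continuousAt_const.eventually_lt (continuous_const.dist continuous_id).continuousAt h
      have h2 : (fun s : ℂ => (ball s δ).indicator w x) =ᶠ[𝓝 s₀] fun _ => 0 := by
        filter_upwards [h1] with s hs
        exact indicator_of_notMem (fun h' => absurd (mem_ball.1 h') (not_lt.2 hs.le)) w
      exact (continuousAt_const (y := (0 : ℝ))).congr h2.symm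

theorem prf : H_MC := by
  intro w δ hw hb hδ
  have h1 : mol w δ = fun z : ℂ => (volume.real (ball (0 : ℂ) δ))⁻¹ *
      ∫ x, (ball (((1 - δ : ℝ) : ℂ) * z) δ).indicator w x := by
    funext z
    unfold mol
    rw [shift]
  rw [h1]
  exact continuous_const.mul ((cont w δ hw hb hδ).comp (continuous_const.mul continuous_id))

end MPf68f16.Hall.MC
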