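import Pool.Agent.Work.MP_f68f16_an.Hall.Stmts

/-! MP_f68f16_an, Hall's lemma, item MM (helper42): the mollification is subharmonic. -/

set_option autoImplicit false

open MeasureTheory Metric Set Filter Topology

namespace MPf68f16.Hall.MM

open MPf68f16 MPf68f16.Hall

theorem meas_aux {w : ℂ → ℝ} (hw : Measurable w) (c z : ℂ) (r : ℝ) :
    Measurable (fun p : ℂ × ℝ => w (c * circleMap z r p.2 + p.1)) := by
  refine hw.comp ?_
  have h1 : Continuous (fun p : ℂ × ℝ => c * circleMap z r p.2 + p.1) :=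
    (continuous_const.mul ((continuous_circleMap z r).comp continuous_snd)).add continuous_fst
  exact h1.measurable

theorem int_aux {w : ℂ → ℝ} (hw : Sub w) (c z : ℂ) (r δ : ℝ) :
    Integrable (Function.uncurry fun (y : ℂ) (θ : ℝ) => w (c * circleMap z r θ + y))
      ((volume.restrict (ball (0 : ℂ) δ)).prod (volume.restrict (Ioc 0 (2 * Real.pi)))) := by
  have : IsFiniteMeasure (volume.restrict (ball (0 : ℂ) δ)) :=
    ⟨by rw [Measure.restrict_apply_univ]; exact measure_ball_lt_top⟩
  refine Integrable.of_bound (C := 1) (meas_aux hw.meas c z r).aestronglyMeasurable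
    (Eventually.of_forall fun p => ?_)
  simp only [Function.uncurry]
  rw [Real.norm_of_nonneg (hw.nonneg _)]
  exact hw.le_one _

theorem prf : H_MM := by
  intro w δ hw h0 h1 z r hr hsub
  have hzr := norm_add_lt hr hsub
  have hpi := Real.two_pi_pos
  obtain ⟨c, hc⟩ : ∃ c : ℂ, c = ((1 - δ : ℝ) : ℂ) := ⟨_, rfl⟩
  obtain ⟨V, hV⟩ : ∃ V : ℝ, V = volume.real (ball (0 : ℂ) δ) := ⟨_, rfl⟩
  have hVnn : 0 ≤ V := by
    rw [hV]
    exact measureReal_nonneg
  have hint := int_aux hw c z r δ
  have key : ∀ y ∈ ball (0 : ℂ) δ,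
      w (c * z + y) ≤ (2 * Real.pi)⁻¹ * ∫ θ in Ioc 0 (2 * Real.pi), w (c * circleMap z r θ + y) := by
    intro y hy
    rw [mem_ball_zero_iff] at hy
    have hcn : ‖c‖ = 1 - δ := by
      rw [hc, Complex.norm_real, Real.norm_of_nonneg (by linarith)]
    have hle : ‖c * z + y‖ ≤ (1 - δ) * ‖z‖ + ‖y‖ := by
      refine (norm_add_le _ _).trans ?_
      rw [norm_mul, hcn]
    have hm := hw.mean (c * z + y) ((1 - δ) * r) (mul_pos (by linarith) hr)
      (closedBall_subset_of (by nlinarith))
    rw [Real.circleAverage_def, smul_eq_mul, intervalIntegral.integral_of_le hpi.le] at hm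
    refine hm.trans (le_of_eq ?_)
    congr 1
    refine integral_congr_ae (Eventually.of_forall fun θ => ?_)
    have : circleMap (c * z + y) ((1 - δ) * r) θ = c * circleMap z r θ + y := by
      rw [circleMap, circleMap, hc]
      push_cast
      ring
    simp only [this]
  have : IsFiniteMeasure (volume.restrict (ball (0 : ℂ) δ)) :=
    ⟨by rw [Measure.restrict_apply_univ]; exact measure_ball_lt_top⟩
  have hI1 : IntegrableOn (fun y => w (c * z + y)) (ball (0 : ℂ) δ) := by
    refine Integrable.of_bound (C := 1)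
      (hw.meas.comp (measurable_const.add measurable_id)).aestronglyMeasurable
      (Eventually.of_forall fun y => ?_)
    rw [Real.norm_of_nonneg (hw.nonneg _)]
    exact hw.le_one _
  have hI2 : IntegrableOn (fun y => (2 * Real.pi)⁻¹ * ∫ θ in Ioc 0 (2 * Real.pi),
      w (c * circleMap z r θ + y)) (ball (0 : ℂ) δ) :=
    hint.integral_prod_left.const_mul _
  have h2 : ∫ y in ball (0 : ℂ) δ, w (c * z + y) ≤
      (2 * Real.pi)⁻¹ * ∫ θ in Ioc 0 (2 * Real.pi), ∫ y in ball (0 : ℂ) δ,
        w (c * circleMap z r θ + y) := by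
    refine (setIntegral_mono_on hI1 hI2 measurableSet_ball key).trans (le_of_eq ?_)
    rw [integral_const_mul]
    congr 1
    exact integral_integral_swap hint
  unfold mol
  rw [Real.circleAverage_def, smul_eq_mul, intervalIntegral.integral_of_le hpi.le, ← hc, ← hV,
    integral_const_mul]
  calc V⁻¹ * ∫ y in ball (0 : ℂ) δ, w (c * z + y)
      ≤ V⁻¹ * ((2 * Real.pi)⁻¹ * ∫ θ in Ioc 0 (2 * Real.pi), ∫ y in ball (0 : ℂ) δ,
        w (c * circleMap z r θ + y)) := mul_le_mul_of_nonneg_left h2 (inv_nonneg.2 hVnn)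
    _ = (2 * Real.pi)⁻¹ * (V⁻¹ * ∫ θ in Ioc 0 (2 * Real.pi), ∫ y in ball (0 : ℂ) δ,
        w (c * circleMap z r θ + y)) := by ring

end MPf68f16.Hall.MM
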