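import Pool.Agent.Work.MP_f68f16_an.Hall.Stmts

/-!
# Hall's lemma, item MV: values of the mollification
-/

set_option autoImplicit false

open MeasureTheory Metric Set Filter Topology

namespace MPf68f16.Hall.MV

open MPf68f16 MPf68f16.Hall

/-- The volume of a ball is positive and finite. -/
theorem vol_pos {δ : ℝ} (hδ : 0 < δ) : 0 < volume.real (ball (0 : ℂ) δ) :=
  ENNReal.toReal_pos (isOpen_ball.measure_pos volume (nonempty_ball.2 hδ)).ne'
    measure_ball_lt_top.ne

theorem shift_meas {w : ℂ → ℝ} (hw : Measurable w) (a : ℂ) : Measurable fun y => w (a + y) :=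
  hw.comp (measurable_const_add a)

theorem int_on {f : ℂ → ℝ} (hf : Measurable f) (h : ∀ z, |f z| ≤ 1) (δ : ℝ) :
    IntegrableOn f (ball (0 : ℂ) δ) :=
  Measure.integrableOn_of_bounded (M := 1) measure_ball_lt_top.ne hf.aestronglyMeasurable
    (Eventually.of_forall fun z => by rw [Real.norm_eq_abs]; exact h z)

theorem mol_le {w : ℂ → ℝ} {δ : ℝ} (hw : Sub w) (hδ : 0 < δ) (z : ℂ) (s : ℝ)
    (h : ∀ x ∈ ball (((1 - δ : ℝ) : ℂ) * z) δ, w x ≤ s) : mol w δ z ≤ s := by
  have hv := vol_pos hδ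
  have h1 : ∫ y in ball (0 : ℂ) δ, w (((1 - δ : ℝ) : ℂ) * z + y) ≤
      ∫ _y in ball (0 : ℂ) δ, s := by
    refine setIntegral_mono_on (int_on (shift_meas hw.meas _) (fun y => ?_) δ)
      (integrableOn_const measure_ball_lt_top.ne) measurableSet_ball fun y hy => ?_
    · rw [abs_of_nonneg (hw.nonneg _)]
      exact hw.le_one _
    · refine h _ ?_
      rw [mem_ball, dist_eq_norm, add_sub_cancel_left]
      exact mem_ball_zero_iff.1 hy
  rw [setIntegral_const, smul_eq_mul] at h1
  unfold mol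
  rw [inv_mul_le_iff₀ hv]
  exact h1

theorem mol_nonneg {w : ℂ → ℝ} (hw : Sub w) (δ : ℝ) (z : ℂ) : 0 ≤ mol w δ z :=
  mul_nonneg (inv_nonneg.2 measureReal_nonneg) (integral_nonneg fun _ => hw.nonneg _)

/-- The integral over an angle. -/
theorem inner {w : ℂ → ℝ} (hw : Sub w) {ρ : ℝ} (h0 : 0 < ρ) (h1 : ρ < 1) :
    0 ≤ ∫ θ in Ioo (-Real.pi) Real.pi, (w (circleMap 0 ρ θ) - w 0) := by
  have hpi := Real.pi_pos
  have hle : -Real.pi ≤ Real.pi := by linarith
  rw [← integral_Ioc_eq_integral_Ioo, ← intervalIntegral.integral_of_le hle]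
  have hm : Measurable fun θ : ℝ => w (circleMap 0 ρ θ) :=
    hw.meas.comp (continuous_circleMap 0 ρ).measurable
  have hint : ∀ a b : ℝ, IntervalIntegrable (fun θ : ℝ => w (circleMap 0 ρ θ)) volume a b := by
    intro a b
    refine (intervalIntegrable_const (c := (1 : ℝ))).mono_fun hm.aestronglyMeasurable
      (Eventually.of_forall fun θ => ?_)
    show ‖w (circleMap 0 ρ θ)‖ ≤ ‖(1 : ℝ)‖
    rw [norm_one, Real.norm_eq_abs, abs_of_nonneg (hw.nonneg _)]
    exact hw.le_one _
  rw [intervalIntegral.integral_sub (hint _ _) intervalIntegrable_const,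
    intervalIntegral.integral_const, smul_eq_mul]
  have hper : Function.Periodic (fun θ : ℝ => w (circleMap 0 ρ θ)) (2 * Real.pi) := by
    intro θ
    show w (circleMap 0 ρ (θ + 2 * Real.pi)) = w (circleMap 0 ρ θ)
    rw [periodic_circleMap 0 ρ θ]
  have h2 := hper.intervalIntegral_add_eq (-Real.pi) 0
  have e : -Real.pi + 2 * Real.pi = Real.pi := by ring
  rw [e, zero_add] at h2
  rw [h2]
  have h3 := hw.mean 0 ρ h0 (closedBall_subset_of (by rw [norm_zero]; linarith))
  rw [Real.circleAverage_def, smul_eq_mul, le_inv_mul_iff₀ (by positivity)] at h3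
  linarith

theorem polar {w : ℂ → ℝ} {δ : ℝ} (hw : Sub w) (hδ1 : δ < 1) :
    0 ≤ ∫ y in ball (0 : ℂ) δ, (w y - w 0) := by
  have hpi := Real.pi_pos
  have hb : ∀ y, |w y - w 0| ≤ 1 := by
    intro y
    rw [abs_le]
    constructor <;> linarith [hw.nonneg y, hw.nonneg 0, hw.le_one y, hw.le_one 0]
  rw [← integral_indicator measurableSet_ball, ← Complex.integral_comp_polarCoord_symm]
  obtain ⟨F, hF⟩ : ∃ F : ℂ → ℝ, F = (ball (0 : ℂ) δ).indicator fun y => w y - w 0 := ⟨_, rfl⟩
  have hFm : Measurable F := by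
    rw [hF]
    exact (hw.meas.sub_const _).indicator measurableSet_ball
  have hFb : ∀ y, |F y| ≤ 1 := by
    intro y
    by_cases hy : y ∈ ball (0 : ℂ) δ
    · rw [hF, Set.indicator_of_mem hy]
      exact hb y
    · rw [hF, Set.indicator_of_notMem hy, abs_zero]
      exact zero_le_one
  have hF0 : ∀ y, δ ≤ ‖y‖ → F y = 0 := by
    intro y hy
    rw [hF, Set.indicator_of_notMem]
    rw [mem_ball_zero_iff]
    exact not_lt.2 hy
  have hF1 : ∀ y, ‖y‖ < δ → F y = w y - w 0 := by
    intro y hy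
    rw [hF, Set.indicator_of_mem (mem_ball_zero_iff.2 hy)]
  rw [← hF]
  have hsm : Measurable fun p : ℝ × ℝ => Complex.polarCoord.symm p := by
    have e : (fun p : ℝ × ℝ => Complex.polarCoord.symm p) =
        fun p : ℝ × ℝ => (p.1 : ℂ) * (Real.cos p.2 + Real.sin p.2 * Complex.I) := by
      funext p
      exact Complex.polarCoord_symm_apply p
    rw [e]
    fun_prop
  have htar : polarCoord.target = Ioi (0 : ℝ) ×ˢ Ioo (-Real.pi) Real.pi := rfl
  rw [htar]
  have hsub : Ioo (0 : ℝ) δ ×ˢ Ioo (-Real.pi) Real.pi ⊆ Ioi (0 : ℝ) ×ˢ Ioo (-Real.pi) Real.pi :=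
    Set.prod_mono (fun _ hx => hx.1) le_rfl
  rw [setIntegral_eq_of_subset_of_forall_sdiff_eq_zero
    (measurableSet_Ioi.prod measurableSet_Ioo) hsub ?_]
  · have hint : IntegrableOn (fun p : ℝ × ℝ => p.1 • F (Complex.polarCoord.symm p))
        (Ioo (0 : ℝ) δ ×ˢ Ioo (-Real.pi) Real.pi) (volume.prod volume) := by
      refine Measure.integrableOn_of_bounded (M := 1) ?_ ?_ ?_
      · rw [Measure.prod_prod, Real.volume_Ioo, Real.volume_Ioo]
        exact ENNReal.mul_ne_top ENNReal.ofReal_ne_top ENNReal.ofReal_ne_top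
      · exact (measurable_fst.smul (hFm.comp hsm)).aestronglyMeasurable
      · refine (ae_restrict_mem (measurableSet_Ioo.prod measurableSet_Ioo)).mono fun p hp => ?_
        rw [norm_smul, Real.norm_eq_abs, Real.norm_eq_abs, abs_of_pos hp.1.1]
        have h1 := hFb (Complex.polarCoord.symm p)
        have h2 := hp.1.2
        have h3 := hp.1.1
        have h4 := abs_nonneg (F (Complex.polarCoord.symm p))
        nlinarith
    have e := setIntegral_prod (μ := (volume : Measure ℝ)) (ν := (volume : Measure ℝ)) _ hint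
    rw [← Measure.volume_eq_prod] at e
    rw [e]
    refine setIntegral_nonneg measurableSet_Ioo fun ρ hρ => ?_
    have h1 : ∫ θ in Ioo (-Real.pi) Real.pi, ρ • F (Complex.polarCoord.symm (ρ, θ)) =
        ρ * ∫ θ in Ioo (-Real.pi) Real.pi, (w (circleMap 0 ρ θ) - w 0) := by
      rw [← integral_const_mul]
      refine setIntegral_congr_fun measurableSet_Ioo fun θ _ => ?_
      have h2 : Complex.polarCoord.symm (ρ, θ) = circleMap 0 ρ θ := by
        rw [Complex.polarCoord_symm_apply, circleMap_zero, Complex.exp_mul_I]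
        push_cast
        ring
      have h3 : ‖circleMap 0 ρ θ‖ < δ := by
        rw [norm_circleMap_zero, abs_of_pos hρ.1]
        exact hρ.2
      show ρ • F (Complex.polarCoord.symm (ρ, θ)) = ρ * (w (circleMap 0 ρ θ) - w 0)
      rw [h2, hF1 _ h3, smul_eq_mul]
    rw [h1]
    exact mul_nonneg hρ.1.le (inner hw hρ.1 (hρ.2.trans hδ1))
  · intro p hp
    have h1 : δ ≤ ‖Complex.polarCoord.symm p‖ := by
      rw [Complex.norm_polarCoord_symm, abs_of_pos hp.1.1]
      by_contra h
      exact hp.2 ⟨⟨hp.1.1, not_le.1 h⟩, hp.1.2⟩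
    rw [hF0 _ h1, smul_zero]

theorem mol_zero {w : ℂ → ℝ} {δ : ℝ} (hw : Sub w) (hδ : 0 < δ) (hδ1 : δ < 1) :
    w 0 ≤ mol w δ 0 := by
  have hv := vol_pos hδ
  have h1 := polar hw hδ1
  have h2 : IntegrableOn w (ball (0 : ℂ) δ) := int_on hw.meas (fun y => by
    rw [abs_of_nonneg (hw.nonneg _)]
    exact hw.le_one _) δ
  rw [integral_sub h2 (integrableOn_const measure_ball_lt_top.ne), setIntegral_const,
    smul_eq_mul] at h1
  unfold mol
  rw [le_inv_mul_iff₀ hv]
  simp only [mul_zero, zero_add]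
  linarith

theorem prf : H_MV := by
  intro w δ hw hδ hδ1
  refine ⟨mol_zero hw hδ hδ1, fun z => ⟨mol_nonneg hw δ z, ?_⟩, fun z s h => mol_le hw hδ z s h⟩
  exact mol_le hw hδ z 1 fun x _ => hw.le_one x

end MPf68f16.Hall.MV
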