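import Pool.Agent.Work.MP_f68f16_an.Hall.Stmts

/-!
# Hall's lemma, item MX: the maximum principle
-/

set_option autoImplicit false

open MeasureTheory Metric Set Filter Topology

namespace MPf68f16.Hall.MX

open MPf68f16 MPf68f16.Hall

theorem compact (D : Set ℂ) (w : ℂ → ℝ) (hD : IsOpen D) (hDb : Bornology.IsBounded D)
    (hw : UpperSemicontinuousOn w D)
    (hb : ∀ ζ ∈ frontier D, ∀ ε : ℝ, 0 < ε → ∀ᶠ z in 𝓝[D] ζ, w z < ε) (δ : ℝ) (hδ : 0 < δ) :
    IsCompact {z | z ∈ D ∧ δ ≤ w z} := by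
  apply Metric.isCompact_of_isClosed_isBounded
  · rw [← closure_subset_iff_isClosed]
    intro ζ hζ
    have h1 : ζ ∈ closure D := closure_mono (fun z hz => hz.1) hζ
    have h2 : ∃ᶠ z in 𝓝[D] ζ, δ ≤ w z := by
      rw [frequently_nhdsWithin_iff]
      have := mem_closure_iff_frequently.1 hζ
      exact this.mono fun z hz => ⟨hz.2, hz.1⟩
    by_cases h3 : ζ ∈ D
    · refine ⟨h3, ?_⟩
      by_contra h4
      push Not at h4
      have h5 := hw ζ h3 δ h4
      obtain ⟨z, hz1, hz2⟩ := (h2.and_eventually h5).exists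
      exact absurd hz2 (not_lt.2 hz1)
    · exfalso
      have h4 : ζ ∈ frontier D := by
        rw [hD.frontier_eq]
        exact ⟨h1, h3⟩
      obtain ⟨z, hz1, hz2⟩ := (h2.and_eventually (hb ζ h4 δ hδ)).exists
      exact absurd hz2 (not_lt.2 hz1)
  · exact hDb.subset fun z hz => hz.1

theorem prf : H_MX := by
  intro D w hD hDb hw hsub hb
  by_contra hcon
  push Not at hcon
  obtain ⟨z1, hz1, hw1⟩ := hcon
  have hK := compact D w hD hDb hw hb (w z1) hw1
  have hne : {z | z ∈ D ∧ w z1 ≤ w z}.Nonempty := ⟨z1, hz1, le_rfl⟩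
  obtain ⟨a, haK, hamax⟩ := UpperSemicontinuousOn.exists_isMaxOn hne hK
    (hw.mono fun z hz => hz.1)
  have hm0 : 0 < w a := lt_of_lt_of_le hw1 haK.2
  have hmax : ∀ z ∈ D, w z ≤ w a := by
    intro z hz
    by_cases h : w z1 ≤ w z
    · exact hamax (show z ∈ {z | z ∈ D ∧ w z1 ≤ w z} from ⟨hz, h⟩)
    · push Not at h
      exact h.le.trans haK.2
  have hZ := compact D w hD hDb hw hb (w a) hm0
  obtain ⟨z0, hz0, hre⟩ := hZ.exists_isMaxOn ⟨a, haK.1, le_rfl⟩ Complex.continuous_re.continuousOn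
  obtain ⟨ε, hε, hball⟩ := Metric.isOpen_iff.1 hD z0 hz0.1
  obtain ⟨r₀, hr₀, hmean⟩ := hsub z0 hz0.1
  obtain ⟨r, hr, hrε, hrr₀⟩ : ∃ r : ℝ, 0 < r ∧ r < ε ∧ r < r₀ := by
    have h1 : 0 < min ε r₀ := lt_min hε hr₀
    exact ⟨min ε r₀ / 2, by linarith, by linarith [min_le_left ε r₀],
      by linarith [min_le_right ε r₀]⟩
  obtain ⟨hci, hs⟩ := hmean r hr hrr₀
  have hcb : closedBall z0 r ⊆ D := (closedBall_subset_ball hrε).trans hball
  have hcirc : ∀ θ, circleMap z0 r θ ∈ D := fun θ =>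
    hcb (circleMap_mem_closedBall z0 hr.le θ)
  set h : ℝ → ℝ := fun θ => w (circleMap z0 r θ) with hh
  have husc : UpperSemicontinuous h := by
    intro θ y hy
    have h1 := hw _ (hcirc θ) y hy
    have h2 : Tendsto (circleMap z0 r) (𝓝 θ) (𝓝[D] (circleMap z0 r θ)) := by
      apply tendsto_nhdsWithin_iff.2
      exact ⟨(continuous_circleMap z0 r).continuousAt, Eventually.of_forall hcirc⟩
    exact h2.eventually h1
  have h0 : h 0 < w a := by
    by_contra hn
    push Not at hn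
    have h1 : circleMap z0 r 0 ∈ {z | z ∈ D ∧ w a ≤ w z} := ⟨hcirc 0, hn⟩
    have h2 := hre h1
    simp [circleMap] at h2
    linarith
  obtain ⟨c, hc1, hc2⟩ := exists_between h0
  have h1 := husc 0 c hc1
  obtain ⟨η, hη, hηb⟩ := Metric.eventually_nhds_iff.1 h1
  have hpi := Real.pi_pos
  obtain ⟨t, ht0, ht1, ht2⟩ : ∃ t : ℝ, 0 < t ∧ t < η ∧ t ≤ Real.pi :=
    ⟨min (η / 2) Real.pi, lt_min (by positivity) hpi,
      lt_of_le_of_lt (min_le_left _ _) (by linarith), min_le_right _ _⟩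
  have hint : IntervalIntegrable h volume 0 (2 * Real.pi) := hci
  have hint1 : IntervalIntegrable h volume 0 t := by
    refine hint.mono_set ?_
    rw [uIcc_of_le ht0.le, uIcc_of_le (by linarith)]
    exact Icc_subset_Icc le_rfl (by linarith)
  have hint2 : IntervalIntegrable h volume t (2 * Real.pi) := by
    refine hint.mono_set ?_
    rw [uIcc_of_le (by linarith), uIcc_of_le (by linarith)]
    exact Icc_subset_Icc ht0.le le_rfl
  have hI1 : ∫ θ in (0 : ℝ)..t, h θ ≤ c * t := by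
    have h2 : ∫ θ in (0 : ℝ)..t, h θ ≤ ∫ θ in (0 : ℝ)..t, c := by
      apply intervalIntegral.integral_mono_on ht0.le hint1 (by simp)
      intro θ hθ
      apply (hηb _).le
      rw [Real.dist_eq, sub_zero, abs_of_nonneg hθ.1]
      linarith [hθ.2]
    rw [intervalIntegral.integral_const] at h2
    simpa [mul_comm] using h2
  have hI2 : ∫ θ in t..(2 * Real.pi), h θ ≤ w a * (2 * Real.pi - t) := by
    have h2 : ∫ θ in t..(2 * Real.pi), h θ ≤ ∫ θ in t..(2 * Real.pi), w a := by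
      apply intervalIntegral.integral_mono_on (by linarith) hint2 (by simp)
      intro θ _
      exact hmax _ (hcirc θ)
    rw [intervalIntegral.integral_const] at h2
    simpa [mul_comm] using h2
  have hI := intervalIntegral.integral_add_adjacent_intervals hint1 hint2
  rw [Real.circleAverage_def] at hs
  have hs2 : (2 * Real.pi)⁻¹ • ∫ θ in (0 : ℝ)..(2 * Real.pi), w (circleMap z0 r θ) < w a := by
    show (2 * Real.pi)⁻¹ * ∫ θ in (0 : ℝ)..(2 * Real.pi), h θ < w a
    rw [inv_mul_lt_iff₀ (by positivity), ← hI]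
    have h3 : c * t < w a * t := mul_lt_mul_of_pos_right hc2 ht0
    nlinarith
  exact absurd (lt_of_le_of_lt hs hs2) (not_lt.2 hz0.2)

end MPf68f16.Hall.MX
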