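import Pool.Agent.Work.MP_f68f16_an.Hall.Stmts

set_option autoImplicit false

/-! Item N1: composition of a subharmonic function with an analytic map, non critical points. -/

open MeasureTheory Metric Set Filter Topology

namespace MPf68f16.Hall.N1

open MPf68f16 MPf68f16.Hall

/-- The mean value property of the real part of a differentiable function. -/
theorem remean {f : ℂ → ℂ} {V : Set ℂ} {z : ℂ} {r : ℝ} (hf : DifferentiableOn ℂ f V) (hr : 0 < r)
    (hz : closedBall z r ⊆ V) :
    CircleIntegrable (fun w => (f w).re) z r ∧ Real.circleAverage (fun w => (f w).re) z r = (f z).re := by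
  have hd' : DiffContOnCl ℂ f (ball z |r|) := by
    rw [abs_of_pos hr]
    refine DifferentiableOn.diffContOnCl ?_
    rw [closure_ball z hr.ne']
    exact hf.mono hz
  have h1 : Real.circleAverage f z r = f z := hd'.circleAverage
  have hc : ContinuousOn f (sphere z r) := hf.continuousOn.mono (sphere_subset_closedBall.trans hz)
  have hci : CircleIntegrable f z r := by
    refine ContinuousOn.circleIntegrable' ?_
    rw [abs_of_pos hr]
    exact hc
  refine ⟨?_, ?_⟩
  · refine ContinuousOn.circleIntegrable' ?_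
    rw [abs_of_pos hr]
    exact Complex.continuous_re.comp_continuousOn hc
  · have h3 : Real.circleAverage (fun w => (f w).re) z r = (Real.circleAverage f z r).re := by
      rw [Real.circleAverage_def, Real.circleAverage_def, Complex.smul_re]
      congr 1
      exact intervalIntegral.intervalIntegral_re hci
    rw [h3, h1]

theorem main (h1 : H_MX) (h2 : H_PT) (u : ℂ → ℝ) (ψ : ℂ → ℂ) (a : ℂ)
    (hu : ContinuousOn u (ball 0 1)) (hsmv : SMV u) (hψ : DifferentiableOn ℂ ψ (ball 0 1))
    (hmaps : MapsTo ψ (ball 0 1) (ball 0 1)) (ha : a ∈ ball (0 : ℂ) 1) (hne : deriv ψ a ≠ 0) :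
    ∃ r₀ : ℝ, 0 < r₀ ∧ ∀ r : ℝ, 0 < r → r < r₀ →
    CircleIntegrable (fun z => u (ψ z)) a r ∧
      u (ψ a) ≤ Real.circleAverage (fun z => u (ψ z)) a r := by
  have hana : AnalyticOnNhd ℂ ψ (ball 0 1) := hψ.analyticOnNhd isOpen_ball
  have hstr : HasStrictDerivAt ψ (deriv ψ a) a := (hana a ha).hasStrictDerivAt
  have hstr2 := hstr.hasStrictFDerivAt_equiv hne
  obtain ⟨e, he⟩ : ∃ e : OpenPartialHomeomorph ℂ ℂ,
      e = HasStrictFDerivAt.toOpenPartialHomeomorph ψ hstr2 := ⟨_, rfl⟩
  have hecoe : ∀ z, e z = ψ z := by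
    intro z
    rw [he]
    rfl
  have haS : a ∈ e.source := by
    rw [he]
    exact HasStrictFDerivAt.mem_toOpenPartialHomeomorph_source hstr2
  have hdc : ContinuousAt (deriv ψ) a := (hana a ha).deriv.continuousAt
  have hev : ∀ᶠ z in 𝓝 a, z ∈ e.source ∧ z ∈ ball (0 : ℂ) 1 ∧ deriv ψ z ≠ 0 := by
    exact Filter.Eventually.and (e.open_source.mem_nhds haS)
      (Filter.Eventually.and (isOpen_ball.mem_nhds ha) (hdc.eventually_ne hne))
  obtain ⟨r₀, hr₀, hball⟩ := Metric.nhds_basis_closedBall.mem_iff.1 hev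
  refine ⟨r₀, hr₀, ?_⟩
  intro r hr hrr
  have hB : closedBall a r ⊆ closedBall a r₀ := closedBall_subset_closedBall hrr.le
  have hS : ∀ z ∈ closedBall a r, z ∈ e.source := fun z hz => (hball (hB hz)).1
  have hD : ∀ z ∈ closedBall a r, z ∈ ball (0 : ℂ) 1 := fun z hz => (hball (hB hz)).2.1
  have hN : ∀ z ∈ closedBall a r, deriv ψ z ≠ 0 := fun z hz => (hball (hB hz)).2.2
  have huψ : ContinuousOn (fun z => u (ψ z)) (ball 0 1) := hu.comp hψ.continuousOn hmaps
  have hcs : ContinuousOn (fun z => u (ψ z)) (sphere a r) :=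
    huψ.mono fun z hz => hD z (sphere_subset_closedBall hz)
  have hCI : CircleIntegrable (fun z => u (ψ z)) a r := by
    refine ContinuousOn.circleIntegrable' ?_
    rw [abs_of_pos hr]
    exact hcs
  refine ⟨hCI, ?_⟩
  refine le_of_forall_pos_le_add fun ε hε => ?_
  obtain ⟨p, hp⟩ := h2 a r (fun z => u (ψ z)) hr hcs ε hε
  -- the image of the ball
  obtain ⟨U, hU⟩ : ∃ U : Set ℂ, U = e.target ∩ e.symm ⁻¹' (ball a r) := ⟨_, rfl⟩
  have hUo : IsOpen U := by
    rw [hU]
    exact e.continuousOn_symm.isOpen_inter_preimage e.open_target isOpen_ball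
  have hUt : ∀ y ∈ U, y ∈ e.target ∧ e.symm y ∈ ball a r ∧ ψ (e.symm y) = y := by
    intro y hy
    rw [hU] at hy
    refine ⟨hy.1, hy.2, ?_⟩
    rw [← hecoe]
    exact e.right_inv hy.1
  have hUD : U ⊆ ball (0 : ℂ) 1 := by
    intro y hy
    obtain ⟨_, h4, h5⟩ := hUt y hy
    rw [← h5]
    exact hmaps (hD _ (ball_subset_closedBall h4))
  have hmem : ∀ z ∈ ball a r, ψ z ∈ U := by
    intro z hz
    have h4 := hS z (ball_subset_closedBall hz)
    rw [hU, ← hecoe]
    refine ⟨e.map_source h4, ?_⟩
    rw [mem_preimage, e.left_inv h4]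
    exact hz
  have hgd : ∀ y ∈ e.target, e.symm y ∈ closedBall a r →
      HasDerivAt e.symm (deriv ψ (e.symm y))⁻¹ y := by
    intro y hy hy2
    have h4 : HasDerivAt ψ (deriv ψ (e.symm y)) (e.symm y) :=
      ((hψ _ (hD _ hy2)).differentiableAt (isOpen_ball.mem_nhds (hD _ hy2))).hasDerivAt
    have h5 : HasDerivAt e (deriv ψ (e.symm y)) (e.symm y) := by
      have h6 : (e : ℂ → ℂ) = ψ := funext hecoe
      rw [h6]
      exact h4
    exact e.hasDerivAt_symm hy (hN _ hy2) h5
  have hgD : DifferentiableOn ℂ e.symm U := by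
    intro y hy
    obtain ⟨h3, h4, _⟩ := hUt y hy
    exact (hgd y h3 (ball_subset_closedBall h4)).differentiableAt.differentiableWithinAt
  have hpg : DifferentiableOn ℂ (fun y => p.eval (e.symm y)) U := by
    have h3 : Differentiable ℂ (fun y : ℂ => p.eval y) := p.differentiable
    exact h3.comp_differentiableOn hgD
  obtain ⟨w, hw⟩ : ∃ w : ℂ → ℝ, w = fun y => u y - (p.eval (e.symm y)).re := ⟨_, rfl⟩
  have hwc : ContinuousOn w U := by
    rw [hw]
    exact (hu.mono hUD).sub (Complex.continuous_re.comp_continuousOn hpg.continuousOn)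
  have hlsm : LSM U w := by
    intro z hz
    obtain ⟨r₁, hr₁, hb⟩ := Metric.nhds_basis_closedBall.mem_iff.1 (hUo.mem_nhds hz)
    refine ⟨r₁, hr₁, fun ρ hρ hρ1 => ?_⟩
    have hρU : closedBall z ρ ⊆ U := (closedBall_subset_closedBall hρ1.le).trans hb
    obtain ⟨c1, c2⟩ := remean hpg hρ hρU
    have c3 : CircleIntegrable u z ρ := by
      refine ContinuousOn.circleIntegrable' ?_
      rw [abs_of_pos hρ]
      exact hu.mono ((sphere_subset_closedBall.trans hρU).trans hUD)
    have c4 := hsmv z ρ hρ (hρU.trans hUD)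
    have c5 : CircleIntegrable w z ρ := by
      refine ContinuousOn.circleIntegrable' ?_
      rw [abs_of_pos hρ]
      exact hwc.mono (sphere_subset_closedBall.trans hρU)
    refine ⟨c5, ?_⟩
    have c6 : Real.circleAverage w z ρ =
        Real.circleAverage u z ρ - Real.circleAverage (fun y => (p.eval (e.symm y)).re) z ρ := by
      rw [hw]
      exact Real.circleAverage_fun_sub c3 c1
    rw [c6, c2]
    have c7 : w z = u z - (p.eval (e.symm z)).re := by rw [hw]
    rw [c7]
    linarith
  -- the frontier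
  have hclos : closure U ⊆ ψ '' closedBall a r := by
    have hcomp : IsCompact (ψ '' closedBall a r) :=
      (isCompact_closedBall a r).image_of_continuousOn (hψ.continuousOn.mono hD)
    refine closure_minimal ?_ hcomp.isClosed
    intro y hy
    obtain ⟨_, h4, h5⟩ := hUt y hy
    exact ⟨e.symm y, ball_subset_closedBall h4, h5⟩
  have hfr : ∀ ζ ∈ frontier U, ∀ δ : ℝ, 0 < δ → ∀ᶠ z in 𝓝[U] ζ, w z < δ := by
    intro ζ hζ δ hδ
    rw [hUo.frontier_eq] at hζ
    obtain ⟨b, hb, hbζ⟩ := hclos hζ.1
    have hbs : b ∈ sphere a r := by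
      rcases lt_or_eq_of_le (mem_closedBall.1 hb) with h3 | h3
      · exact absurd (hbζ ▸ hmem b (mem_ball.2 h3)) hζ.2
      · exact mem_sphere.2 h3
    have hζt : ζ ∈ e.target := by
      rw [← hbζ, ← hecoe]
      exact e.map_source (hS b hb)
    have hζb : e.symm ζ = b := by
      rw [← hbζ, ← hecoe]
      exact e.left_inv (hS b hb)
    have hcg : ContinuousAt e.symm ζ := e.continuousAt_symm hζt
    have hζD : ζ ∈ ball (0 : ℂ) 1 := by
      rw [← hbζ]
      exact hmaps (hD b hb)
    have hcu : ContinuousAt u ζ := hu.continuousAt (isOpen_ball.mem_nhds hζD)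
    have hcw : ContinuousAt w ζ := by
      rw [hw]
      refine hcu.sub (Complex.continuous_re.continuousAt.comp ?_)
      exact ContinuousAt.comp (g := fun y : ℂ => p.eval y) p.continuous.continuousAt hcg
    have hwζ : w ζ ≤ 0 := by
      have c7 : w ζ = u ζ - (p.eval (e.symm ζ)).re := by rw [hw]
      rw [c7, hζb, ← hbζ]
      have := (hp b hbs).1
      linarith
    exact (hcw.eventually_lt_const (by linarith : w ζ < δ)).filter_mono nhdsWithin_le_nhds
  have hbd : Bornology.IsBounded U := isBounded_ball.subset hUD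
  have haU : ψ a ∈ U := hmem a (mem_ball_self hr)
  have hfin := h1 U w hUo hbd hwc.upperSemicontinuousOn hlsm hfr (ψ a) haU
  have hga : e.symm (ψ a) = a := by
    rw [← hecoe]
    exact e.left_inv haS
  have c8 : w (ψ a) = u (ψ a) - (p.eval a).re := by
    rw [hw]
    show u (ψ a) - (p.eval (e.symm (ψ a))).re = _
    rw [hga]
  have hpd : DifferentiableOn ℂ (fun y : ℂ => p.eval y) univ := p.differentiable.differentiableOn
  obtain ⟨d1, d2⟩ := remean (z := a) hpd hr (subset_univ _)
  have d3 : Real.circleAverage (fun w => (p.eval w).re) a r ≤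
      Real.circleAverage (fun z => u (ψ z) + ε) a r := by
    refine Real.circleAverage_mono d1 (hCI.add (circleIntegrable_const ε a r)) ?_
    intro x hx
    rw [abs_of_pos hr] at hx
    exact (hp x hx).2
  have d4 : Real.circleAverage (fun z => u (ψ z) + ε) a r =
      Real.circleAverage (fun z => u (ψ z)) a r + ε := by
    rw [Real.circleAverage_fun_add hCI (circleIntegrable_const ε a r), Real.circleAverage_const]
  linarith

theorem prf (h1 : H_MX) (h2 : H_PT) : H_N1 := fun u ψ a hu hs hψ hm ha hne =>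
  main h1 h2 u ψ a hu hs hψ hm ha hne

end MPf68f16.Hall.N1
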