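import Pool.Agent.Work.MP_f68f16_an.Hall.Stmts

/-! Hall's lemma, item N2 (helper19): removable points. -/

set_option autoImplicit false

open MeasureTheory Metric Set Filter Topology InnerProductSpace

namespace MPf68f16.Hall.N2

open MPf68f16 MPf68f16.Hall

theorem cont_re (p : Polynomial ℂ) : Continuous (fun y : ℂ => (p.eval y).re) :=
  Complex.continuous_re.comp p.continuous

theorem mv_poly (p : Polynomial ℂ) (z : ℂ) (r : ℝ) :
    Real.circleAverage (fun y => (p.eval y).re) z r = (p.eval z).re := by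
  have h1 : CircleIntegrable (fun y => p.eval y) z r :=
    p.continuous.continuousOn.circleIntegrable'
  have h2 := Complex.reCLM.circleAverage_comp_comm h1
  have h3 : Real.circleAverage (fun y => p.eval y) z r = p.eval z :=
    DiffContOnCl.circleAverage (p.differentiable.diffContOnCl)
  rw [h3] at h2
  exact h2

/-- logarithm of the distance to `a`, normalized -/
noncomputable def L (a : ℂ) (r : ℝ) (y : ℂ) : ℝ := Real.log ‖(y - a) / (r : ℂ)‖

theorem L_harm {a : ℂ} {r : ℝ} (hr : 0 < r) {y : ℂ} (hy : y ≠ a) : HarmonicAt (L a r) y := by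
  have h1 : AnalyticAt ℂ (fun y : ℂ => (y - a) / (r : ℂ)) y :=
    (analyticAt_id.sub analyticAt_const).div_const
  refine h1.harmonicAt_log_norm ?_
  have hr' : (r : ℂ) ≠ 0 := by exact_mod_cast hr.ne'
  exact div_ne_zero (sub_ne_zero.2 hy) hr'

theorem L_cont {a : ℂ} {r : ℝ} (hr : 0 < r) {y : ℂ} (hy : y ≠ a) : ContinuousAt (L a r) y := by
  have h2 : ContinuousAt (fun y : ℂ => ‖(y - a) / (r : ℂ)‖) y :=
    ((continuous_id.sub continuous_const).div_const _).norm.continuousAt
  refine h2.log ?_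
  have hr' : (r : ℂ) ≠ 0 := by exact_mod_cast hr.ne'
  exact norm_ne_zero_iff.2 (div_ne_zero (sub_ne_zero.2 hy) hr')

theorem L_eq {a : ℂ} {r : ℝ} (hr : 0 < r) (y : ℂ) : L a r y = Real.log (‖y - a‖ / r) := by
  unfold L
  rw [norm_div, Complex.norm_real, Real.norm_of_nonneg hr.le]

theorem L_mv {a : ℂ} {r : ℝ} (hr : 0 < r) {y : ℂ} {ρ : ℝ} (hρ : 0 < ρ) (h : ρ < ‖y - a‖) :
    Real.circleAverage (L a r) y ρ = L a r y := by
  refine InnerProductSpace.HarmonicOnNhd.circleAverage_eq fun x hx => L_harm hr fun hxa => ?_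
  rw [abs_of_pos hρ, mem_closedBall, dist_eq_norm, hxa, norm_sub_rev] at hx
  linarith

theorem L_ci {a : ℂ} {r : ℝ} (hr : 0 < r) {y : ℂ} {ρ : ℝ} (hρ : 0 < ρ) (h : ρ < ‖y - a‖) :
    CircleIntegrable (L a r) y ρ := by
  refine ContinuousOn.circleIntegrable hρ.le fun x hx => (L_cont hr fun hxa => ?_).continuousWithinAt
  rw [mem_sphere, dist_eq_norm, hxa, norm_sub_rev] at hx
  linarith

theorem front {a : ℂ} {r : ℝ} {ζ : ℂ} (h : ζ ∈ frontier (ball a r \ {a})) :
    ζ ∈ sphere a r ∨ ζ = a := by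
  have ho : IsOpen (ball a r \ {a}) := isOpen_ball.sdiff isClosed_singleton
  rw [ho.frontier_eq] at h
  obtain ⟨h1, h2⟩ := h
  have h3 : ζ ∈ closedBall a r :=
    closure_ball_subset_closedBall (closure_mono sdiff_subset h1)
  rcases lt_or_eq_of_le (mem_closedBall.1 h3) with h4 | h4
  · right
    by_contra h5
    exact h2 ⟨h4, h5⟩
  · left
    exact h4

theorem comp (hMX : H_MX) {v : ℂ → ℝ} {a : ℂ} {r R : ℝ} (hr : 0 < r) (hrR : r < R)
    (hv : ContinuousOn v (ball a R)) (hl : LSM (ball a R \ {a}) v) (p : Polynomial ℂ)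
    (hp : ∀ y ∈ sphere a r, v y ≤ (p.eval y).re) {η : ℝ} (hη : 0 < η) {y : ℂ}
    (hy : y ∈ ball a r \ {a}) : v y - (p.eval y).re + η * L a r y ≤ 0 := by
  have ho : IsOpen (ball a r \ {a}) := isOpen_ball.sdiff isClosed_singleton
  have hvat : ∀ x ∈ ball a R, ContinuousAt v x := fun x hx => hv.continuousAt (isOpen_ball.mem_nhds hx)
  have hcat : ∀ x ∈ ball a R, x ≠ a →
      ContinuousAt (fun x => v x - (p.eval x).re + η * L a r x) x := fun x hx hxa =>
    ((hvat x hx).sub (cont_re p).continuousAt).add (continuousAt_const.mul (L_cont hr hxa))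
  refine hMX (ball a r \ {a}) (fun x => v x - (p.eval x).re + η * L a r x) ho
    (isBounded_ball.subset sdiff_subset) ?_ ?_ ?_ y hy
  · refine ContinuousOn.upperSemicontinuousOn fun x hx => ?_
    exact (hcat x (ball_subset_ball hrR.le hx.1) hx.2).continuousWithinAt
  · intro x hx
    obtain ⟨r₀, h0, h1⟩ := hl x ⟨ball_subset_ball hrR.le hx.1, hx.2⟩
    have hxa : 0 < ‖x - a‖ := norm_pos_iff.2 (sub_ne_zero.2 hx.2)
    refine ⟨min r₀ ‖x - a‖, lt_min h0 hxa, fun ρ hρ hρr => ?_⟩
    obtain ⟨h2, h3⟩ := h1 ρ hρ (lt_of_lt_of_le hρr (min_le_left _ _))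
    have h4 : CircleIntegrable (fun y : ℂ => (p.eval y).re) x ρ :=
      (cont_re p).continuousOn.circleIntegrable'
    have h5 := lt_of_lt_of_le hρr (min_le_right _ _)
    have h6 : CircleIntegrable (fun y => η * L a r y) x ρ := (L_ci hr hρ h5).const_mul η
    have h7 : CircleIntegrable (fun y => v y - (p.eval y).re) x ρ := h2.sub h4
    refine ⟨h7.add h6, ?_⟩
    have h8 : Real.circleAverage (fun y => η * L a r y) x ρ = η * L a r x := by
      have := Real.circleAverage_fun_smul (a := η) (f := L a r) (c := x) (R := ρ)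
      simp only [smul_eq_mul] at this
      rw [this, L_mv hr hρ h5]
    rw [Real.circleAverage_fun_add h7 h6, h8, Real.circleAverage_fun_sub h2 h4, mv_poly]
    simp only
    linarith
  · intro ζ hζ ε hε
    rcases front hζ with h1 | h1
    · have hζa : ζ ≠ a := by
        rintro rfl
        rw [mem_sphere, dist_self] at h1
        linarith
      have h2 := hcat ζ (sphere_subset_ball hrR h1) hζa
      have h3 : L a r ζ = 0 := by
        rw [L_eq hr, ← dist_eq_norm, mem_sphere.1 h1, div_self hr.ne', Real.log_one]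
      have h4 : v ζ - (p.eval ζ).re + η * L a r ζ < ε := by
        rw [h3]
        have := hp ζ h1
        linarith
      exact nhdsWithin_le_nhds (h2.eventually (gt_mem_nhds h4))
    · subst h1
      obtain ⟨K, hK⟩ : ∃ K : ℝ, K = (v ζ - (p.eval ζ).re + 2) / η := ⟨_, rfl⟩
      have h1 : ∀ᶠ x in 𝓝 ζ, v x < v ζ + 1 :=
        (hvat ζ (mem_ball_self (hr.trans hrR))).eventually (gt_mem_nhds (by linarith))
      have h2 : ∀ᶠ x in 𝓝 ζ, (p.eval ζ).re - 1 < (p.eval x).re :=
        (cont_re p).continuousAt.eventually (lt_mem_nhds (by linarith))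
      have h3 : ∀ᶠ x in 𝓝 ζ, x ∈ ball ζ (r * Real.exp (-K)) :=
        ball_mem_nhds ζ (by positivity)
      filter_upwards [nhdsWithin_le_nhds h1, nhdsWithin_le_nhds h2, nhdsWithin_le_nhds h3,
        self_mem_nhdsWithin] with x hx1 hx2 hx3 hx4
      have h4 : 0 < ‖x - ζ‖ := norm_pos_iff.2 (sub_ne_zero.2 hx4.2)
      have h5 : L ζ r x < -K := by
        rw [L_eq hr, Real.log_lt_iff_lt_exp (by positivity), div_lt_iff₀ hr]
        rw [mem_ball, dist_eq_norm] at hx3
        linarith
      have h6 : η * L ζ r x < η * (-K) := mul_lt_mul_of_pos_left h5 hη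
      have h7 : η * K = v ζ - (p.eval ζ).re + 2 := by
        rw [hK]
        field_simp
      have h8 : η * (-K) = -(v ζ - (p.eval ζ).re + 2) := by
        rw [mul_neg, h7]
      linarith

theorem le_re (hMX : H_MX) {v : ℂ → ℝ} {a : ℂ} {r R : ℝ} (hr : 0 < r) (hrR : r < R)
    (hv : ContinuousOn v (ball a R)) (hl : LSM (ball a R \ {a}) v) (p : Polynomial ℂ)
    (hp : ∀ y ∈ sphere a r, v y ≤ (p.eval y).re) : v a ≤ (p.eval a).re := by
  have h1 : ∀ y ∈ ball a r \ {a}, v y - (p.eval y).re ≤ 0 := by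
    intro y hy
    by_contra hcon
    push Not at hcon
    obtain ⟨d, hd⟩ : ∃ d : ℝ, d = v y - (p.eval y).re := ⟨_, rfl⟩
    rw [← hd] at hcon
    have h2 : 0 < d / (|L a r y| + 1) := by positivity
    have h3 := comp hMX hr hrR hv hl p hp h2 hy
    rw [← hd] at h3
    have h4 : d / (|L a r y| + 1) * |L a r y| < d := by
      rw [div_mul_eq_mul_div, div_lt_iff₀ (by positivity)]
      nlinarith
    have h5 : -(d / (|L a r y| + 1) * |L a r y|) ≤ d / (|L a r y| + 1) * L a r y := by
      rw [← mul_neg]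
      exact mul_le_mul_of_nonneg_left (neg_abs_le _) h2.le
    linarith
  have h2 : ContinuousAt (fun y => v y - (p.eval y).re) a :=
    (hv.continuousAt (isOpen_ball.mem_nhds (mem_ball_self (hr.trans hrR)))).sub
      (cont_re p).continuousAt
  have h3 : Tendsto (fun y => v y - (p.eval y).re) (𝓝[≠] a) (𝓝 (v a - (p.eval a).re)) :=
    h2.tendsto.mono_left nhdsWithin_le_nhds
  have h4 : ∀ᶠ y in 𝓝[≠] a, v y - (p.eval y).re ≤ 0 := by
    have h5 : ∀ᶠ y in 𝓝[≠] a, y ∈ ball a r := nhdsWithin_le_nhds (ball_mem_nhds a hr)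
    filter_upwards [h5, self_mem_nhdsWithin] with y hy1 hy2
    exact h1 y ⟨hy1, hy2⟩
  have h5 := le_of_tendsto h3 h4
  linarith

theorem prf (hMX : H_MX) (hPT : H_PT) : H_N2 := by
  intro v a R hR hv hl z hz
  by_cases hza : z = a
  · subst hza
    refine ⟨R, hR, fun r hr hrR => ?_⟩
    have hc : ContinuousOn v (sphere z r) := hv.mono (sphere_subset_ball hrR)
    have hci : CircleIntegrable v z r := hc.circleIntegrable hr.le
    refine ⟨hci, le_of_forall_pos_le_add fun ε hε => ?_⟩
    obtain ⟨p, hp⟩ := hPT z r v hr hc ε hε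
    have h1 := le_re hMX hr hrR hv hl p fun y hy => (hp y hy).1
    rw [← mv_poly p z r] at h1
    refine h1.trans ?_
    have h2 : CircleIntegrable (fun y : ℂ => (p.eval y).re) z r :=
      (cont_re p).continuousOn.circleIntegrable'
    have h4 : CircleIntegrable (fun _ : ℂ => ε) z r := circleIntegrable_const _ z r
    have h5 := Real.circleAverage_mono h2 (hci.add h4) (fun y hy => ?_)
    · rw [Real.circleAverage_add hci h4, Real.circleAverage_const] at h5
      exact h5
    · rw [abs_of_pos hr] at hy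
      exact (hp y hy).2
  · exact hl z ⟨hz, hza⟩

end MPf68f16.Hall.N2
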