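import Pool.Agent.Work.MP_f68f16_an.Hall.Stmts

/-! # Hall's lemma with the sharp constant: item PT -/

set_option autoImplicit false

open MeasureTheory Metric Set Filter Topology

namespace MPf68f16.Hall.PT

open MPf68f16 MPf68f16.Hall Polynomial

theorem span_form {T : ℝ} (F : C(AddCircle T, ℂ))
    (hF : F ∈ Submodule.span ℂ (range (fourier (T := T)))) :
    ∃ p q : ℂ[X], ∀ x : AddCircle T, F x = p.eval (AddCircle.toCircle x : ℂ) +
      (starRingEnd ℂ) (q.eval (AddCircle.toCircle x : ℂ)) := by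
  induction hF using Submodule.span_induction with
  | mem F h =>
    obtain ⟨n, rfl⟩ := h
    have h1 : ∀ (m : ℕ) (x : AddCircle T), fourier (T := T) (m : ℤ) x =
        (AddCircle.toCircle x : ℂ) ^ m := by
      intro m x
      rw [fourier_apply, AddCircle.toCircle_zsmul, zpow_natCast, Circle.coe_pow]
    obtain ⟨m, rfl | rfl⟩ := n.eq_nat_or_neg
    · refine ⟨X ^ m, 0, fun x => ?_⟩
      rw [h1, eval_pow, eval_X, eval_zero, map_zero, add_zero]
    · refine ⟨0, X ^ m, fun x => ?_⟩
      rw [fourier_neg, h1, eval_pow, eval_X, eval_zero, zero_add]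
  | zero => exact ⟨0, 0, fun x => by simp⟩
  | add F G _ _ hF hG =>
    obtain ⟨p, q, h⟩ := hF
    obtain ⟨p', q', h'⟩ := hG
    refine ⟨p + p', q + q', fun x => ?_⟩
    rw [ContinuousMap.add_apply, h, h', eval_add, eval_add, map_add]
    ring
  | smul c F _ hF =>
    obtain ⟨p, q, h⟩ := hF
    refine ⟨C c * p, C ((starRingEnd ℂ) c) * q, fun x => ?_⟩
    rw [ContinuousMap.smul_apply, h, eval_mul, eval_mul, eval_C, eval_C, map_mul,
      Complex.conj_conj, smul_eq_mul]
    ring

theorem prf : H_PT := by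
  intro a r f hr hf ε hε
  have hT : Fact (0 < 2 * Real.pi) := ⟨Real.two_pi_pos⟩
  have hr0 : (r : ℂ) ≠ 0 := Complex.ofReal_ne_zero.2 hr.ne'
  have hmem : ∀ x : AddCircle (2 * Real.pi), a + r * (AddCircle.toCircle x : ℂ) ∈ sphere a r := by
    intro x
    rw [mem_sphere, dist_eq_norm, add_sub_cancel_left, norm_mul, Circle.norm_coe, mul_one,
      Complex.norm_real, Real.norm_of_nonneg hr.le]
  have hc1 : Continuous fun x : AddCircle (2 * Real.pi) => a + r * (AddCircle.toCircle x : ℂ) :=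
    continuous_const.add (continuous_const.mul
      (continuous_subtype_val.comp AddCircle.continuous_toCircle))
  have hc2 : Continuous fun x : AddCircle (2 * Real.pi) =>
      ((f (a + r * (AddCircle.toCircle x : ℂ)) : ℝ) : ℂ) :=
    Complex.continuous_ofReal.comp (hf.comp_continuous hc1 hmem)
  let g : C(AddCircle (2 * Real.pi), ℂ) := ⟨_, hc2⟩
  have hg : g ∈ (Submodule.span ℂ (range (fourier (T := 2 * Real.pi)))).topologicalClosure := by
    rw [span_fourier_closure_eq_top]
    exact Submodule.mem_top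
  have hg' : g ∈ closure ((Submodule.span ℂ (range (fourier (T := 2 * Real.pi))) :
      Submodule ℂ C(AddCircle (2 * Real.pi), ℂ)) : Set C(AddCircle (2 * Real.pi), ℂ)) := hg
  obtain ⟨F, hF, hd⟩ := Metric.mem_closure_iff.1 hg' (ε / 2) (by positivity)
  obtain ⟨p, q, hpq⟩ := span_form F hF
  refine ⟨(p + q).comp (C (r : ℂ)⁻¹ * (X - C a)) + C ((ε / 2 : ℝ) : ℂ), fun z hz => ?_⟩
  have hz1 : ‖(r : ℂ)⁻¹ * (z - a)‖ = 1 := by
    rw [mem_sphere, dist_eq_norm] at hz
    rw [norm_mul, hz, norm_inv, Complex.norm_real, Real.norm_of_nonneg hr.le,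
      inv_mul_cancel₀ hr.ne']
  obtain ⟨x, hx⟩ := (AddCircle.homeomorphCircle (T := 2 * Real.pi) Real.two_pi_pos.ne').surjective
    ⟨(r : ℂ)⁻¹ * (z - a), mem_sphere_zero_iff_norm.2 hz1⟩
  have hx' : (AddCircle.toCircle x : ℂ) = (r : ℂ)⁻¹ * (z - a) := by
    have := congrArg (fun c : Circle => (c : ℂ)) hx
    simpa only [AddCircle.homeomorphCircle_apply] using this
  have hzz : a + r * (AddCircle.toCircle x : ℂ) = z := by
    rw [hx', ← mul_assoc, mul_inv_cancel₀ hr0]
    ring
  have e1 : (((p + q).comp (C (r : ℂ)⁻¹ * (X - C a)) + C ((ε / 2 : ℝ) : ℂ)).eval z).re =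
      (F x).re + ε / 2 := by
    rw [eval_add, eval_C, eval_comp, eval_mul, eval_C, eval_sub, eval_X, eval_C, ← hx', eval_add,
      hpq x, Complex.add_re, Complex.add_re, Complex.add_re, Complex.conj_re, Complex.ofReal_re]
  have e2 : |f z - (F x).re| < ε / 2 := by
    have h1 : dist (g x) (F x) ≤ dist g F := ContinuousMap.dist_apply_le_dist x
    have h2 : g x = ((f z : ℝ) : ℂ) := by
      change ((f (a + r * (AddCircle.toCircle x : ℂ)) : ℝ) : ℂ) = _
      rw [hzz]
    rw [h2, dist_eq_norm] at h1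
    have h3 : |f z - (F x).re| ≤ ‖((f z : ℝ) : ℂ) - F x‖ := by
      have := Complex.abs_re_le_norm (((f z : ℝ) : ℂ) - F x)
      rwa [Complex.sub_re, Complex.ofReal_re] at this
    linarith
  rw [e1]
  have := abs_lt.1 e2
  constructor <;> linarith [this.1, this.2]

end MPf68f16.Hall.PT
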