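import Pool.Agent.Work.MP_f68f16_an.Hall.Stmts

/-!
# Hall's lemma with the sharp constant, item SH: compact subsets of the shadow (helper78)
-/

set_option autoImplicit false

open MeasureTheory Metric Set Filter Topology

namespace MPf68f16.Hall.SH

open MPf68f16 MPf68f16.Hall

/-- directions of the radii which meet the boundary at distance at most `1 - 1 / (n + 1)` -/
def SS (D : Set ℂ) (n : ℕ) : Set ℝ :=
  Prod.snd '' ((Icc (0 : ℝ) (1 - 1 / ((n : ℝ) + 1)) ×ˢ Icc (0 : ℝ) (2 * Real.pi)) ∩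
    (fun p : ℝ × ℝ => pt p.1 p.2) ⁻¹' frontier D)

theorem mem_SS {D : Set ℂ} {n : ℕ} {θ : ℝ} : θ ∈ SS D n ↔
    θ ∈ Icc (0 : ℝ) (2 * Real.pi) ∧ ∃ t ∈ Icc (0 : ℝ) (1 - 1 / ((n : ℝ) + 1)), pt t θ ∈ frontier D := by
  constructor
  · rintro ⟨⟨t, φ⟩, ⟨⟨ht, hφ⟩, hf⟩, rfl⟩
    exact ⟨hφ, t, ht, hf⟩
  · rintro ⟨hθ, t, ht, hf⟩
    exact ⟨(t, θ), ⟨⟨ht, hθ⟩, hf⟩, rfl⟩

theorem compact_SS (D : Set ℂ) (n : ℕ) : IsCompact (SS D n) :=
  ((isCompact_Icc.prod isCompact_Icc).inter_right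
    (isClosed_frontier.preimage continuous_pt)).image continuous_snd

theorem mono_SS (D : Set ℂ) : Monotone (SS D) := by
  intro m n hmn θ hθ
  rw [mem_SS] at hθ ⊢
  obtain ⟨h1, t, ht, hf⟩ := hθ
  refine ⟨h1, t, ⟨ht.1, ht.2.trans ?_⟩, hf⟩
  have h2 : (m : ℝ) ≤ n := by exact_mod_cast hmn
  have h3 : 1 / ((n : ℝ) + 1) ≤ 1 / ((m : ℝ) + 1) :=
    one_div_le_one_div_of_le (by positivity) (by linarith)
  linarith

theorem iUnion_SS (D : Set ℂ) : ⋃ n, SS D n = shadow D ∩ Icc 0 (2 * Real.pi) := by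
  ext θ
  rw [mem_iUnion]
  constructor
  · rintro ⟨n, hn⟩
    rw [mem_SS] at hn
    obtain ⟨h1, t, ht, hf⟩ := hn
    refine ⟨⟨t, ht.1, lt_of_le_of_lt ht.2 ?_, hf⟩, h1⟩
    have : (0 : ℝ) < 1 / ((n : ℝ) + 1) := by positivity
    linarith
  · rintro ⟨⟨t, ht0, ht1, hf⟩, h1⟩
    obtain ⟨n, hn⟩ := exists_nat_one_div_lt (sub_pos.2 ht1)
    exact ⟨n, mem_SS.2 ⟨h1, t, ⟨ht0, by linarith⟩, hf⟩⟩

theorem prf : H_SH := by
  intro D ε _ hε
  have h1 : Tendsto (fun n => volume (SS D n)) atTop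
      (𝓝 (volume (shadow D ∩ Icc 0 (2 * Real.pi)))) := by
    have h := tendsto_measure_iUnion_atTop (μ := (volume : Measure ℝ)) (mono_SS D)
    rw [iUnion_SS] at h
    exact h
  have hfin : volume (shadow D ∩ Icc 0 (2 * Real.pi)) ≠ ⊤ :=
    ne_top_of_le_ne_top isCompact_Icc.measure_lt_top.ne (measure_mono inter_subset_right)
  have h2 : Tendsto (fun n => volume.real (SS D n)) atTop
      (𝓝 (volume.real (shadow D ∩ Icc 0 (2 * Real.pi)))) := (ENNReal.tendsto_toReal hfin).comp h1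
  obtain ⟨n, hn⟩ := ((tendsto_order.1 h2).1 (volume.real (shadow D ∩ Icc 0 (2 * Real.pi)) - ε)
    (by linarith)).exists
  refine ⟨SS D n, compact_SS D n, fun θ hθ => (mem_SS.1 hθ).1, fun θ hθ => ?_, hn.le⟩
  have h3 : θ ∈ ⋃ n, SS D n := mem_iUnion.2 ⟨n, hθ⟩
  rw [iUnion_SS] at h3
  exact h3.1

end MPf68f16.Hall.SH
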