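import Pool.Agent.Work.MP_f68f16_an.All
import Pool.Agent.Work.MP_f68f16_an.Hall.I_MX
import Pool.Agent.Work.MP_f68f16_an.Hall.I_PT
import Pool.Agent.Work.MP_f68f16_an.Hall.I_GL
import Pool.Agent.Work.MP_f68f16_an.Hall.I_EX
import Pool.Agent.Work.MP_f68f16_an.Hall.I_MC
import Pool.Agent.Work.MP_f68f16_an.Hall.I_MM
import Pool.Agent.Work.MP_f68f16_an.Hall.I_MV
import Pool.Agent.Work.MP_f68f16_an.Hall.I_N1
import Pool.Agent.Work.MP_f68f16_an.Hall.I_N2
import Pool.Agent.Work.MP_f68f16_an.Hall.I_N3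
import Pool.Agent.Work.MP_f68f16_an.Hall.I_AP
import Pool.Agent.Work.MP_f68f16_an.Hall.I_CP
import Pool.Agent.Work.MP_f68f16_an.Hall.I_AR
import Pool.Agent.Work.MP_f68f16_an.Hall.I_IT
import Pool.Agent.Work.MP_f68f16_an.Hall.I_GR
import Pool.Agent.Work.MP_f68f16_an.Hall.I_G2
import Pool.Agent.Work.MP_f68f16_an.Hall.I_SH
import Pool.Agent.Work.MP_f68f16_an.Hall.I_DK
import Pool.Agent.Work.MP_f68f16_an.Hall.I_DM
import Pool.Agent.Work.MP_f68f16_an.Hall.I_F1
import Pool.Agent.Work.MP_f68f16_an.Hall.I_F2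

/-! # Hall's lemma with the sharp constant: assembly -/

set_option autoImplicit false

open MeasureTheory Metric Set Filter Topology

namespace MPf68f16.Hall

theorem all_GL : H_GL := GL.prf MX.prf PT.prf
theorem all_N3 : H_N3 := N3.prf (N1.prf MX.prf PT.prf) (N2.prf MX.prf PT.prf) all_GL
theorem all_EX : H_EX := EX.prf prf_MAX prf_CI all_GL
theorem all_AP : H_AP := AP.prf MC.prf MM.prf MV.prf all_N3
theorem all_CP : H_CP := CP.prf all_EX all_AP

theorem all_FINE : S_FINE := prf_FINE prf_Q1 prf_Q2 prf_Q3 prf_CPT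
theorem all_DOM : S_DOM := prf_DOM prf_MAX prf_CI prf_D1 prf_D2

theorem all_IT : H_IT := IT.prf (AR.prf prf_Q1 all_FINE prf_NADD prf_NCOMP prf_NRE)

theorem all_F1 : H_F1 := F1.prf upper lower all_DOM all_EX all_AP all_CP all_IT GR.prf SH.prf

theorem all_F2 : H_F2 :=
  F2.prf upper lower all_CP all_IT (G2.prf GR.prf) (DM.prf prf_MAX prf_CI prf_D1 DK.prf)

/-- The set of the values of the harmonic measure for a prescribed set of directions. -/
theorem isLUB_values (P : Set ℂ → Prop)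
    (hP : ∀ D, ArcDom D → P D) (K : Set ℝ) (hK : IsCompact K) (hKI : K ⊆ Icc 0 (2 * Real.pi)) :
    IsLUB {t | ∃ D, Dom D ∧ P D ∧ K ⊆ shadow D ∧ omega D = t}
      (1 - (1 - cst) * (volume.real K / (2 * Real.pi))) := by
  constructor
  · rintro t ⟨D, hD, -, hKD, rfl⟩
    refine (all_F1 D hD).trans ?_
    have hc := (F1.cst_props upper lower).2.1
    have h1 : volume.real K ≤ volume.real (shadow D ∩ Icc 0 (2 * Real.pi)) :=
      measureReal_mono (subset_inter hKD hKI)
        ((measure_mono inter_subset_right).trans_lt measure_Icc_lt_top).ne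
    have h2 := div_le_div_of_nonneg_right h1 Real.two_pi_pos.le
    have h3 := mul_le_mul_of_nonneg_left h2 (by linarith : (0 : ℝ) ≤ 1 - cst)
    linarith
  · intro b hb
    refine le_of_forall_pos_lt_add fun ε hε => ?_
    obtain ⟨D, hD, hA, hKD, h⟩ := all_F2 K ε hK hKI hε
    have := hb ⟨D, hD, hP D hA, hKD, rfl⟩
    linarith

end MPf68f16.Hall
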