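import Pool.Agent.Work.MP_f68f16_an.Stmts

/-!
# Hall's lemma with the sharp constant (captain helper4): definitions

`c = cst` is the constant of Q1.  For a domain `D` in the disc (no condition on the inner boundary)
with `0 ∈ D`, whose boundary contains the circle, `omega D ≤ 1 - (1 - c) |S| / (2 π)`, `S` the radial
projection of the inner boundary, and this is sharp for every compact set of directions.
-/

set_option autoImplicit false

open MeasureTheory Metric Set Filter Topology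

namespace MPf68f16.Hall

open MPf68f16

/-- `D` is a domain in the unit disc with `0 ∈ D`, whose boundary contains the unit circle. -/
structure Dom (D : Set ℂ) : Prop where
  isOpen : IsOpen D
  isPreconnected : IsPreconnected D
  zero_mem : (0 : ℂ) ∈ D
  subset : D ⊆ ball (0 : ℂ) 1
  sphere_subset : sphere (0 : ℂ) 1 ⊆ frontier D

/-- The directions of the radii which meet the inner boundary of `D`. -/
def shadow (D : Set ℂ) : Set ℝ := {θ | ∃ t : ℝ, 0 ≤ t ∧ t < 1 ∧ pt t θ ∈ frontier D}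

/-- The constant of Q1. -/
noncomputable def cst : ℝ := sSup {t : ℝ | ∃ D : Set ℂ, Admissible D ∧ omega D = t}

/-- `D` is the complement in the disc of finitely many closed arcs of circles with centre `0` and
pairwise different radii. -/
def ArcDom (D : Set ℂ) : Prop := ∃ (m : ℕ) (r α δ : Fin m → ℝ), Function.Injective r ∧
  (∀ i, 0 < r i) ∧ (∀ i, r i < 1) ∧ (∀ i, 0 < δ i) ∧ (∀ i, δ i ≤ 1) ∧
  D = ball (0 : ℂ) 1 \ {z | ∃ i θ, |θ - α i| ≤ δ i ∧ z = pt (r i) θ}

/-- The local sub mean value property. -/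
def LSM (U : Set ℂ) (w : ℂ → ℝ) : Prop :=
  ∀ z ∈ U, ∃ r₀ : ℝ, 0 < r₀ ∧ ∀ r : ℝ, 0 < r → r < r₀ →
    CircleIntegrable w z r ∧ w z ≤ Real.circleAverage w z r

/-- Sub mean value property on all circles which bound a closed disc in the unit disc. -/
def SMV (w : ℂ → ℝ) : Prop :=
  ∀ z r, 0 < r → closedBall z r ⊆ ball (0 : ℂ) 1 → w z ≤ Real.circleAverage w z r

/-- Subharmonic functions on the disc with values in `[0, 1]`. -/
structure Sub (w : ℂ → ℝ) : Prop where
  meas : Measurable w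
  nonneg : ∀ z, 0 ≤ w z
  le_one : ∀ z, w z ≤ 1
  usc : UpperSemicontinuousOn w (ball 0 1)
  mean : SMV w

/-- Mollification: the average of `w` over the ball of radius `δ` around `(1 - δ) z`. -/
noncomputable def mol (w : ℂ → ℝ) (δ : ℝ) (z : ℂ) : ℝ :=
  (volume.real (ball (0 : ℂ) δ))⁻¹ * ∫ y in ball (0 : ℂ) δ, w (((1 - δ : ℝ) : ℂ) * z + y)

/-- `u` is negative somewhere on every radius with direction in `K`. -/
def NegOn (u : ℂ → ℝ) (K : Set ℝ) : Prop := ∀ θ ∈ K, ∃ t : ℝ, 0 < t ∧ t < 1 ∧ u (pt t θ) < 0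

/-! ### Small lemmas, to be used freely -/

theorem norm_add_lt {z : ℂ} {r : ℝ} (hr : 0 < r) (h : closedBall z r ⊆ ball (0 : ℂ) 1) :
    ‖z‖ + r < 1 := by
  by_cases hz : z = 0
  · subst hz
    have h1 : ((r : ℝ) : ℂ) ∈ closedBall (0 : ℂ) r := by
      rw [mem_closedBall_zero_iff, Complex.norm_real, Real.norm_of_nonneg hr.le]
    have h2 := h h1
    rw [mem_ball_zero_iff, Complex.norm_real, Real.norm_of_nonneg hr.le] at h2
    simpa using h2
  · have hn : 0 < ‖z‖ := norm_pos_iff.2 hz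
    have h1 : z + ((r / ‖z‖ : ℝ) : ℂ) * z ∈ closedBall z r := by
      rw [mem_closedBall, dist_eq_norm, add_sub_cancel_left, norm_mul, Complex.norm_real,
        Real.norm_of_nonneg (by positivity), div_mul_cancel₀ _ hn.ne']
    have h2 := h h1
    have h3 : z + ((r / ‖z‖ : ℝ) : ℂ) * z = ((1 + r / ‖z‖ : ℝ) : ℂ) * z := by
      push_cast
      ring
    rw [mem_ball_zero_iff, h3, norm_mul, Complex.norm_real, Real.norm_of_nonneg (by positivity)] at h2
    have h4 : (1 + r / ‖z‖) * ‖z‖ = ‖z‖ + r := by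
      field_simp
    linarith

theorem closedBall_subset_of {z : ℂ} {r : ℝ} (h : ‖z‖ + r < 1) : closedBall z r ⊆ ball (0 : ℂ) 1 := by
  intro x hx
  rw [mem_closedBall, dist_eq_norm] at hx
  rw [mem_ball_zero_iff]
  have h1 : ‖x‖ ≤ ‖x - z‖ + ‖z‖ := by
    have := norm_add_le (x - z) z
    rwa [sub_add_cancel] at this
  linarith

theorem norm_pt {t : ℝ} (θ : ℝ) (h : 0 ≤ t) : ‖pt t θ‖ = t := by
  unfold pt
  rw [norm_mul, Complex.norm_exp_ofReal_mul_I, mul_one, Complex.norm_real, Real.norm_of_nonneg h]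

theorem pt_mem {t θ : ℝ} (h0 : 0 ≤ t) (h1 : t < 1) : pt t θ ∈ ball (0 : ℂ) 1 := by
  rw [mem_ball_zero_iff, norm_pt θ h0]
  exact h1

theorem continuous_pt : Continuous (fun p : ℝ × ℝ => pt p.1 p.2) := by
  unfold pt
  fun_prop

theorem pt_per (t θ : ℝ) (k : ℤ) : pt t (θ + 2 * Real.pi * k) = pt t θ := by
  unfold pt
  congr 1
  rw [Complex.exp_eq_exp_iff_exists_int]
  refine ⟨k, ?_⟩
  push_cast
  ring

/-- Every angle can be moved to `[0, 2 π]`. -/
theorem exists_shift (θ : ℝ) : ∃ k : ℤ, θ + 2 * Real.pi * k ∈ Icc 0 (2 * Real.pi) := by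
  have hpi := Real.two_pi_pos
  refine ⟨-⌊θ / (2 * Real.pi)⌋, ?_⟩
  have h2 := Int.floor_le (θ / (2 * Real.pi))
  have h3 := (Int.lt_floor_add_one (θ / (2 * Real.pi))).le
  rw [le_div_iff₀ hpi] at h2
  rw [div_le_iff₀ hpi] at h3
  push_cast
  constructor <;> nlinarith

theorem Dom.of_admissible {D : Set ℂ} (h : Admissible D) : Dom D :=
  ⟨h.isOpen, h.isPreconnected, h.zero_mem, h.subset, h.sphere_subset⟩

end MPf68f16.Hall
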