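import Pool.Agent.Work.MP_f68f16_an.Hall.Stmts

/-!
# Hall's lemma with the sharp constant, item F2 (helper37): the lower bound
-/

set_option autoImplicit false

open MeasureTheory Metric Set Filter Topology

namespace MPf68f16.Hall.F2

open MPf68f16 MPf68f16.Hall

theorem nice_one : Nice (fun _ => (1 : ℝ)) := by
  refine ⟨continuousOn_const, ?_⟩
  intro ψ _ _ z r _ _
  rw [Real.circleAverage_const]

/-- A competitor which is almost optimal. -/
theorem exists_q (h1 : S_UPPER) (h2 : S_LOWER) (h3 : H_CP) (e : ℝ) (he : 0 < e) (he1 : e ≤ 1 / 100) :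
    (0.065 < cst ∧ cst ≤ 0.094) ∧ ∃ q : ℂ → ℝ, InA q ∧ cst - e ≤ q 0 := by
  obtain ⟨D₀, hD₀, hω₀⟩ := h2
  have hbdd : BddAbove {t : ℝ | ∃ D : Set ℂ, Admissible D ∧ omega D = t} := by
    refine ⟨0.094, ?_⟩
    rintro t ⟨D, hD, rfl⟩
    exact h1 D hD
  have hne : {t : ℝ | ∃ D : Set ℂ, Admissible D ∧ omega D = t}.Nonempty := ⟨omega D₀, D₀, hD₀, rfl⟩
  have hc1 : 0.065 < cst := lt_of_lt_of_le hω₀ (le_csSup hbdd ⟨D₀, hD₀, rfl⟩)
  have hc2 : cst ≤ 0.094 := by
    refine csSup_le hne ?_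
    rintro t ⟨D, hD, rfl⟩
    exact h1 D hD
  refine ⟨⟨hc1, hc2⟩, ?_⟩
  obtain ⟨t, ⟨D, hD, rfl⟩, hlt⟩ := exists_lt_of_lt_csSup hne
    (show cst - e / 3 < sSup {t : ℝ | ∃ D : Set ℂ, Admissible D ∧ omega D = t} by
      have : cst = sSup {t : ℝ | ∃ D : Set ℂ, Admissible D ∧ omega D = t} := rfl
      rw [← this]
      linarith)
  have hpos : 0 < omega D := by
    norm_num at hc1
    linarith
  have hne2 : {t : ℝ | ∃ u, IsLower D u ∧ u 0 = t}.Nonempty := by
    by_contra hcon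
    rw [Set.not_nonempty_iff_eq_empty] at hcon
    have h0 : omega D = 0 := by
      unfold omega
      rw [hcon, Real.sSup_empty]
    rw [h0] at hpos
    exact lt_irrefl _ hpos
  obtain ⟨t, ⟨u, hu, rfl⟩, hut⟩ := exists_lt_of_lt_csSup hne2
    (show omega D - e / 3 < sSup {t : ℝ | ∃ u, IsLower D u ∧ u 0 = t} by
      have : omega D = sSup {t : ℝ | ∃ u, IsLower D u ∧ u 0 = t} := rfl
      rw [← this]
      linarith)
  obtain ⟨q, hq, hq0⟩ := h3 D u (e / 3) hD hu (by linarith)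
  exact ⟨q, hq, by linarith⟩

theorem prf (h1 : S_UPPER) (h2 : S_LOWER) (h3 : H_CP) (h4 : H_IT) (h5 : H_G2) (h6 : H_DM) : H_F2 := by
  intro K ε hK hKs hε
  set e : ℝ := min (ε / 8) (1 / 100) with he
  have he0 : 0 < e := lt_min (by linarith) (by norm_num)
  have he1 : e ≤ 1 / 100 := min_le_right _ _
  have he2 : e ≤ ε / 8 := min_le_left _ _
  obtain ⟨⟨hc1, hc2⟩, q, hq, hq0⟩ := exists_q h1 h2 h3 e he0 he1
  obtain ⟨m, α, β, hβ, hcov, hsum⟩ := h5 K e hK hKs he0
  obtain ⟨v, hv, hvle, hneg, hv0⟩ := h4 q (fun _ => 1) m α β e hq nice_one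
    (fun _ _ => le_rfl) hβ he0
  have hpi := Real.pi_pos
  have hpi3 := Real.pi_gt_three
  set W : ℝ := volume.real K / (2 * Real.pi) with hW
  have hV0 : 0 ≤ volume.real K := measureReal_nonneg
  have hW0 : 0 ≤ W := div_nonneg hV0 (by positivity)
  have hW1 : W ≤ 1 := by
    rw [hW, div_le_one (by positivity)]
    have h7 : volume.real K ≤ volume.real (Icc 0 (2 * Real.pi)) :=
      measureReal_mono hKs (by rw [Real.volume_Icc]; exact ENNReal.ofReal_ne_top)
    rw [Real.volume_real_Icc_of_le (by positivity), sub_zero] at h7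
    exact h7
  have hS : ∑ i, β i / Real.pi ≤ W + e := by
    have h8 : ∑ i, β i / Real.pi = (∑ i, 2 * β i) / (2 * Real.pi) := by
      rw [Finset.sum_div]
      refine Finset.sum_congr rfl fun i _ => ?_
      field_simp
    rw [h8]
    calc (∑ i, 2 * β i) / (2 * Real.pi) ≤ (volume.real K + e) / (2 * Real.pi) := by gcongr
      _ = W + e / (2 * Real.pi) := by rw [add_div, hW]
      _ ≤ W + e := by
        have h9 : e / (2 * Real.pi) ≤ e := div_le_self he0.le (by linarith)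
        linarith
  have hS0 : 0 ≤ ∑ i, β i / Real.pi :=
    Finset.sum_nonneg fun i _ => div_nonneg (hβ i).1.le hpi.le
  have hq1 : q 0 ≤ 1 := hq.le_one 0 (mem_ball_self one_pos)
  norm_num at hc1 hc2
  have hprod : (1 - q 0) * ∑ i, β i / Real.pi ≤ (1 - cst + e) * (W + e) :=
    mul_le_mul (by linarith) hS hS0 (by linarith)
  have hmain : 1 - (1 - cst) * W - 4 * e ≤ v 0 := by
    have h10 : (1 - cst + e) * (W + e) ≤ (1 - cst) * W + 3 * e := by
      nlinarith [mul_nonneg he0.le hW0, mul_nonneg he0.le he0.le, mul_nonneg he0.le (sub_nonneg.2 hW1),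
        mul_nonneg he0.le (show (0:ℝ) ≤ cst by linarith)]
    linarith
  have hvpos : 0 < v 0 := by
    have h11 : (1 - cst) * W ≤ (1 - cst) * 1 := mul_le_mul_of_nonneg_left hW1 (by linarith)
    linarith
  have hnegK : NegOn v K := by
    intro θ hθ
    obtain ⟨i, hi⟩ := hcov θ hθ
    exact hneg i θ hi
  obtain ⟨D, hD, hA, hsh, hom⟩ := h6 v K hK hv (fun z hz => hvle z hz) hnegK hvpos
  exact ⟨D, hD, hA, hsh, by linarith⟩

end MPf68f16.Hall.F2
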