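import Pool.Agent.Work.MP_f68f16_an.Hall.Stmts

/-!
# Item N3: continuous functions with the sub mean value property are `Nice`
-/

set_option autoImplicit false

open MeasureTheory Metric Set Filter Topology

namespace MPf68f16.Hall.N3

open MPf68f16 MPf68f16.Hall

/-- Local sub mean value property of the composition, non constant case. -/
theorem lsm (h1 : H_N1) (h2 : H_N2) (u : ℂ → ℝ) (hu : ContinuousOn u (ball 0 1)) (hs : SMV u)
    (ψ : ℂ → ℂ) (hψ : DifferentiableOn ℂ ψ (ball 0 1)) (hm : MapsTo ψ (ball 0 1) (ball 0 1))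
    (hn : ¬ EqOn (deriv ψ) 0 (ball 0 1)) : LSM (ball 0 1) (fun z => u (ψ z)) := by
  have hv : ContinuousOn (fun z => u (ψ z)) (ball 0 1) := hu.comp hψ.continuousOn hm
  have hd : AnalyticOnNhd ℂ (deriv ψ) (ball 0 1) :=
    ((hψ.analyticOnNhd isOpen_ball).deriv)
  intro a ha
  have hne : ∀ᶠ z in 𝓝[≠] a, deriv ψ z ≠ 0 := by
    rcases (hd a ha).eventually_eq_zero_or_eventually_ne_zero with h | h
    · exact absurd (hd.eqOn_zero_of_preconnected_of_eventuallyEq_zero
        (convex_ball (0 : ℂ) 1).isPreconnected ha h) hn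
    · exact h
  rw [eventually_nhdsWithin_iff] at hne
  obtain ⟨R, hR, hRb⟩ := Metric.mem_nhds_iff.1 (Filter.inter_mem hne (isOpen_ball.mem_nhds ha))
  have h3 : LSM (ball a R \ {a}) (fun z => u (ψ z)) := by
    intro y hy
    have h4 := hRb hy.1
    exact h1 u ψ y hu hs hψ hm h4.2 (h4.1 hy.2)
  exact h2 (fun z => u (ψ z)) a R hR (hv.mono fun y hy => (hRb hy).2) h3 a (mem_ball_self hR)

theorem prf (h1 : H_N1) (h2 : H_N2) (h3 : H_GL) : H_N3 := by
  classical
  intro u hu hs
  refine ⟨hu, fun ψ hψ hm z r hr hz => ?_⟩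
  have hzb : z ∈ ball (0 : ℂ) 1 := hz (mem_closedBall_self hr.le)
  by_cases hc : EqOn (deriv ψ) 0 (ball 0 1)
  · have h4 : ∀ x ∈ sphere z |r|, u (ψ x) = u (ψ z) := by
      intro x hx
      rw [abs_of_pos hr] at hx
      have hxb : x ∈ ball (0 : ℂ) 1 := hz (sphere_subset_closedBall hx)
      rw [isOpen_ball.is_const_of_deriv_eq_zero (convex_ball (0 : ℂ) 1).isPreconnected hψ hc hxb hzb]
    rw [Real.circleAverage_const_on_circle h4]
  · have hL := lsm h1 h2 u hu hs ψ hψ hm hc
    have hv : ContinuousOn (fun z => u (ψ z)) (ball 0 1) := hu.comp hψ.continuousOn hm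
    have h5 := norm_add_lt hr hz
    set R : ℝ := (r + (1 - ‖z‖)) / 2 with hRd
    have hrR : r < R := by
      rw [hRd]
      linarith
    have hR1 : ‖z‖ + R < 1 := by
      rw [hRd]
      linarith
    have hR0 : 0 < R := hr.trans hrR
    have hB : closedBall z R ⊆ ball (0 : ℂ) 1 := closedBall_subset_of hR1
    have hB' : ball z R ⊆ ball (0 : ℂ) 1 := ball_subset_closedBall.trans hB
    set w : ℂ → ℝ := (ball z R).piecewise (fun z => u (ψ z)) (fun _ => 0) with hw
    have hwe : ∀ y ∈ ball z R, w y = u (ψ y) := fun y hy => Set.piecewise_eq_of_mem _ _ _ hy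
    obtain ⟨M, hM⟩ := (isCompact_closedBall z R).exists_bound_of_continuousOn (hv.mono hB)
    have hwm : Measurable w :=
      ContinuousOn.measurable_piecewise (hv.mono hB') continuousOn_const measurableSet_ball
    have hwc : ContinuousOn w (ball z R) := (hv.mono hB').congr hwe
    have hwM : ∀ y ∈ ball z R, |w y| ≤ M := by
      intro y hy
      rw [hwe y hy]
      exact hM y (ball_subset_closedBall hy)
    have hwL : LSM (ball z R) w := by
      intro y hy
      obtain ⟨r₀, hr₀, h6⟩ := hL y (hB' hy)
      rw [mem_ball] at hy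
      refine ⟨min r₀ (R - dist y z), lt_min hr₀ (by linarith), fun s hs0 hs1 => ?_⟩
      have h7 := h6 s hs0 (hs1.trans_le (min_le_left _ _))
      have h8 : s < R - dist y z := hs1.trans_le (min_le_right _ _)
      have h9 : sphere y |s| ⊆ ball z R := by
        intro x hx
        rw [abs_of_pos hs0, mem_sphere] at hx
        rw [mem_ball]
        have := dist_triangle x y z
        linarith
      have h10 : EqOn w (fun z => u (ψ z)) (sphere y |s|) := fun x hx => hwe x (h9 hx)
      constructor
      · apply ContinuousOn.circleIntegrable'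
        exact hwc.mono h9
      · rw [Real.circleAverage_congr_sphere h10, hwe y hy]
        exact h7.2
    have h11 := h3 z r R M w hr hrR hwm hwc.upperSemicontinuousOn hwM hwL
    have h12 : EqOn w (fun z => u (ψ z)) (sphere z |r|) := by
      intro x hx
      rw [abs_of_pos hr, mem_sphere] at hx
      apply hwe
      rw [mem_ball]
      linarith
    rw [Real.circleAverage_congr_sphere h12, hwe z (mem_ball_self hR0)] at h11
    exact h11

end MPf68f16.Hall.N3
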