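import Pool.Agent.Work.MP_f68f16_an.Hall.Defs

/-!
# Hall's lemma with the sharp constant (captain helper4): statements

The docstring of each statement is its complete proof; nothing here is a theorem.  Item `X` proves
`H_X` in the file `Hall/I_X.lean`, namespace `MPf68f16.Hall.X`, theorem `prf`, from the hypotheses
named after USES (as explicit hypotheses of `prf`, in this order).
-/

set_option autoImplicit false

open MeasureTheory Metric Set Filter Topology

namespace MPf68f16.Hall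

open MPf68f16

/-! ### Subharmonic functions -/

/-- (MX, MEDIUM) Maximum principle.  Proof: suppose `m0 = w z0 > 0`.  For every `m > 0` the set
`K m = {z ∈ U | m ≤ w z}` is compact (copy of `MAX_compact` in `Bd/B05.lean` with `U` bounded instead
of `U ⊆ ball 0 1`).  So the upper semicontinuous `w` attains its maximum `m` on `K m0`, and
`w ≤ m` on `U`, `m > 0`.  Let `z1` be a point of the compact nonempty set `K m` with maximal real
part.  Choose `r < r₀ z1` with `closedBall z1 r ⊆ U`.  On the circle `w ≤ m`, and `w < m` at the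
points `z1 + r e^(iθ)`, `-π/2 < θ < π/2` (their real part is larger, so they are not in `K m`), so the
average of `m - w ≥ 0` over the circle is positive (`integral_pos_iff_support_of_nonneg`, the
support contains an interval), against `w z1 = m ≤ circleAverage w z1 r`. -/
def H_MX : Prop := ∀ (U : Set ℂ) (w : ℂ → ℝ), IsOpen U → Bornology.IsBounded U →
  UpperSemicontinuousOn w U → LSM U w →
  (∀ ζ ∈ frontier U, ∀ ε : ℝ, 0 < ε → ∀ᶠ z in 𝓝[U] ζ, w z < ε) → ∀ z ∈ U, w z ≤ 0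

/-- (PT, MEDIUM) Real parts of polynomials are dense on a circle.  Proof: `g x = f (a + r * toCircle x)`
is in `C(AddCircle (2 π), ℂ)`; by `span_fourier_closure_eq_top` there is `F` in the span of the
`fourier n` with `‖F - g‖ < ε / 2`.  For every `F` in the span there are polynomials `p`, `q` with
`F x = p (toCircle x) + conj (q (toCircle x))` (span induction: `fourier n` is `X ^ n` or, for
`n < 0`, the conjugate of `X ^ (-n)`; sums; scalars `c`: `c p` and `conj c q`), so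
`Re F x = Re (p + q) (toCircle x)`.  The polynomial
`(p + q).comp (C r⁻¹ * (X - C a)) + C (ε / 2)` has the property (`(z - a) / r = toCircle x` for
`z ∈ sphere a r`). -/
def H_PT : Prop := ∀ (a : ℂ) (r : ℝ) (f : ℂ → ℝ), 0 < r → ContinuousOn f (sphere a r) →
  ∀ ε : ℝ, 0 < ε → ∃ p : Polynomial ℂ, ∀ z ∈ sphere a r,
    f z ≤ (p.eval z).re ∧ (p.eval z).re ≤ f z + ε

/-- (GL, MEDIUM) From small circles to all circles.  USES MX PT.  Proof: for `n ≥ 1` let
`f n x = sup_(y ∈ sphere z r) (w y - n |x - y|)`: it is `n`-Lipschitz, `w ≤ f n ≤ M` on the sphere, and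
`f n x → w x` for `x` in the sphere (upper semicontinuity at `x`: for `|y - x| < ρ` one has
`w y < w x + ε`, and for `|y - x| ≥ ρ` the value is `≤ M - n ρ`).  `PT` gives `p n` with
`f n ≤ Re (p n) ≤ f n + 1 / n` on the sphere.  `MX` with `U = ball z r` and `w - Re (p n)`: real parts
of polynomials have the mean value property (`circleAverage_of_differentiable_on` or the harmonic
version; take real parts), boundary: `frontier (ball z r) = sphere z r`, at `ζ` in the sphere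
`w y < w ζ + ε / 2` near `ζ` (upper semicontinuity in `ball z R`) and
`Re (p n) y > Re (p n) ζ - ε / 2 ≥ w ζ - ε / 2`.  So
`w z ≤ Re (p n) z = circleAverage (Re (p n)) z r ≤ circleAverage (f n) z r + 1 / n`, and the right side
tends to `circleAverage w z r` (dominated convergence, all functions are bounded by `M` on the
circle; `w` is measurable). -/
def H_GL : Prop := ∀ (z : ℂ) (r R M : ℝ) (w : ℂ → ℝ), 0 < r → r < R → Measurable w →
  UpperSemicontinuousOn w (ball z R) → (∀ y ∈ ball z R, |w y| ≤ M) → LSM (ball z R) w →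
  w z ≤ Real.circleAverage w z r

/-- (EX, EASY-MEDIUM) Extension by `0`.  USES S_MAX S_CI GL.  Proof: `w = D.indicator u`.  `u ≤ 1` on
`D` as in `IDOM.lower_le_one` (`Bd/B05.lean`, there only at the point `0`; the same proof gives all
`z ∈ D`).  Measurable: for `a > 0` the set `{w < a}` is `{z ∈ D | u z < a} ∪ Dᶜ`, the first set is open
(`u` is upper semicontinuous on the open `D`); for `a ≤ 0` it is empty.  Upper semicontinuous on the
disc: at `z ∈ D` clear; at `z ∉ closure D` it is `0` near `z`; at `z ∈ frontier D`, `|z| < 1`: `w z = 0`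
and `u < ε` near `z` on `D` (`inner`), `w = 0` outside `D`.  Sub mean value property: by `GL` (with
`R = 1 - ‖z‖ > r`, `norm_add_lt`, `M = 1`) it is enough to have it for small circles: at `y ∈ D` take
circles in `D` (`IsLower.submean`, `S_CI`), at `y ∉ D`, `w y = 0 ≤` the average (`w ≥ 0`), and `w` is
measurable and bounded, so circle integrable.  `0 ∈ D`.  `frontier D ∩ D = ∅` as `D` is open. -/
def H_EX : Prop := ∀ (D : Set ℂ) (u : ℂ → ℝ), Dom D → IsLower D u →
  ∃ w : ℂ → ℝ, Sub w ∧ w 0 = u 0 ∧ ∀ z ∈ frontier D, w z = 0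

/-- (MC, EASY-MEDIUM) The mollification is continuous.  Proof: `∫ y in ball 0 δ, w (s + y)` is the
integral of `(ball s δ).indicator w` (translation invariance), and for `s' → s` the indicators converge
at every point `x` with `|x - s| ≠ δ`, i.e. almost everywhere (`Measure.addHaar_sphere`), dominated by
the indicator of `ball s (δ + 1)`: `tendsto_integral_of_dominated_convergence` or
`continuousAt_of_dominated`. Compose with `z ↦ (1 - δ) z`. -/
def H_MC : Prop := ∀ (w : ℂ → ℝ) (δ : ℝ), Measurable w → (∀ z, |w z| ≤ 1) → 0 < δ →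
  Continuous (mol w δ)

/-- (MM, MEDIUM) The mollification is subharmonic.  Proof: let `‖z‖ + r < 1` (`norm_add_lt`).  For
`y ∈ ball 0 δ` the closed ball around `(1 - δ) z + y` of radius `(1 - δ) r` is in the unit disc
(`(1 - δ) (‖z‖ + r) + ‖y‖ < 1`), so
`w ((1 - δ) z + y) ≤ (2 π)⁻¹ ∫ θ in 0..2π, w ((1 - δ) (z + r e^(iθ)) + y)` (`Sub.mean`, unfold
`Real.circleAverage`, `circleMap`).  Integrate over `y` and exchange the integrals (`w` is measurable
with values in `[0, 1]`, both measures are finite: `integral_integral_swap`). -/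
def H_MM : Prop := ∀ (w : ℂ → ℝ) (δ : ℝ), Sub w → 0 < δ → δ < 1 → SMV (mol w δ)

/-- (MV, EASY-MEDIUM) Values of the mollification.  Proof: the second and the third part: the integral
of a function with values in `[0, 1]`, or `≤ s`, over the ball, divided by the volume.  First part: polar
coordinates (`Complex.integral_comp_polarCoord_symm`):
`∫ y in ball 0 δ, w y = ∫ ρ in (0, δ), ρ * ∫ θ, w (ρ e^(iθ)) ≥ ∫ ρ in (0, δ), ρ * (2 π w 0) = π δ² w 0`,
by `Sub.mean` at `0` with radius `ρ < 1`, and the volume of the ball is `π δ²`. -/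
def H_MV : Prop := ∀ (w : ℂ → ℝ) (δ : ℝ), Sub w → 0 < δ → δ < 1 →
  w 0 ≤ mol w δ 0 ∧ (∀ z, 0 ≤ mol w δ z ∧ mol w δ z ≤ 1) ∧
  ∀ (z : ℂ) (s : ℝ), (∀ x ∈ ball (((1 - δ : ℝ) : ℂ) * z) δ, w x ≤ s) → mol w δ z ≤ s

/-- (N1, MEDIUM) Composition with an analytic map, non critical points.  USES MX PT.  Proof: `ψ` is
analytic at `a` with `ψ' a ≠ 0`: by the inverse function theorem
(`HasStrictDerivAt.toOpenPartialHomeomorph`, or injectivity near `a`) there is `r₀` such that `ψ` is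
injective on `closedBall a r₀ ⊆ ball 0 1`, with `ψ' ≠ 0` there, and its inverse `g` is differentiable on
the open set `ψ '' (ball a r₀)`.  Let `0 < r < r₀`, `ε > 0`, `p` from `PT` for `u ∘ ψ` on `sphere a r`,
`U = ψ '' (ball a r)`: open, bounded, `closure U ⊆ ψ '' (closedBall a r)` (compact), so
`frontier U ⊆ ψ '' (sphere a r)`.  `w y = u y - Re (p (g y))` is continuous on `U`; `LSM U w`: `u` has the
sub mean value property, `Re (p ∘ g)` is the real part of a differentiable function, so it has the mean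
value property for small circles.  At `ζ = ψ b`, `b ∈ sphere a r`, the continuous function `w` has
`w ζ ≤ 0` (`g` is continuous at `ζ`, as `r < r₀`), so `w < ε'` near `ζ`.  By `MX` `w (ψ a) ≤ 0`:
`u (ψ a) ≤ Re (p a) = circleAverage (Re p) a r ≤ circleAverage (u ∘ ψ) a r + ε`.  `u ∘ ψ` is continuous,
so circle integrable. -/
def H_N1 : Prop := ∀ (u : ℂ → ℝ) (ψ : ℂ → ℂ) (a : ℂ), ContinuousOn u (ball 0 1) → SMV u →
  DifferentiableOn ℂ ψ (ball 0 1) → MapsTo ψ (ball 0 1) (ball 0 1) → a ∈ ball (0 : ℂ) 1 →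
  deriv ψ a ≠ 0 → ∃ r₀ : ℝ, 0 < r₀ ∧ ∀ r : ℝ, 0 < r → r < r₀ →
    CircleIntegrable (fun z => u (ψ z)) a r ∧ u (ψ a) ≤ Real.circleAverage (fun z => u (ψ z)) a r

/-- (N2, MEDIUM) Removable points.  USES MX PT.  Proof: only the point `a` is to be treated.  Let
`0 < r < R`, `ε > 0`, `p` from `PT` for `v` on `sphere a r`.  For `η > 0` let
`w z = v z - Re (p z) + η log (‖z - a‖ / r)` on `U = ball a r \ {a}`.  It is continuous on `U`; `LSM U w`:
`v` has it, `Re p` and `log ‖z - a‖` have the mean value property on small circles in `U`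
(`circleAverage_log_norm_sub_const_of_notMem_closedBall` or the real part of a local logarithm).  The
frontier is contained in `sphere a r ∪ {a}`: at `ζ` in the sphere the limit is `v ζ - Re (p ζ) ≤ 0`, at `a`
the function tends to `-∞` (`v`, `Re p` are bounded near `a`).  By `MX`
`v z ≤ Re (p z) - η log (‖z - a‖ / r)` on `U` for every `η > 0`, so `v ≤ Re p` on `U`, and `v a ≤ Re (p a)` by
continuity.  `Re (p a) = circleAverage (Re p) a r ≤ circleAverage v a r + ε`. -/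
def H_N2 : Prop := ∀ (v : ℂ → ℝ) (a : ℂ) (R : ℝ), 0 < R → ContinuousOn v (ball a R) →
  LSM (ball a R \ {a}) v → LSM (ball a R) v

/-- (N3, EASY-MEDIUM) Continuous functions with the sub mean value property are `Nice`.  USES N1 N2 GL.
Proof: let `ψ` be an analytic self map of the disc.  If `ψ' = 0` on the disc then `ψ` is constant
there and the claim is trivial (`circleAverage_const` after a congruence on the sphere).  Otherwise
the zeros of the analytic `ψ'` are isolated in the disc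
(`AnalyticOnNhd.eqOn_zero_or_eventually_ne_zero_of_preconnected`, the disc is convex): every `a` in the
disc has a ball `ball a R ⊆ ball 0 1` with `ψ' ≠ 0` on `ball a R \ {a}`; `N1` gives
`LSM (ball a R \ {a}) (u ∘ ψ)`, `N2` the point `a`.  So `LSM (ball 0 1) (u ∘ ψ)`.  For
`closedBall z r ⊆ ball 0 1`: `‖z‖ + r < 1` (`norm_add_lt`), choose `R` with `r < R`, `‖z‖ + R < 1`;
`u ∘ ψ` is bounded on the compact `closedBall z R`; apply `GL` to `u ∘ ψ` on `ball z R`, extended by `0`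
outside `ball z R` (so that it is measurable), and change it back on the sphere. -/
def H_N3 : Prop := ∀ u : ℂ → ℝ, ContinuousOn u (ball 0 1) → SMV u → Nice u

/-! ### Approximation by competitors -/

/-- (AP, EASY-MEDIUM) Approximation from a subharmonic function.  USES MC MM MV N3.  Proof: for
`θ0 ∈ K` choose `t0`, `0 < t0 < 1`, and `ρ0 > 0` with `w < ε / 2` on `ball (pt t0 θ0) (2 ρ0) ⊆ ball 0 1`
(upper semicontinuity), and then `η0 > 0` with `|pt t0 θ - pt t0 θ0| < ρ0` for `|θ - θ0| < η0`.  Finitely many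
`(θ i - η i, θ i + η i)` cover `K`.  Let `0 < δ < 1`, `δ ≤ ρ i / 2` for all `i`,
`u = mol w δ - 3 ε / 4`.  `Nice`: `MC`, `MM` (a constant is subtracted), `N3`.  `u ≤ 1`: `MV`.  For `θ ∈ K`,
`|θ - θ i| < η i`, `z = pt (t i) θ`: `ball ((1 - δ) z) δ ⊆ ball (pt (t i) (θ i)) (2 ρ i)`, as
`δ + δ ‖z‖ + ρ i ≤ 2 ρ i`, so `mol w δ z ≤ ε / 2` (`MV`), `u z ≤ - ε / 4`.  `u 0 ≥ w 0 - 3 ε / 4` (`MV`).
(`K = ∅`: any `δ`.) -/
def H_AP : Prop := ∀ (w : ℂ → ℝ) (K : Set ℝ) (ε : ℝ), Sub w → IsCompact K → 0 < ε →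
  (∀ θ ∈ K, ∃ t : ℝ, 0 < t ∧ t < 1 ∧ w (pt t θ) < ε / 2) →
  ∃ u : ℂ → ℝ, Nice u ∧ (∀ z ∈ ball (0 : ℂ) 1, u z ≤ 1) ∧ NegOn u K ∧ w 0 - ε ≤ u 0

/-- (CP, EASY) Competitors from admissible domains.  USES EX AP.  Proof: `w` from `EX`
(`Dom.of_admissible`), `K = Icc 0 (2 π)`: for `θ` take the point of `Admissible.meets`; `t > 0` since
`0 ∈ D` is not in the frontier of the open set `D`, and `w = 0 < ε / 2` there.  `AP` gives `q`; `q` is
negative somewhere on every radius by periodicity (`exists_shift`, `pt_per`), so `InA q`. -/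
def H_CP : Prop := ∀ (D : Set ℂ) (u : ℂ → ℝ) (ε : ℝ), Admissible D → IsLower D u → 0 < ε →
  ∃ q : ℂ → ℝ, InA q ∧ u 0 - ε ≤ q 0

/-! ### Filling arcs -/

/-- (AR, MEDIUM) One arc.  USES S_Q1 S_FINE S_NADD S_NCOMP S_NRE.  Proof: choose `β' ∈ (β, π)` with
`(1 - q 0) (β' - β) / π ≤ ε / 4` (`q 0 ≤ 1`), `A = tan ((π - β') / 2) > 0`, so `arctan A = (π - β') / 2`,
`hA A 0 = 1 - β' / π` (`S_Q1`), `cA A = cos (π - β') = - cos β'`, and `d = cos β - cos β' > 0`; so
`cA A - d = - cos β`.  Let `κ = exp (- i (α - π))`, and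
`v z = u z + q (psi A n (κ z)) - q 0 - (1 - q 0) (1 - hA A (κ z)) - ε / 4`, `n ≥ 1` large (see below).
`Nice v`: `u` nice; `q (psi A n (κ z))` nice by `S_NCOMP` (`‖psi A n z‖ = exp (- n hA A z) < 1`, `FA A` is
differentiable on the disc, `S_Q1`); the rest is the real part of a differentiable function (`S_NRE`);
`S_NADD`.  COVERING: `|θ - α| ≤ β`: `κ pt t θ = pt t (θ - α + π)` and
`cos (θ - α + π) = - cos (θ - α) ≤ - cos β = cA A - d`, so by `S_FINE` (for `q`, `C = 1 - q 0`,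
`n ≥ N`) there is `t` with `q (psi A n (pt t (θ - α + π))) + (1 - q 0) hA A (..) < 0`; as `u ≤ 1`,
`v (pt t θ) ≤ q (psi ..) + (1 - q 0) hA A (..) - ε / 4 < 0`.  UPPER BOUND `v ≤ u`: choose `δ' > 0` with
`(1 - q 0) δ' ≤ ε / 4` and `s > 0` with `|q y - q 0| ≤ ε / 4` for `|y| < s`, and `n` with `exp (- n δ') < s`.
If `hA A (κ z) ≥ δ'` then `‖psi ..‖ < s` and `q (psi ..) ≤ q 0 + ε / 4`, and
`(1 - q 0) (1 - hA A ..) ≥ 0`; if `hA A (κ z) < δ'` then `q (psi ..) ≤ 1` and
`q 0 + (1 - q 0) (1 - hA A ..) ≥ 1 - ε / 4`.  VALUE: `n` also with `exp (- n hA A 0) < s`: then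
`v 0 ≥ u 0 - ε / 4 - (1 - q 0) β' / π - ε / 4 ≥ u 0 - (1 - q 0) β / π - 3 ε / 4`. -/
def H_AR : Prop := ∀ (q u : ℂ → ℝ) (α β ε : ℝ), InA q → Nice u → (∀ z ∈ ball (0 : ℂ) 1, u z ≤ 1) →
  0 < β → β < Real.pi → 0 < ε → ∃ v : ℂ → ℝ, Nice v ∧ (∀ z ∈ ball (0 : ℂ) 1, v z ≤ u z) ∧
    NegOn v {θ | |θ - α| ≤ β} ∧ u 0 - (1 - q 0) * (β / Real.pi) - ε ≤ v 0

/-- (IT, EASY) Finitely many arcs.  USES AR.  Proof: induction on `m` for all `ε` (`Fin.sum_univ_castSucc`):
the induction hypothesis with `ε / 2` gives `v`, `v ≤ u ≤ 1`; then `AR` for `v` and the last arc with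
`ε / 2` gives `v' ≤ v`, which is negative wherever `v` is. -/
def H_IT : Prop := ∀ (q u : ℂ → ℝ) (m : ℕ) (α β : Fin m → ℝ) (ε : ℝ), InA q → Nice u →
  (∀ z ∈ ball (0 : ℂ) 1, u z ≤ 1) → (∀ i, 0 < β i ∧ β i < Real.pi) → 0 < ε →
  ∃ v : ℂ → ℝ, Nice v ∧ (∀ z ∈ ball (0 : ℂ) 1, v z ≤ u z) ∧
    (∀ i, NegOn v {θ | |θ - α i| ≤ β i}) ∧
    u 0 - (1 - q 0) * ∑ i, β i / Real.pi - ε ≤ v 0

/-- (GR, EASY-MEDIUM) Grid arcs.  Proof: `F = Icc 0 (2 π) \ G` is compact and disjoint from the compact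
`K`, so there is `η > 0` with `|x - y| ≥ η` for `x ∈ F`, `y ∈ K` (`IsCompact.exists_infDist_eq_dist` or
`Metric.infDist_pos`, or `Disjoint.exists_thickenings`; if one is empty any `η`).  `N ≥ 2` with
`2 π / N < η`.  Let `J` be the set of the `j < N` such that the cell `[2 π j / N, 2 π (j + 1) / N]` meets
`F`.  These cells are disjoint from `K`, they cover `F`.  `m = card J`, `α` the midpoints,
`β = π / N < π`.  The half open cells `Ioc (2 π j / N) (2 π (j + 1) / N)`, `j ∈ J`, are pairwise disjoint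
subsets of `Icc 0 (2 π) \ K`, so `card J * (2 π / N) ≤ 2 π - volume K`. -/
def H_GR : Prop := ∀ G K : Set ℝ, IsOpen G → IsCompact K → K ⊆ G → K ⊆ Icc 0 (2 * Real.pi) →
  ∃ (m : ℕ) (α β : Fin m → ℝ), (∀ i, 0 < β i ∧ β i < Real.pi) ∧
    (∀ θ ∈ Icc 0 (2 * Real.pi), θ ∈ G ∨ ∃ i, |θ - α i| ≤ β i) ∧
    ∑ i, 2 * β i ≤ 2 * Real.pi - volume.real K

/-- (G2, EASY) Arcs which cover a compact set.  USES GR.  Proof: `V ⊇ K` open with
`volume V ≤ volume K + ε` (`Set.exists_isOpen_lt_add`, outer regularity).  `GR` for `G = Kᶜ` and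
`K' = Icc 0 (2 π) \ V` (compact, `⊆ G`): the arcs cover `Icc 0 (2 π) \ G = K`, and
`∑ 2 β ≤ 2 π - volume (Icc 0 (2 π) \ V) ≤ volume V ≤ volume K + ε`. -/
def H_G2 : Prop := ∀ (K : Set ℝ) (ε : ℝ), IsCompact K → K ⊆ Icc 0 (2 * Real.pi) → 0 < ε →
  ∃ (m : ℕ) (α β : Fin m → ℝ), (∀ i, 0 < β i ∧ β i < Real.pi) ∧
    (∀ θ ∈ K, ∃ i, |θ - α i| ≤ β i) ∧ ∑ i, 2 * β i ≤ volume.real K + ε

/-- (SH, EASY-MEDIUM) Compact subsets of the shadow.  Proof: `S n`, the set of the `θ ∈ Icc 0 (2 π)` with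
`pt t θ ∈ frontier D` for some `t ∈ Icc 0 (1 - 1 / (n + 1))`, is the projection of a compact subset of
the plane (`continuous_pt`, `frontier D` is closed), so compact; the `S n` increase and their union is
`shadow D ∩ Icc 0 (2 π)`; continuity of the measure from below
(`tendsto_measure_iUnion_atTop`). -/
def H_SH : Prop := ∀ (D : Set ℂ) (ε : ℝ), Dom D → 0 < ε → ∃ K : Set ℝ, IsCompact K ∧
  K ⊆ Icc 0 (2 * Real.pi) ∧ K ⊆ shadow D ∧
  volume.real (shadow D ∩ Icc 0 (2 * Real.pi)) - ε ≤ volume.real K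

/-! ### Domains -/

/-- (DK, EASY) Choice of finitely many arcs: copy of `Item_D2.lean` (`prf_D2`) with the compact set `K`
instead of `Icc 0 (2 π)`. -/
def H_DK : Prop := ∀ (u : ℂ → ℝ) (K : Set ℝ), ContinuousOn u (ball 0 1) → IsCompact K → NegOn u K →
  ∃ (m : ℕ) (r α δ : Fin m → ℝ), Function.Injective r ∧ (∀ i, 0 < r i) ∧ (∀ i, r i < 1) ∧
    (∀ i, 0 < δ i) ∧ (∀ i, δ i ≤ 1) ∧ (∀ i θ, |θ - α i| ≤ δ i → u (pt (r i) θ) < 0) ∧
    ∀ θ ∈ K, ∃ i, |θ - α i| ≤ δ i

/-- (DM, EASY-MEDIUM) The domain of a competitor.  USES S_MAX S_CI S_D1 DK.  Copy of `prf_DOM` in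
`Bd/B05.lean` (line 256 ff.): `D = ball 0 1 \ E`, `E` the arcs of `DK`; `Dom D` by `S_D1`; `θ ∈ K` is in the
shadow since `pt (r i) θ ∈ E ⊆ frontier D`; `max u 0` is in the lower class. -/
def H_DM : Prop := ∀ (u : ℂ → ℝ) (K : Set ℝ), IsCompact K → Nice u →
  (∀ z ∈ ball (0 : ℂ) 1, u z ≤ 1) → NegOn u K → 0 < u 0 →
  ∃ D : Set ℂ, Dom D ∧ ArcDom D ∧ K ⊆ shadow D ∧ u 0 ≤ omega D

/-! ### The theorem -/

/-- (F1, EASY-MEDIUM) The upper bound.  USES S_UPPER S_LOWER S_DOM EX AP CP IT GR SH.  Proof: write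
`c = cst`; `0 < c < 1` and `omega D' ≤ c` for all admissible `D'` (`S_UPPER`, `S_LOWER`, `le_csSup`).
`μ = volume.real (shadow D ∩ Icc 0 (2 π)) ≤ 2 π`.  Suppose `omega D > 1 - (1 - c) μ / (2 π) + 6 ε`, `ε > 0`,
`ε < 1`: there is `u ∈ IsLower D` with `u 0 > ...` (`lt_csSup_iff` or `exists_lt_of_lt_csSup`; the set is
nonempty: the function `0` is in the lower class).  `w` from `EX`.  `K` from `SH` with
`volume K ≥ μ - 2 π ε`.  For `θ ∈ K` there is `t` with `pt t θ ∈ frontier D`, `t > 0` as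
`0 ∈ D`, `w = 0` there; `AP` gives `u1`, nice, `≤ 1`, negative on `K`, `u1 0 ≥ u 0 - ε`.  `q ∈ InA` with
`q 0 ≥ c - 2 ε` (definition of `c`, `omega` and `CP`); replace `q 0` by the bound `c - 2 ε`.
`G = {θ | ∃ t ∈ (0, 1), u1 (pt t θ) < 0}` is open (`ContinuousOn.isOpen_inter_preimage` as in
`Item_D2.lean`, projections are open maps), contains `K`.  `GR`: arcs with
`∑ 2 β ≤ 2 π - volume K ≤ 2 π - μ + 2 π ε`.  `IT` for `u1`: `v`, negative on `K ∪` arcs `⊇ Icc 0 (2 π)`
(`v ≤ u1`), so `InA v` by periodicity, and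
`v 0 ≥ u1 0 - (1 - c + 2 ε) (1 - μ / (2 π) + ε) - ε ≥ u 0 - (1 - c) (1 - μ / (2 π)) - 6 ε > c > 0`
(check the constant: `ε + (1-c) ε + 2 ε (1 + ε) + ε ≤ 9 ε`: take `9 ε` instead of `6 ε`).  By `S_DOM` there is an
admissible `D'` with `omega D' ≥ v 0 > c`, a contradiction. -/
def H_F1 : Prop := ∀ D : Set ℂ, Dom D →
  omega D ≤ 1 - (1 - cst) * (volume.real (shadow D ∩ Icc 0 (2 * Real.pi)) / (2 * Real.pi))

/-- (F2, EASY-MEDIUM) The lower bound.  USES S_UPPER S_LOWER CP IT G2 DM.  Proof: `c = cst`,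
`0 < c < 1`, `volume K ≤ 2 π`, so the right hand side before subtracting is `≥ c > 0`.  Let `ε' > 0`
be so small that `1 - (1 - c) volume K / (2 π) - 4 ε' > max 0 (.. - ε)`.  `q ∈ InA` with
`q 0 ≥ c - ε'` (definitions of `c`, `omega`, and `CP`).  The constant `1` is nice (`Nice` unfolds:
`circleAverage_const`).  `G2` with `ε'`, `IT` with `u = 1` and `ε'`:
`v 0 ≥ 1 - (1 - c + ε') (volume K + ε') / (2 π) - ε' ≥ 1 - (1 - c) volume K / (2 π) - 4 ε'`.  `DM`. -/
def H_F2 : Prop := ∀ (K : Set ℝ) (ε : ℝ), IsCompact K → K ⊆ Icc 0 (2 * Real.pi) → 0 < ε →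
  ∃ D : Set ℂ, Dom D ∧ ArcDom D ∧ K ⊆ shadow D ∧
    1 - (1 - cst) * (volume.real K / (2 * Real.pi)) - ε < omega D

end MPf68f16.Hall
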