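import Pool.Agent.Work.MP_f68f16_an.Hall.Stmts

/-!
# Hall's lemma with the sharp constant (captain helper4): the supremum is not attained by domains with
# compact inner boundary

The docstring of each statement is its complete proof; nothing here is a theorem.
-/

set_option autoImplicit false

open MeasureTheory Metric Set Filter Topology

namespace MPf68f16.Hall

open MPf68f16

/-- The inner boundary of `D` is contained in the disc of radius `ρ`. -/
def Inn (D : Set ℂ) (ρ : ℝ) : Prop := ∀ ζ ∈ frontier D, ‖ζ‖ < 1 → ‖ζ‖ ≤ ρ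

/-- The dilated domain. -/
def dil (D : Set ℂ) (s : ℝ) : Set ℂ := {z | ‖z‖ < 1 ∧ ((s⁻¹ : ℝ) : ℂ) * z ∈ D}

/-- (AN, EASY) The outer annulus is in `D`.  Proof: `A = {z | ρ < ‖z‖, ‖z‖ < 1}` is preconnected (for
`0 ≤ ρ` it is the image of `Ioo ρ 1 ×ˢ univ` under `continuous_pt`; for `ρ < 0` it is the ball).  It
does not meet `frontier D` (`Inn`), and it meets `D`: `1 ∈ sphere ⊆ frontier D ⊆ closure D`, so there are
points of `D` near `1`, they have norm `> ρ` and `< 1` (`D ⊆ ball 0 1`).  A preconnected set which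
meets `D` and not `frontier D` is contained in `D` (`IsPreconnected.inter_frontier_nonempty`, or
`isPreconnected_iff_subset_of_disjoint` for `D` and `(closure D)ᶜ`). -/
def H_AN : Prop := ∀ (D : Set ℂ) (ρ : ℝ), Dom D → ρ < 1 → Inn D ρ →
  ∀ z : ℂ, ρ < ‖z‖ → ‖z‖ < 1 → z ∈ D

/-- (U1, MEDIUM) Lower functions are uniformly smaller than `1` on a circle.  USES S_N6 S_HIT S_POT0
S_POT1 S_POT2 S_POT3 S_POT4 S_PER S_CI S_MAX.  Proof: `r` from `S_HIT`; by `Inn` `r θ ≤ ρ < 1` for all `θ`.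
Copy of `upper_of` in `Bd/B03.lean` (lines 20 to 87), with a point `z ∈ D` in place of `0`: with the
parameter `ρ` of `pot` (called `ρ` there too, any number in `[ρ, 1)`) one gets
`u z ≤ 1 - pot r ρ z / K0` for all `z ∈ D` and all lower functions `u`.  The continuous function
`pot r ρ` (`S_POT1`) is positive on `D`: the integrand is `gD z (pt (r θ) θ) / log (1 / r θ)` for every
`θ`, it is positive (`gD z a > 0` for different points of the disc: `‖z - a‖ < ‖1 - conj a z‖`; `z ∈ D` is not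
in the frontier of the open set `D`), measurable and integrable (`S_PER`), so its integral is positive
(`setIntegral_pos_iff_support_of_nonneg_ae`).  The circle is compact, so `pot r ρ ≥ κ0 > 0` on it,
`κ = κ0 / K0` (or half the minimum of it and `1`). -/
def H_U1 : Prop := ∀ (D : Set ℂ) (ρ r1 : ℝ), Admissible D → 0 ≤ ρ → ρ < r1 → r1 < 1 → Inn D ρ →
  (∀ z : ℂ, ‖z‖ = r1 → z ∈ D) →
  ∃ κ : ℝ, 0 < κ ∧ κ < 1 ∧ ∀ u : ℂ → ℝ, IsLower D u → ∀ z : ℂ, ‖z‖ = r1 → u z ≤ 1 - κ

/-- (DS, MEDIUM) The dilated domain.  USES AN.  Proof: `dil D s` is open and contains `0`.  Connected: let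
`ρ < r0`, `0 < r0`, `s r0 < 1`, and `c w = s w` for `‖w‖ ≤ r0`,
`c w = (s r0 + (‖w‖ - r0) (1 - s r0) / (1 - r0)) w / ‖w‖` for `‖w‖ ≥ r0` (continuous on the disc, for
instance as `g (‖w‖) w` with a continuous `g`).  `c` maps `D` onto `dil D s`: for `‖w‖ ≤ r0`,
`s⁻¹ c w = w ∈ D`; for `r0 < ‖w‖ < 1` the norm of `c w` is between `s r0` and `1` and
`s⁻¹ c w` is in the annulus, so in `D` (`AN`, `r0 > ρ`); conversely for `z ∈ dil D s` with `‖z‖ ≤ s r0` take
`w = s⁻¹ z`, and for `‖z‖ > s r0` the point of norm in `(r0, 1)` in the direction of `z` (in `D` by `AN`).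
So `dil D s = c '' D` is preconnected.  Frontier inside the disc: `dil D s` is there the preimage of `D`
under the homeomorphism `z ↦ s⁻¹ z`.  The circle: the points of norm `> s ρ` and `< 1` are in `dil D s`
(`AN`), so the circle is in its closure, and not in the set. -/
def H_DS : Prop := ∀ (D : Set ℂ) (ρ s : ℝ), Dom D → 0 ≤ ρ → 1 < s → s * ρ < 1 → Inn D ρ →
  Dom (dil D s) ∧ ∀ ζ : ℂ, ‖ζ‖ < 1 → (ζ ∈ frontier (dil D s) ↔ ((s⁻¹ : ℝ) : ℂ) * ζ ∈ frontier D)

/-- (DL, EASY-MEDIUM) The dilated lower function.  USES AN DS.  Proof: nonnegative, upper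
semicontinuous (composition with a continuous map), sub mean value property (the circle average of
`z ↦ u (s⁻¹ z)` over the circle with centre `z` and radius `r` is that of `u` with centre `s⁻¹ z` and radius
`s⁻¹ r`, unfold `circleAverage`, `circleMap`; the closed ball is mapped into `D`).  Inner boundary: by `DS`
`s⁻¹ ζ ∈ frontier D`, `u < (1 - κ) ε` near it.  Outer boundary: `‖ζ‖ = 1`, `s⁻¹ ζ ∈ D` (`AN`, `ρ < s⁻¹`),
`u (s⁻¹ ζ) ≤ 1 - κ < (1 - κ) (1 + ε)`, upper semicontinuity at `s⁻¹ ζ`. -/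
def H_DL : Prop := ∀ (D : Set ℂ) (ρ s κ : ℝ) (u : ℂ → ℝ), Dom D → 0 ≤ ρ → 1 < s → s * ρ < 1 →
  Inn D ρ → 0 < κ → κ < 1 → IsLower D u → (∀ z : ℂ, ‖z‖ = s⁻¹ → u z ≤ 1 - κ) →
  IsLower (dil D s) (fun z => u (((s⁻¹ : ℝ) : ℂ) * z) / (1 - κ))

/-- (NA, EASY-MEDIUM) The constant is not attained by domains with compact inner boundary.  USES
S_UPPER S_LOWER S_MAX S_CI AN U1 DS DL.  Proof: `0 < cst`, `omega D' ≤ cst` for admissible `D'`
(`S_UPPER`, `S_LOWER`, `le_csSup`; see `I_F1.lean`, `cst_props`, copy it).  We may assume `0 ≤ ρ`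
(otherwise replace it by `0`).  Let `s > 1` with `s ρ < 1`, `r1 = s⁻¹ > ρ`; `AN` gives the circle in `D`, `U1`
gives `κ`.  `dil D s` is admissible: `DS`, and for `θ` with `pt t θ ∈ frontier D`, `t ≤ ρ` (`norm_pt`),
`pt (s t) θ ∈ frontier (dil D s)`, `s t < 1`.  For a lower function `u` of `D`, `DL` gives a lower function of
`dil D s` with value `u 0 / (1 - κ)` at `0`, so `u 0 / (1 - κ) ≤ omega (dil D s) ≤ cst` (the set of values is
bounded: lower functions are `≤ 1` at `0`, `IDOM.lower_le_one` in `Bd/B05.lean`, copy it).  So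
`omega D ≤ (1 - κ) cst < cst`. -/
def H_NA : Prop := ∀ (D : Set ℂ) (ρ : ℝ), Admissible D → ρ < 1 → Inn D ρ → omega D < cst

end MPf68f16.Hall
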